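import Mathlib

open Finset
open scoped Pointwise

namespace Pool.Agent.H55.AK

/-- `x` is a difference of two elements of `m • A`. -/
lemma mem_sub_add {A : Finset (ℤ × ℤ)} {m m' : ℕ} {x y : ℤ × ℤ} (hx : x ∈ m • A - m • A)
    (hy : y ∈ m' • A - m' • A) : x + y ∈ (m + m') • A - (m + m') • A := by
  obtain ⟨a, ha, b, hb, rfl⟩ := mem_sub.mp hx
  obtain ⟨c, hc, d, hd, rfl⟩ := mem_sub.mp hy
  rw [add_nsmul]
  refine mem_sub.mpr ⟨a + c, add_mem_add ha hc, b + d, add_mem_add hb hd, by abel⟩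

lemma mem_sub_mono {A : Finset (ℤ × ℤ)} (hA : A.Nonempty) {m m' : ℕ} (h : m ≤ m') {x : ℤ × ℤ}
    (hx : x ∈ m • A - m • A) : x ∈ m' • A - m' • A := by
  obtain ⟨r, rfl⟩ := Nat.exists_eq_add_of_le h
  obtain ⟨c, hc⟩ := hA.nsmul (n := r)
  have h0 : (0 : ℤ × ℤ) ∈ r • A - r • A := mem_sub.mpr ⟨c, hc, c, hc, by abel⟩
  simpa using mem_sub_add hx h0

lemma zsmul_mem_sub {A : Finset (ℤ × ℤ)} {a b : ℤ × ℤ} (ha : a ∈ A) (hb : b ∈ A) (c : ℤ) :
    c • (a - b) ∈ c.natAbs • A - c.natAbs • A := by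
  have hnat : ∀ (n : ℕ) (a b : ℤ × ℤ), a ∈ A → b ∈ A → (n : ℤ) • (a - b) ∈ n • A - n • A := by
    intro n a b ha hb
    refine mem_sub.mpr ⟨n • a, nsmul_mem_nsmul ha, n • b, nsmul_mem_nsmul hb, ?_⟩
    rw [natCast_zsmul, nsmul_sub]
  rcases Int.natAbs_eq c with h | h
  · have := hnat c.natAbs a b ha hb
    rwa [← h] at this
  · have := hnat c.natAbs b a hb ha
    rw [h, Int.natAbs_neg, Int.natAbs_natCast, neg_smul, ← smul_neg, neg_sub]
    exact this

lemma sum_mem_sub {A : Finset (ℤ × ℤ)} (hA : A.Nonempty) {k : ℕ} (c : Fin k → ℤ)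
    (a b : Fin k → ℤ × ℤ) (ha : ∀ i, a i ∈ A) (hb : ∀ i, b i ∈ A) (m : ℕ)
    (hm : ∑ i, (c i).natAbs ≤ m) : ∑ i, c i • (a i - b i) ∈ m • A - m • A := by
  refine mem_sub_mono hA hm ?_
  have : ∀ s : Finset (Fin k), ∑ i ∈ s, c i • (a i - b i) ∈
      (∑ i ∈ s, (c i).natAbs) • A - (∑ i ∈ s, (c i).natAbs) • A := by
    intro s
    induction s using Finset.induction_on with
    | empty => simp
    | insert i s hi ih =>
      rw [sum_insert hi, sum_insert hi]
      exact mem_sub_add (zsmul_mem_sub (ha i) (hb i) _) ih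
  exact this univ

/-- the coordinate `x - y` -/
def T (a : ℤ × ℤ) : ℤ := a.1 - a.2

lemma T_sum {ι : Type*} (s : Finset ι) (c : ι → ℤ) (d : ι → ℤ × ℤ) :
    T (∑ i ∈ s, c i • d i) = ∑ i ∈ s, c i * T (d i) := by
  unfold T
  rw [Prod.fst_sum, Prod.snd_sum, ← sum_sub_distrib]
  refine sum_congr rfl fun i _ => ?_
  simp; ring

lemma snd_sum' {ι : Type*} (s : Finset ι) (c : ι → ℤ) (d : ι → ℤ × ℤ) :
    (∑ i ∈ s, c i • d i).2 = ∑ i ∈ s, c i * (d i).2 := by
  rw [Prod.snd_sum]
  refine sum_congr rfl fun i _ => ?_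
  simp

/-- counting tuples with few sums -/
lemma count_tuples {k : ℕ} (hk : 2 ≤ k) (p : Fin k → ℤ) (hp : Function.Injective p) (q : ℤ)
    (hq : q ≠ 0) (F : Fin k → Finset (ℤ × ℤ))
    (hF : ∀ i, ∀ a ∈ F i, ∀ b ∈ F i, q * (a - b).2 = p i * T (a - b))
    (X : Finset (ℤ × ℤ))
    (hX : ∀ a ∈ Fintype.piFinset F, ∀ b ∈ Fintype.piFinset F, ∀ j ≤ k - 2,
      ∑ i, (p i) ^ j • (a i - b i) ∈ X) :
    ∀ r j : ℕ, j + r = k - 2 → ∀ Ω ⊆ Fintype.piFinset F,
      (∀ a ∈ Ω, ∀ b ∈ Ω, ∀ l ≤ j, ∑ i, (p i) ^ l • (a i - b i) = 0) →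
      #Ω ≤ (#(X.filter fun x => T x = 0)) ^ r := by
  intro r
  induction r with
  | zero =>
    intro j hj Ω hΩ hconst
    rw [pow_zero, card_le_one]
    intro a ha b hb
    have haF := Fintype.mem_piFinset.mp (hΩ ha)
    have hbF := Fintype.mem_piFinset.mp (hΩ hb)
    -- Vandermonde
    have hv : (fun i => T (a i - b i)) = 0 := by
      apply Matrix.eq_zero_of_forall_pow_sum_mul_pow_eq_zero hp
      intro l
      rcases Nat.lt_or_ge (l : ℕ) (k - 1) with hl | hl
      · have h := hconst a ha b hb l (by omega)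
        have h2 := congrArg T h
        rw [T_sum] at h2
        have : T 0 = 0 := rfl
        rw [this] at h2
        rw [← h2]
        exact sum_congr rfl fun i _ => mul_comm _ _
      · have hl' : (l : ℕ) = (k - 2) + 1 := by omega
        have h := hconst a ha b hb (k - 2) (by omega)
        have h2 : (∑ i, (p i) ^ (k - 2) • (a i - b i)).2 = 0 := by rw [h]; rfl
        rw [snd_sum'] at h2
        have h3 : ∑ i, T (a i - b i) * p i ^ (l : ℕ) = q * ∑ i, p i ^ (k - 2) * (a i - b i).2 := by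
          rw [mul_sum]
          refine sum_congr rfl fun i _ => ?_
          have := hF i (a i) (haF i) (b i) (hbF i)
          rw [hl', pow_succ]
          linear_combination (-(p i) ^ (k - 2)) * this
        rw [h3, h2, mul_zero]
    funext i
    have h1 : T (a i - b i) = 0 := congrFun hv i
    have h2 := hF i (a i) (haF i) (b i) (hbF i)
    rw [h1, mul_zero] at h2
    have h3 : (a i - b i).2 = 0 := (mul_eq_zero.mp h2).resolve_left hq
    have h4 : (a i - b i).1 = 0 := by
      unfold T at h1; omega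
    have h5 : a i - b i = 0 := Prod.ext h4 h3
    exact sub_eq_zero.mp h5
  | succ r ih =>
    intro j hj Ω hΩ hconst
    rcases Ω.eq_empty_or_nonempty with rfl | ⟨b0, hb0⟩
    · simp
    set ψ : (Fin k → ℤ × ℤ) → ℤ × ℤ := fun a => ∑ i, (p i) ^ (j + 1) • (a i - b0 i) with hψ
    have himg : Ω.image ψ ⊆ X.filter fun x => T x = 0 := by
      intro x hx
      obtain ⟨a, ha, rfl⟩ := mem_image.mp hx
      rw [mem_filter]
      refine ⟨hX a (hΩ ha) b0 (hΩ hb0) (j + 1) (by omega), ?_⟩
      have haF := Fintype.mem_piFinset.mp (hΩ ha)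
      have hbF := Fintype.mem_piFinset.mp (hΩ hb0)
      have h := hconst a ha b0 hb0 j le_rfl
      have h2 : (∑ i, (p i) ^ j • (a i - b0 i)).2 = 0 := by rw [h]; rfl
      rw [snd_sum'] at h2
      rw [hψ]
      simp only
      rw [T_sum]
      have h3 : ∑ i, p i ^ (j + 1) * T (a i - b0 i) = q * ∑ i, p i ^ j * (a i - b0 i).2 := by
        rw [mul_sum]
        refine sum_congr rfl fun i _ => ?_
        have := hF i (a i) (haF i) (b0 i) (hbF i)
        rw [pow_succ]
        linear_combination (-(p i) ^ j) * this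
      rw [h3, h2, mul_zero]
    have hfib : ∀ x ∈ Ω.image ψ, #(Ω.filter fun a => ψ a = x) ≤
        (#(X.filter fun x => T x = 0)) ^ r := by
      intro x _
      refine ih (j + 1) (by omega) _ ((filter_subset _ _).trans hΩ) ?_
      intro a ha b hb l hl
      rw [mem_filter] at ha hb
      rcases Nat.lt_or_ge l (j + 1) with hl' | hl'
      · exact hconst a ha.1 b hb.1 l (by omega)
      · have : l = j + 1 := by omega
        subst this
        have h1 : ψ a - ψ b = 0 := by rw [ha.2, hb.2, sub_self]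
        rw [← h1, hψ]
        simp only
        rw [← sum_sub_distrib]
        refine sum_congr rfl fun i _ => ?_
        rw [← smul_sub]
        congr 1
        abel
    calc #Ω ≤ (#(X.filter fun x => T x = 0)) ^ r * #(Ω.image ψ) :=
          card_le_mul_card_image Ω _ hfib
      _ ≤ (#(X.filter fun x => T x = 0)) ^ r * #(X.filter fun x => T x = 0) :=
          Nat.mul_le_mul_left _ (card_le_card himg)
      _ = _ := (pow_succ _ _).symm

/-- fibre bound -/
lemma fibre_mul (A X : Finset (ℤ × ℤ)) :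
    #(X.filter fun x => T x = 0) * #(A.image T) ≤ #(X + A) := by
  classical
  -- a section
  have hsec : ∀ t ∈ A.image T, ∃ a ∈ A, T a = t := fun t ht => mem_image.mp ht
  choose! σ hσA hσT using hsec
  rw [← card_product]
  refine card_le_card_of_injOn (fun z => z.1 + σ z.2) ?_ ?_
  · rintro ⟨x, t⟩ hz
    rw [mem_coe, mem_product, mem_filter] at hz
    exact add_mem_add hz.1.1 (hσA t hz.2)
  · rintro ⟨x, t⟩ hz ⟨x', t'⟩ hz' h
    rw [mem_coe, mem_product, mem_filter] at hz hz'
    simp only at h hz hz'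
    have hT : ∀ a b : ℤ × ℤ, T (a + b) = T a + T b := by
      intro a b; unfold T; simp; ring
    have h1 := congrArg T h
    rw [hT, hT, hz.1.2, hz'.1.2, hσT t hz.2, hσT t' hz'.2, zero_add, zero_add] at h1
    subst h1
    have h2 := add_right_cancel h
    rw [h2]

lemma assemble {k m : ℕ} (hk : 2 ≤ k) {a K f M R P : ℝ} (ha : 0 < a) (hK : 0 ≤ K) (hf : 0 ≤ f)
    (hM0 : 0 ≤ M) (hR0 : 0 ≤ R) (hprod : a ^ k ≤ P * R)
    (hcount : P ≤ f ^ (k - 2) * (K ^ k * a)) (hfM : f * M ≤ K ^ (2 * m + 1) * a) :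
    a * M ^ (k - 2) ≤ K ^ ((2 * m + 1) * (k - 2) + k) * R := by
  have e1 : a ^ k * M ^ (k - 2) ≤ K ^ ((2 * m + 1) * (k - 2) + k) * a ^ (k - 1) * R := by
    calc a ^ k * M ^ (k - 2)
        ≤ (P * R) * M ^ (k - 2) := mul_le_mul_of_nonneg_right hprod (by positivity)
      _ ≤ ((f ^ (k - 2) * (K ^ k * a)) * R) * M ^ (k - 2) := by gcongr
      _ = (f * M) ^ (k - 2) * (K ^ k * a * R) := by rw [mul_pow]; ring
      _ ≤ (K ^ (2 * m + 1) * a) ^ (k - 2) * (K ^ k * a * R) := by gcongr
      _ = K ^ ((2 * m + 1) * (k - 2) + k) * a ^ (k - 1) * R := by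
          have : k - 1 = (k - 2) + 1 := by omega
          rw [this, mul_pow, ← pow_mul, pow_add K, pow_succ a]
          ring
  have e2 : a ^ k = a ^ (k - 1) * a := by
    rw [← pow_succ]; congr 1; omega
  rw [e2] at e1
  have e3 : (0 : ℝ) < a ^ (k - 1) := by positivity
  have e4 : a ^ (k - 1) * (a * M ^ (k - 2)) ≤
      a ^ (k - 1) * (K ^ ((2 * m + 1) * (k - 2) + k) * R) := by
    calc _ = a ^ (k - 1) * a * M ^ (k - 2) := by ring
      _ ≤ _ := e1
      _ = _ := by ring
  exact le_of_mul_le_mul_left e4 e3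

/-- Main inequality. -/
lemma main_ineq {k : ℕ} (hk : 2 ≤ k) (p : Fin k → ℤ) (hp : Function.Injective p) (q : ℤ)
    (hq : q ≠ 0) {β : Type*} [DecidableEq β] (π : Fin k → ℤ × ℤ → β)
    (hπ : ∀ i a b, π i a = π i b → q * (a - b).2 = p i * T (a - b)) :
    ∃ E : ℕ, ∀ A : Finset (ℤ × ℤ), A.Nonempty →
      (#A : ℝ) * (#(A.image T) : ℝ) ^ (k - 2) ≤
        ((#(A + A) : ℝ) / #A) ^ E * ∏ i, (#(A.image (π i)) : ℝ) := by
  classical
  set m : ℕ := ∑ j ∈ range k, ∑ i, ((p i) ^ j).natAbs with hm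
  refine ⟨(2 * m + 1) * (k - 2) + k, fun A hA => ?_⟩
  have hApos : (0 : ℝ) < #A := by exact_mod_cast hA.card_pos
  -- Ruzsa constants
  set K : ℝ := (#(A + A) : ℝ) / #A with hK
  have hPR : ∀ a b : ℕ, (#(a • A - b • A) : ℝ) ≤ K ^ (a + b) * #A := by
    intro a b
    have := pluennecke_ruzsa_inequality_nsmul_sub_nsmul_add hA A a b
    have h2 : ((#(a • A - b • A) : ℚ≥0) : ℝ) ≤ ((((#(A + A) : ℚ≥0) / #A) ^ (a + b) * #A : ℚ≥0) : ℝ) := by
      exact_mod_cast this
    push_cast at h2
    exact h2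
  have hK1 : 1 ≤ K := by
    rw [hK, one_le_div hApos]
    have : #A ≤ #(A + A) := card_le_card_add_self
    exact_mod_cast this
  -- large fibres
  have hfib : ∀ i, ∃ F ⊆ A, (#A : ℝ) ≤ #F * #(A.image (π i)) ∧
      ∀ a ∈ F, ∀ b ∈ F, q * (a - b).2 = p i * T (a - b) := by
    intro i
    obtain ⟨y, hy, hmax⟩ := exists_max_image (A.image (π i)) (fun y => #(A.filter fun a => π i a = y))
      (hA.image _)
    refine ⟨A.filter fun a => π i a = y, filter_subset _ _, ?_, ?_⟩
    · have := card_le_mul_card_image (f := π i) A (#(A.filter fun a => π i a = y))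
        (fun z hz => hmax z hz)
      exact_mod_cast this
    · intro a ha b hb
      rw [mem_filter] at ha hb
      exact hπ i a b (ha.2.trans hb.2.symm)
  choose F hFA hFcard hFrel using hfib
  set X := m • A - m • A with hX
  set f := #(X.filter fun x => T x = 0) with hf
  have hXmem : ∀ a ∈ Fintype.piFinset F, ∀ b ∈ Fintype.piFinset F, ∀ j ≤ k - 2,
      ∑ i, (p i) ^ j • (a i - b i) ∈ X := by
    intro a ha b hb j hj
    rw [Fintype.mem_piFinset] at ha hb
    refine sum_mem_sub hA _ a b (fun i => hFA i (ha i)) (fun i => hFA i (hb i)) m ?_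
    rw [hm]
    exact single_le_sum (f := fun j => ∑ i, ((p i) ^ j).natAbs) (fun _ _ => Nat.zero_le _)
      (mem_range.mpr (by omega))
  -- the sum map
  have hcount : #(Fintype.piFinset F) ≤ f ^ (k - 2) * #(k • A) := by
    have himg : (Fintype.piFinset F).image (fun a => ∑ i, a i) ⊆ k • A := by
      intro s hs
      obtain ⟨a, ha, rfl⟩ := mem_image.mp hs
      rw [Fintype.mem_piFinset] at ha
      have : ∀ s : Finset (Fin k), ∑ i ∈ s, a i ∈ (#s) • A := by
        intro s
        induction s using Finset.induction_on with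
        | empty => simp
        | insert i s hi ih =>
          rw [sum_insert hi, card_insert_of_notMem hi, succ_nsmul, add_comm (a i)]
          exact add_mem_add ih (hFA i (ha i))
      simpa using this univ
    refine (card_le_mul_card_image (Fintype.piFinset F) (f ^ (k - 2)) ?_).trans
      (Nat.mul_le_mul_left _ (card_le_card himg))
    intro s _
    refine count_tuples hk p hp q hq F hFrel X hXmem (k - 2) 0 (by omega) _ (filter_subset _ _) ?_
    intro a ha b hb l hl
    rw [mem_filter] at ha hb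
    have : l = 0 := by omega
    subst this
    simp only [pow_zero, one_smul]
    rw [sum_sub_distrib, ha.2, hb.2, sub_self]
  -- fibre bound
  have hfM : (f : ℝ) * #(A.image T) ≤ K ^ (2 * m + 1) * #A := by
    have h1 := fibre_mul A X
    have h2 : X + A = (m + 1) • A - m • A := by
      rw [hX, succ_nsmul]
      rw [sub_add_eq_add_sub]
    rw [h2] at h1
    have h3 := hPR (m + 1) m
    have h4 : ((f * #(A.image T) : ℕ) : ℝ) ≤ #((m + 1) • A - m • A) := by exact_mod_cast h1
    push_cast at h4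
    refine h4.trans (h3.trans (le_of_eq ?_))
    congr 2; omega
  have hkA : (#(k • A) : ℝ) ≤ K ^ k * #A := by
    have := hPR k 0
    simpa using this
  -- assemble
  have hprod : (#A : ℝ) ^ k ≤ (#(Fintype.piFinset F) : ℝ) * ∏ i, (#(A.image (π i)) : ℝ) := by
    have : (#A : ℝ) ^ k = ∏ _i : Fin k, (#A : ℝ) := by simp
    rw [this, Fintype.card_piFinset, Nat.cast_prod, ← prod_mul_distrib]
    exact prod_le_prod (fun _ _ => hApos.le) fun i _ => hFcard i
  have hcount' : (#(Fintype.piFinset F) : ℝ) ≤ (f : ℝ) ^ (k - 2) * (K ^ k * #A) := by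
    have : (#(Fintype.piFinset F) : ℝ) ≤ (f : ℝ) ^ (k - 2) * #(k • A) := by exact_mod_cast hcount
    exact this.trans (mul_le_mul_of_nonneg_left hkA (by positivity))
  exact assemble hk hApos (zero_le_one.trans hK1) (Nat.cast_nonneg _)
    (Nat.cast_nonneg _) (prod_nonneg fun _ _ => Nat.cast_nonneg _) hprod hcount' hfM

/-- the projection in direction `r` -/
def proj (r : ℚ) (a : ℤ × ℤ) : ℚ := (a.1 : ℚ) + r * (a.2 : ℚ)

/-- the slope data: eigenvalues -/
noncomputable def lam : Option ℚ → ℚ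
  | none => 0
  | some r => -1 / (1 + r)

/-- projections indexed by `Option ℚ`, `none` being the slope infinity -/
def projO : Option ℚ → ℤ × ℤ → ℚ
  | none, a => (a.2 : ℚ)
  | some r, a => proj r a

lemma lam_inj {o o' : Option ℚ} (h : ∀ r, o = some r → r ≠ -1) (h' : ∀ r, o' = some r → r ≠ -1)
    (heq : lam o = lam o') : o = o' := by
  have hne : ∀ r : ℚ, r ≠ -1 → 1 + r ≠ 0 := by
    intro r hr h0; apply hr; linarith
  rcases o with _ | r <;> rcases o' with _ | r'
  · rfl
  · exfalso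
    have := hne r' (h' r' rfl)
    simp only [lam] at heq
    have h2 : (-1 : ℚ) / (1 + r') ≠ 0 := div_ne_zero (by norm_num) this
    exact h2 heq.symm
  · exfalso
    have := hne r (h r rfl)
    simp only [lam] at heq
    exact div_ne_zero (by norm_num) this heq
  · have h1 := hne r (h r rfl)
    have h2 := hne r' (h' r' rfl)
    simp only [lam] at heq
    rw [div_eq_div_iff h1 h2] at heq
    congr 1; linarith

lemma projO_rel {o : Option ℚ} (h : ∀ r, o = some r → r ≠ -1) {a b : ℤ × ℤ}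
    (hab : projO o a = projO o b) : (((a - b).2 : ℤ) : ℚ) = lam o * (T (a - b) : ℤ) := by
  rcases o with _ | r
  · simp only [projO, lam] at *
    have : a.2 = b.2 := by exact_mod_cast hab
    simp [this]
  · have h1 : 1 + r ≠ 0 := by
      intro h0; apply h r rfl; linarith
    simp only [projO, proj, lam] at *
    unfold T
    rw [div_mul_eq_mul_div, eq_div_iff h1]
    simp only [Prod.fst_sub, Prod.snd_sub]
    push_cast
    linarith

/-- Inequality for a finite set of slopes together with infinity. -/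
lemma ineq_S (S : Finset ℚ) (hS : (-1 : ℚ) ∉ S) (hne : S.Nonempty) :
    ∃ E : ℕ, ∀ A : Finset (ℤ × ℤ), A.Nonempty →
      (#A : ℝ) * (#(A.image T) : ℝ) ^ (#S - 1) ≤
        ((#(A + A) : ℝ) / #A) ^ E * ((#(A.image fun a => (a.2 : ℚ)) : ℝ) *
          ∏ r ∈ S, (#(A.image (proj r)) : ℝ)) := by
  classical
  -- enumerate the slopes
  set k := #S + 1 with hk
  have hk2 : 2 ≤ k := by have := hne.card_pos; omega
  let I : Finset (Option ℚ) := insert none (S.map Function.Embedding.some)
  have hIcard : #I = k := by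
    rw [card_insert_of_notMem (by simp), card_map]
  let e : Fin k ≃ I := (finCongr hIcard.symm).trans I.equivFin.symm
  let o : Fin k → Option ℚ := fun i => (e i : Option ℚ)
  have ho : ∀ i r, o i = some r → r ≠ -1 := by
    intro i r h
    have h1 : o i ∈ I := (e i).2
    rw [h] at h1
    have : r ∈ S := by simpa [I] using h1
    rintro rfl
    exact hS this
  have hoinj : Function.Injective o := Subtype.val_injective.comp e.injective
  -- common denominator
  let q : ℤ := ∏ i, ((lam (o i)).den : ℤ)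
  have hq : q ≠ 0 := by
    refine prod_ne_zero_iff.mpr fun i _ => ?_
    exact_mod_cast (lam (o i)).den_nz
  have hint : ∀ i, ∃ z : ℤ, (q : ℚ) * lam (o i) = z := by
    intro i
    obtain ⟨c, hc⟩ : ((lam (o i)).den : ℤ) ∣ q := dvd_prod_of_mem _ (mem_univ i)
    refine ⟨c * (lam (o i)).num, ?_⟩
    have hnd : (lam (o i)) * ((lam (o i)).den : ℚ) = (lam (o i)).num := Rat.mul_den_eq_num _
    rw [hc]
    push_cast
    rw [← hnd]
    ring
  choose p hp using hint
  have hpinj : Function.Injective p := by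
    intro i j hij
    have h1 : (q : ℚ) * lam (o i) = (q : ℚ) * lam (o j) := by rw [hp, hp, hij]
    have h2 : lam (o i) = lam (o j) := mul_left_cancel₀ (by exact_mod_cast hq) h1
    exact hoinj (lam_inj (ho i) (ho j) h2)
  have hπ : ∀ i a b, projO (o i) a = projO (o i) b → q * (a - b).2 = p i * T (a - b) := by
    intro i a b hab
    have h1 := projO_rel (ho i) hab
    have h2 : ((q * (a - b).2 : ℤ) : ℚ) = ((p i * T (a - b) : ℤ) : ℚ) := by
      push_cast
      rw [← hp, h1]; ring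
    exact_mod_cast h2
  obtain ⟨E, hE⟩ := main_ineq hk2 p hpinj q hq (fun i => projO (o i)) hπ
  refine ⟨E, fun A hA => ?_⟩
  have h1 := hE A hA
  have h2 : k - 2 = #S - 1 := by omega
  rw [h2] at h1
  refine h1.trans (le_of_eq ?_)
  congr 1
  have h3 : ∏ i, (#(A.image (projO (o i))) : ℝ) = ∏ x ∈ I, (#(A.image (projO x)) : ℝ) := by
    rw [← prod_coe_sort I]
    exact e.prod_comp (fun x : I => (#(A.image (projO (x : Option ℚ))) : ℝ))
  rw [h3, prod_insert (by simp), prod_map]
  rfl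



lemma card_le_sq {A : Finset (ℤ × ℤ)} (r : ℚ) :
    #A ≤ #(A.image fun a => (a.2 : ℚ)) * #(A.image (proj r)) := by
  classical
  rw [← card_product]
  refine card_le_card_of_injOn (fun a => ((a.2 : ℚ), proj r a)) ?_ ?_
  · intro a ha
    rw [mem_coe, mem_product]
    exact ⟨mem_image_of_mem _ ha, mem_image_of_mem _ ha⟩
  · intro a _ b _ h
    simp only [Prod.mk.injEq, proj] at h
    obtain ⟨h1, h2⟩ := h
    have h3 : a.2 = b.2 := by exact_mod_cast h1
    rw [h3] at h2
    have h4 : (a.1 : ℚ) = b.1 := by linarith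
    exact Prod.ext (by exact_mod_cast h4) h3

lemma card_image_T (A : Finset (ℤ × ℤ)) :
    #(A.image fun p : ℤ × ℤ => (p.1 : ℚ) + (-1) * (p.2 : ℚ)) = #(A.image T) := by
  classical
  have h : (A.image fun p : ℤ × ℤ => (p.1 : ℚ) + (-1) * (p.2 : ℚ)) =
      (A.image T).image (fun z : ℤ => (z : ℚ)) := by
    rw [image_image]
    refine image_congr fun p _ => ?_
    simp only [T, Function.comp]
    push_cast
    ring
  rw [h]
  exact card_image_of_injective _ Int.cast_injective

/-- the real-number part of the upper bound -/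
lemma upper_real {s E : ℕ} (hs : 0 < s) {η δ a M N Q I P : ℝ} (hη : 0 < η)
    (hδ : δ = η * s / (2 * E + 1)) (ha : 1 ≤ a) (hM : 1 ≤ M) (hN : 1 ≤ N) (hI : 0 ≤ I)
    (hIN : I ≤ N) (hP0 : 0 ≤ P) (hPN : P ≤ N ^ s) (haN : a ≤ N ^ (2 : ℝ)) (hMa : M ≤ a)
    (hQ0 : 0 ≤ Q) (hQ : Q ≤ a ^ δ) (hmain : a * M ^ (s - 1) ≤ Q ^ E * (I * P)) :
    M ≤ N ^ (1 + 1 / (s : ℝ) + η) := by
  have hs0 : (0 : ℝ) < s := by exact_mod_cast hs
  have hδ0 : 0 < δ := by rw [hδ]; positivity
  have hN0 : 0 < N := by linarith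
  have hM0 : 0 ≤ M := by linarith
  have ha0 : 0 ≤ a := by linarith
  have hK2 : Q ^ E ≤ N ^ (2 * δ * E) := by
    calc Q ^ E ≤ (a ^ δ) ^ E := by gcongr
      _ ≤ ((N ^ (2 : ℝ)) ^ δ) ^ E := by gcongr
      _ = N ^ (2 * δ * E) := by
        rw [← Real.rpow_mul hN0.le, ← Real.rpow_natCast, ← Real.rpow_mul hN0.le]
  have key : M ^ s ≤ N ^ ((s : ℝ) + 1 + 2 * δ * E) := by
    calc M ^ s = M * M ^ (s - 1) := by
            rw [← pow_succ']
            congr 1
            omega
      _ ≤ a * M ^ (s - 1) := by gcongr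
      _ ≤ Q ^ E * (I * P) := hmain
      _ ≤ N ^ (2 * δ * E) * (N * N ^ s) := by gcongr
      _ = N ^ ((s : ℝ) + 1 + 2 * δ * E) := by
          rw [Real.rpow_add hN0, Real.rpow_add hN0, Real.rpow_one, Real.rpow_natCast]
          ring
  have h1 : M = (M ^ s) ^ ((1 : ℝ) / s) := by
    rw [← Real.rpow_natCast, ← Real.rpow_mul hM0, mul_one_div_cancel hs0.ne', Real.rpow_one]
  calc M = (M ^ s) ^ ((1 : ℝ) / s) := h1
    _ ≤ (N ^ ((s : ℝ) + 1 + 2 * δ * E)) ^ ((1 : ℝ) / s) := by gcongr
    _ = N ^ (((s : ℝ) + 1 + 2 * δ * E) * (1 / s)) := by rw [← Real.rpow_mul hN0.le]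
    _ ≤ N ^ (1 + 1 / (s : ℝ) + η) := by
        apply Real.rpow_le_rpow_of_exponent_le hN
        have e1 : ((s : ℝ) + 1 + 2 * δ * E) * (1 / s) = 1 + 1 / s + 2 * δ * E / s := by
          field_simp
        rw [e1]
        have e2 : 2 * δ * E / s = η * (2 * E / (2 * E + 1)) := by
          rw [hδ]; field_simp
        have e3 : (2 * E / (2 * E + 1) : ℝ) ≤ 1 := by
          rw [div_le_one (by positivity)]; linarith
        rw [e2]
        nlinarith

/-- Upper bound. -/
lemma upper (S : Finset ℚ) (hS : (-1 : ℚ) ∉ S) (hne : S.Nonempty) (η : ℝ) (hη : 0 < η) :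
    ∃ δ : ℝ, 0 < δ ∧ ∀ A : Finset (ℤ × ℤ), ((A + A).card : ℝ) ≤ (A.card : ℝ) ^ (1 + δ) →
      ((A.image (fun p : ℤ × ℤ => (p.1 : ℚ) + (-1) * (p.2 : ℚ))).card : ℝ) ≤
        (max ((A.image (fun p : ℤ × ℤ => (p.2 : ℚ))).card : ℝ)
            ((S.sup (fun r : ℚ =>
                (A.image (fun p : ℤ × ℤ => (p.1 : ℚ) + r * (p.2 : ℚ))).card) : ℕ) : ℝ))
          ^ (1 + 1 / (S.card : ℝ) + η) := by
  obtain ⟨E, hE⟩ := ineq_S S hS hne
  have hs0 : (0 : ℝ) < #S := by exact_mod_cast hne.card_pos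
  refine ⟨η * #S / (2 * E + 1), by positivity, fun A hA => ?_⟩
  rcases A.eq_empty_or_nonempty with rfl | hAne
  · simp only [image_empty, card_empty, Nat.cast_zero]
    exact Real.rpow_nonneg (le_max_left _ _) _
  rw [card_image_T]
  have hA1 : (1 : ℝ) ≤ #A := by exact_mod_cast hAne.card_pos
  have hA0 : (0 : ℝ) < #A := by linarith
  have hr : ∀ r ∈ S, (#(A.image (proj r)) : ℝ) ≤
      max ((A.image (fun p : ℤ × ℤ => (p.2 : ℚ))).card : ℝ)
            ((S.sup (fun r : ℚ =>
                (A.image (fun p : ℤ × ℤ => (p.1 : ℚ) + r * (p.2 : ℚ))).card) : ℕ) : ℝ) := by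
    intro r hr
    refine le_trans ?_ (le_max_right _ _)
    have := le_sup (f := fun r : ℚ =>
                (A.image (fun p : ℤ × ℤ => (p.1 : ℚ) + r * (p.2 : ℚ))).card) hr
    exact_mod_cast this
  have hinf : (#(A.image fun a : ℤ × ℤ => (a.2 : ℚ)) : ℝ) ≤
      max ((A.image (fun p : ℤ × ℤ => (p.2 : ℚ))).card : ℝ)
            ((S.sup (fun r : ℚ =>
                (A.image (fun p : ℤ × ℤ => (p.1 : ℚ) + r * (p.2 : ℚ))).card) : ℕ) : ℝ) :=
    le_max_left _ _
  refine upper_real (E := E) (δ := η * #S / (2 * E + 1)) (a := (#A : ℝ))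
    (Q := (#(A + A) : ℝ) / #A)
    (I := (#(A.image fun a : ℤ × ℤ => (a.2 : ℚ)) : ℝ))
    (P := ∏ r ∈ S, (#(A.image (proj r)) : ℝ)) hne.card_pos hη rfl hA1 ?_ ?_ (Nat.cast_nonneg _)
    hinf (prod_nonneg fun _ _ => Nat.cast_nonneg _) ?_ ?_ ?_ (by positivity) ?_ (hE A hAne)
  · exact_mod_cast (hAne.image T).card_pos
  · refine le_trans ?_ (le_max_left _ _)
    exact_mod_cast (hAne.image (fun p : ℤ × ℤ => (p.2 : ℚ))).card_pos
  · rw [← prod_const]
    exact prod_le_prod (fun _ _ => Nat.cast_nonneg _) hr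
  · obtain ⟨r, hrS⟩ := hne
    have h1 := card_le_sq (A := A) r
    have h2 : (#A : ℝ) ≤ #(A.image fun a => (a.2 : ℚ)) * #(A.image (proj r)) := by
      exact_mod_cast h1
    have h3 := hr r hrS
    rw [Real.rpow_two, sq]
    exact h2.trans (mul_le_mul hinf h3 (Nat.cast_nonneg _) (le_trans (Nat.cast_nonneg _) hinf))
  · exact_mod_cast card_image_le
  · rw [div_le_iff₀ hA0]
    refine hA.trans (le_of_eq ?_)
    rw [Real.rpow_add hA0, Real.rpow_one, mul_comm]

/-! ### the extremal boxes -/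

/-- digits are unique -/
lemma digits_zero {B : ℤ} (hB : 0 < B) : ∀ {k : ℕ} (c : Fin k → ℤ), (∀ i, |c i| < B) →
    ∑ i, c i * B ^ (i : ℕ) = 0 → ∀ i, c i = 0 := by
  intro k
  induction k with
  | zero => intro c _ _ i; exact i.elim0
  | succ k ih =>
    intro c hc h
    rw [Fin.sum_univ_succ] at h
    simp only [Fin.val_zero, pow_zero, mul_one, Fin.val_succ] at h
    have h1 : ∑ i : Fin k, c i.succ * B ^ ((i : ℕ) + 1) = B * ∑ i : Fin k, c i.succ * B ^ (i : ℕ) := by
      rw [mul_sum]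
      refine sum_congr rfl fun i _ => ?_
      rw [pow_succ]; ring
    rw [h1] at h
    have h2 : B ∣ c 0 := ⟨-∑ i : Fin k, c i.succ * B ^ (i : ℕ), by linarith⟩
    have h3 : c 0 = 0 := Int.eq_zero_of_abs_lt_dvd h2 (hc 0)
    rw [h3, zero_add] at h
    have h4 := (mul_eq_zero.mp h).resolve_left hB.ne'
    have h5 := ih (fun i => c i.succ) (fun i => hc i.succ) h4
    intro i
    refine Fin.cases h3 h5 i

/-- primitive integer vector in the kernel of the projection -/
def ker : Option ℚ → ℤ × ℤ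
  | none => (1, 0)
  | some r => (-r.num, r.den)

lemma T_ker {o : Option ℚ} (h : ∀ r, o = some r → r ≠ -1) : T (ker o) ≠ 0 := by
  rcases o with _ | r
  · simp [T, ker]
  · intro h0
    apply h r rfl
    simp only [T, ker] at h0
    have h1 : r.num = -(r.den : ℤ) := by linarith
    have h2 : (r.den : ℚ) ≠ 0 := by exact_mod_cast r.den_nz
    have h3 : r = (r.num : ℚ) / (r.den : ℚ) := (Rat.num_div_den r).symm
    rw [h3, h1]
    push_cast
    rw [neg_div, div_self h2]

lemma projO_add (o : Option ℚ) (a b : ℤ × ℤ) : projO o (a + b) = projO o a + projO o b := by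
  rcases o with _ | r
  · simp [projO]
  · simp only [projO, proj, Prod.fst_add, Prod.snd_add]; push_cast; ring

lemma projO_smul (o : Option ℚ) (c : ℤ) (a : ℤ × ℤ) : projO o (c • a) = c * projO o a := by
  rcases o with _ | r
  · simp [projO]
  · simp only [projO, proj, Prod.smul_fst, Prod.smul_snd, smul_eq_mul]; push_cast; ring

lemma projO_ker (o : Option ℚ) : projO o (ker o) = 0 := by
  rcases o with _ | r
  · simp [projO, ker]
  · simp only [projO, proj, ker]
    have h2 : (r.den : ℚ) ≠ 0 := by exact_mod_cast r.den_nz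
    have h3 : r * (r.den : ℚ) = r.num := Rat.mul_den_eq_num r
    push_cast
    rw [h3]; ring

lemma projO_sum {ι : Type*} (o : Option ℚ) (s : Finset ι) (f : ι → ℤ × ℤ) :
    projO o (∑ i ∈ s, f i) = ∑ i ∈ s, projO o (f i) := by
  classical
  induction s using Finset.induction_on with
  | empty => simp only [sum_empty]; rcases o with _ | r <;> simp [projO, proj]
  | insert i s hi ih => rw [sum_insert hi, sum_insert hi, projO_add, ih]

/-- the linear map of the box -/
def lin {k : ℕ} (v : Fin k → ℤ × ℤ) (n : Fin k → ℕ) : ℤ × ℤ := ∑ i, (n i : ℤ) • v i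

/-- the box -/
def box {k : ℕ} (v : Fin k → ℤ × ℤ) (L : ℕ) : Finset (ℤ × ℤ) :=
  (Fintype.piFinset fun _ : Fin k => range L).image (lin v)

lemma card_cube (k L : ℕ) : #(Fintype.piFinset fun _ : Fin k => range L) = L ^ k := by
  rw [Fintype.card_piFinset]; simp

lemma box_proj {k : ℕ} (v : Fin k → ℤ × ℤ) (L : ℕ) (i : Fin k) (o : Option ℚ)
    (h : projO o (v i) = 0) : #((box v L).image (projO o)) ≤ L ^ (k - 1) := by
  classical
  have hsub : (box v L).image (projO o) ⊆
      (Fintype.piFinset fun j : Fin k => if j = i then {0} else range L).image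
        (fun n => projO o (lin v n)) := by
    intro y hy
    obtain ⟨a, ha, rfl⟩ := mem_image.mp hy
    obtain ⟨n, hn, rfl⟩ := mem_image.mp ha
    rw [Fintype.mem_piFinset] at hn
    refine mem_image.mpr ⟨fun j => if j = i then 0 else n j, ?_, ?_⟩
    · rw [Fintype.mem_piFinset]
      intro j
      by_cases hj : j = i
      · simp [hj]
      · simp only [hj, if_false]; exact hn j
    · unfold lin
      rw [projO_sum, projO_sum]
      refine sum_congr rfl fun j _ => ?_
      rw [projO_smul, projO_smul]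
      by_cases hj : j = i
      · rw [hj, h]; simp
      · simp [hj]
  refine (card_le_card hsub).trans (card_image_le.trans ?_)
  rw [Fintype.card_piFinset]
  have : ∀ j : Fin k, #(if j = i then ({0} : Finset ℕ) else range L) = if j = i then 1 else L := by
    intro j; by_cases hj : j = i <;> simp [hj]
  simp only [this]
  rw [prod_ite]
  simp only [prod_const_one, one_mul, prod_const]
  have h3 : #(univ.filter fun j : Fin k => ¬ j = i) = k - 1 := by
    have : (univ.filter fun j : Fin k => ¬ j = i) = univ.erase i := by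
      ext j; simp
    rw [this, card_erase_of_mem (mem_univ i)]; simp
  rw [h3]

lemma box_add {k : ℕ} (v : Fin k → ℤ × ℤ) (L : ℕ) :
    #(box v L + box v L) ≤ (2 * L) ^ k := by
  classical
  have hsub : box v L + box v L ⊆ box v (2 * L) := by
    intro x hx
    obtain ⟨a, ha, b, hb, rfl⟩ := mem_add.mp hx
    obtain ⟨n, hn, rfl⟩ := mem_image.mp ha
    obtain ⟨m, hm, rfl⟩ := mem_image.mp hb
    rw [Fintype.mem_piFinset] at hn hm
    refine mem_image.mpr ⟨fun i => n i + m i, ?_, ?_⟩
    · rw [Fintype.mem_piFinset]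
      intro i
      have h1 := mem_range.mp (hn i)
      have h2 := mem_range.mp (hm i)
      exact mem_range.mpr (by omega)
    · unfold lin
      rw [← sum_add_distrib]
      refine sum_congr rfl fun i _ => ?_
      push_cast
      rw [add_smul]
  calc #(box v L + box v L) ≤ #(box v (2 * L)) := card_le_card hsub
    _ ≤ _ := card_image_le.trans (card_cube _ _).le

lemma box_T {k : ℕ} (u : Fin k → ℤ × ℤ) (hu : ∀ i, T (u i) ≠ 0) (L : ℕ) :
    ∃ B : ℤ, #((box (fun i : Fin k => B ^ (i : ℕ) • u i) L).image T) = L ^ k := by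
  classical
  set W : ℤ := ∑ i, |T (u i)| with hW
  have hW0 : 0 ≤ W := sum_nonneg fun i _ => abs_nonneg _
  refine ⟨L * W + 1, ?_⟩
  set B : ℤ := L * W + 1 with hB
  have hBpos : 0 < B := by positivity
  rw [box, image_image, card_image_of_injOn, card_cube]
  intro n hn m hm h
  rw [mem_coe, Fintype.mem_piFinset] at hn hm
  simp only [Function.comp, lin] at h
  rw [T_sum, T_sum] at h
  have hTs : ∀ i : Fin k, T (B ^ (i : ℕ) • u i) = B ^ (i : ℕ) * T (u i) := by
    intro i; unfold T; simp; ring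
  have h2 : ∑ i, (((n i : ℤ) - m i) * T (u i)) * B ^ (i : ℕ) = 0 := by
    rw [← sub_eq_zero, ← sum_sub_distrib] at h
    rw [← h]
    refine sum_congr rfl fun i _ => ?_
    rw [hTs]; ring
  have h3 := digits_zero hBpos _ ?_ h2
  · funext i
    have := (mul_eq_zero.mp (h3 i)).resolve_right (hu i)
    omega
  · intro i
    rw [abs_mul]
    have h4 : |T (u i)| ≤ W := single_le_sum (f := fun i => |T (u i)|) (fun _ _ => abs_nonneg _) (mem_univ i)
    have h5 : |(n i : ℤ) - m i| ≤ L := by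
      have h1 := mem_range.mp (hn i)
      have h2 := mem_range.mp (hm i)
      rw [abs_le]; constructor <;> omega
    calc |(n i : ℤ) - m i| * |T (u i)| ≤ L * W := by gcongr
      _ < B := by omega

/-- Sharpness. -/
lemma lower (S : Finset ℚ) (hS : (-1 : ℚ) ∉ S) (hne : S.Nonempty) (δ : ℝ) (hδ : 0 < δ) (n : ℕ) :
    ∃ A : Finset (ℤ × ℤ), n ≤ A.card ∧ ((A + A).card : ℝ) ≤ (A.card : ℝ) ^ (1 + δ) ∧
      (max ((A.image (fun p : ℤ × ℤ => (p.2 : ℚ))).card : ℝ)
            ((S.sup (fun r : ℚ =>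
                (A.image (fun p : ℤ × ℤ => (p.1 : ℚ) + r * (p.2 : ℚ))).card) : ℕ) : ℝ))
          ^ (1 + 1 / (S.card : ℝ)) ≤
      ((A.image (fun p : ℤ × ℤ => (p.1 : ℚ) + (-1) * (p.2 : ℚ))).card : ℝ) := by
  classical
  set s := #S with hs
  have hs1 : 0 < s := hne.card_pos
  have hs0 : (0 : ℝ) < s := by exact_mod_cast hs1
  set k := s + 1 with hk
  let I : Finset (Option ℚ) := insert none (S.map Function.Embedding.some)
  have hIcard : #I = k := by
    rw [card_insert_of_notMem (by simp), card_map]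
  let e : Fin k ≃ I := (finCongr hIcard.symm).trans I.equivFin.symm
  let o : Fin k → Option ℚ := fun i => (e i : Option ℚ)
  have ho : ∀ i r, o i = some r → r ≠ -1 := by
    intro i r h
    have h1 : o i ∈ I := (e i).2
    rw [h] at h1
    have : r ∈ S := by simpa [I] using h1
    rintro rfl
    exact hS this
  have hosurj : ∀ x ∈ I, ∃ i, o i = x := by
    intro x hx
    refine ⟨e.symm ⟨x, hx⟩, ?_⟩
    simp [o]
  obtain ⟨L, hL⟩ : ∃ L : ℕ, (2 : ℝ) ^ (1 / δ) + n + 1 ≤ L := exists_nat_ge _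
  have h2pos : (0 : ℝ) < 2 ^ (1 / δ) := by positivity
  have hnR : (0 : ℝ) ≤ n := Nat.cast_nonneg n
  have hL1 : (1 : ℝ) ≤ L := by linarith
  have hL0 : (0 : ℝ) < L := by linarith
  have hLpos : 0 < L := by exact_mod_cast hL0
  have hLn : n ≤ L := by
    have : (n : ℝ) ≤ L := by linarith
    exact_mod_cast this
  have hL2 : (2 : ℝ) ≤ (L : ℝ) ^ δ := by
    have h1 : (2 : ℝ) = ((2 : ℝ) ^ (1 / δ)) ^ δ := by
      rw [← Real.rpow_mul (by norm_num), one_div_mul_cancel hδ.ne', Real.rpow_one]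
    rw [h1]
    exact Real.rpow_le_rpow h2pos.le (by linarith) hδ.le
  obtain ⟨B, hB⟩ := box_T (fun i => ker (o i)) (fun i => T_ker (ho i)) L
  set A := box (fun i : Fin k => B ^ (i : ℕ) • ker (o i)) L with hA
  have hAcard : #A = L ^ k := by
    apply le_antisymm
    · exact card_image_le.trans (card_cube _ _).le
    · rw [← hB]; exact card_image_le
  have hproj : ∀ x ∈ I, #(A.image (projO x)) ≤ L ^ s := by
    intro x hx
    obtain ⟨i, rfl⟩ := hosurj x hx
    exact box_proj (fun i : Fin k => B ^ (i : ℕ) • ker (o i)) L i (o i)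
      (by rw [projO_smul, projO_ker, mul_zero])
  refine ⟨A, ?_, ?_, ?_⟩
  · rw [hAcard]
    exact hLn.trans (Nat.le_self_pow (by omega) L)
  · rw [hAcard]
    have h1 : ((#(A + A) : ℕ) : ℝ) ≤ ((2 * L : ℕ) : ℝ) ^ k := by
      exact_mod_cast box_add (fun i : Fin k => B ^ (i : ℕ) • ker (o i)) L
    refine h1.trans ?_
    push_cast
    rw [Real.rpow_add (by positivity), Real.rpow_one, mul_pow, mul_comm]
    have h2 : ((L : ℝ) ^ k) ^ δ = ((L : ℝ) ^ δ) ^ k := by
      rw [← Real.rpow_natCast, ← Real.rpow_natCast, ← Real.rpow_mul hL0.le, ← Real.rpow_mul hL0.le,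
        mul_comm]
    rw [h2]
    gcongr
  · rw [card_image_T, hB]
    have hmax : max ((A.image (fun p : ℤ × ℤ => (p.2 : ℚ))).card : ℝ)
            ((S.sup (fun r : ℚ =>
                (A.image (fun p : ℤ × ℤ => (p.1 : ℚ) + r * (p.2 : ℚ))).card) : ℕ) : ℝ) ≤
        (L : ℝ) ^ (s : ℝ) := by
      rw [Real.rpow_natCast]
      refine max_le ?_ ?_
      · exact_mod_cast hproj none (by simp [I])
      · have : S.sup (fun r : ℚ =>
                (A.image (fun p : ℤ × ℤ => (p.1 : ℚ) + r * (p.2 : ℚ))).card) ≤ L ^ s := by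
          refine Finset.sup_le fun r hr => ?_
          exact hproj (some r) (by simp [I, hr])
        exact_mod_cast this
    calc _ ≤ ((L : ℝ) ^ (s : ℝ)) ^ (1 + 1 / (s : ℝ)) := by
            refine Real.rpow_le_rpow (le_trans (Nat.cast_nonneg _) (le_max_left _ _)) hmax
              (by positivity)
      _ = (L : ℝ) ^ ((s : ℝ) * (1 + 1 / (s : ℝ))) := by rw [← Real.rpow_mul hL0.le]
      _ = (L : ℝ) ^ (k : ℝ) := by
          congr 1
          rw [hk]; push_cast; field_simp
      _ = _ := by rw [Real.rpow_natCast]; push_cast; rfl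

end Pool.Agent.H55.AK
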