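import Mathlib

/-!
Slopes of lacunary height are useless for the arithmetic Kakeya problem: construction.
-/

open Finset

namespace Pool.Agent.H55.Lac

/-- height of a rational number -/
def H (r : ℚ) : ℕ := max r.num.natAbs r.den

/-- polynomial expressions in `ρ` of degree `< D` with coefficients in `Q` -/
def Ext (D : ℕ) (Q : Finset ℚ) (ρ : ℚ) : Finset ℚ :=
  (Fintype.piFinset fun _ : Fin D => Q).image (fun q => ∑ e : Fin D, q e * ρ ^ (e : ℕ))

/-- the set `Q + c Q` -/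
def comb (c : ℚ) (Q : Finset ℚ) : Finset ℚ := (Q ×ˢ Q).image (fun z => z.1 + c * z.2)

lemma card_Ext_le (D : ℕ) (Q : Finset ℚ) (ρ : ℚ) : #(Ext D Q ρ) ≤ #Q ^ D := by
  refine card_image_le.trans ?_
  rw [Fintype.card_piFinset]; simp

lemma mem_comb {c : ℚ} {Q : Finset ℚ} {x : ℚ} :
    x ∈ comb c Q ↔ ∃ a ∈ Q, ∃ b ∈ Q, a + c * b = x := by
  unfold comb
  constructor
  · intro h
    obtain ⟨z, hz, rfl⟩ := mem_image.mp h
    rw [mem_product] at hz
    exact ⟨z.1, hz.1, z.2, hz.2, rfl⟩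
  · rintro ⟨a, ha, b, hb, rfl⟩
    exact mem_image.mpr ⟨(a, b), mem_product.mpr ⟨ha, hb⟩, rfl⟩

lemma mem_Ext {D : ℕ} {Q : Finset ℚ} {ρ x : ℚ} :
    x ∈ Ext D Q ρ ↔ ∃ q : Fin D → ℚ, (∀ e, q e ∈ Q) ∧ ∑ e : Fin D, q e * ρ ^ (e : ℕ) = x := by
  unfold Ext
  rw [mem_image]
  simp only [Fintype.mem_piFinset]

lemma comb_Ext (c : ℚ) (D : ℕ) (Q : Finset ℚ) (ρ : ℚ) :
    comb c (Ext D Q ρ) = Ext D (comb c Q) ρ := by
  ext x
  rw [mem_comb, mem_Ext]
  constructor
  · rintro ⟨a, ha, b, hb, rfl⟩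
    obtain ⟨q, hq, rfl⟩ := mem_Ext.mp ha
    obtain ⟨q', hq', rfl⟩ := mem_Ext.mp hb
    refine ⟨fun e => q e + c * q' e, fun e => mem_comb.mpr ⟨q e, hq e, q' e, hq' e, rfl⟩, ?_⟩
    rw [mul_sum, ← sum_add_distrib]
    exact sum_congr rfl fun e _ => by ring
  · rintro ⟨q, hq, rfl⟩
    have : ∀ e, ∃ a ∈ Q, ∃ b ∈ Q, a + c * b = q e := fun e => mem_comb.mp (hq e)
    choose a ha b hb hab using this
    refine ⟨_, mem_Ext.mpr ⟨a, ha, rfl⟩, _, mem_Ext.mpr ⟨b, hb, rfl⟩, ?_⟩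
    rw [mul_sum, ← sum_add_distrib]
    exact sum_congr rfl fun e _ => by rw [← hab e]; ring

lemma comb_Ext_self (D : ℕ) (Q : Finset ℚ) (hQ : (0 : ℚ) ∈ Q) (ρ : ℚ) :
    comb ρ (Ext D Q ρ) ⊆ Ext (D + 1) (comb 1 Q) ρ := by
  intro x hx
  obtain ⟨a, ha, b, hb, rfl⟩ := mem_comb.mp hx
  obtain ⟨q, hq, rfl⟩ := mem_Ext.mp ha
  obtain ⟨q', hq', rfl⟩ := mem_Ext.mp hb
  rw [mem_Ext]
  refine ⟨fun e => (Fin.snoc q 0 : Fin (D + 1) → ℚ) e + 1 * (Fin.cons 0 q' : Fin (D + 1) → ℚ) e,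
    fun e => mem_comb.mpr ⟨_, ?_, _, ?_, rfl⟩, ?_⟩
  · refine Fin.lastCases ?_ (fun i => ?_) e
    · rw [Fin.snoc_last]; exact hQ
    · rw [Fin.snoc_castSucc]; exact hq i
  · refine Fin.cases ?_ (fun i => ?_) e
    · rw [Fin.cons_zero]; exact hQ
    · rw [Fin.cons_succ]; exact hq' i
  · simp only [add_mul, one_mul, sum_add_distrib]
    congr 1
    · rw [Fin.sum_univ_castSucc]; simp
    · rw [Fin.sum_univ_succ, mul_sum]
      simp only [Fin.cons_zero, zero_mul, zero_add, Fin.cons_succ, Fin.val_succ]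
      exact sum_congr rfl fun e _ => by rw [pow_succ]; ring

/-- the iterated construction -/
def P (L D : ℕ) (ρ : ℕ → ℚ) : ℕ → Finset ℚ
  | 0 => (range L).image (fun n : ℕ => (n : ℚ))
  | j + 1 => Ext D (P L D ρ j) (ρ j)

lemma zero_mem_P {L D : ℕ} (hL : 0 < L) (ρ : ℕ → ℚ) (j : ℕ) : (0 : ℚ) ∈ P L D ρ j := by
  induction j with
  | zero => exact mem_image.mpr ⟨0, mem_range.mpr hL, by simp⟩
  | succ j ih => exact mem_Ext.mpr ⟨fun _ => 0, fun _ => ih, by simp⟩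

lemma card_P (L D : ℕ) (ρ : ℕ → ℚ) (j : ℕ) : #(P L D ρ j) ≤ L ^ (D ^ j) := by
  induction j with
  | zero => simpa [P] using (card_image_le (s := range L) (f := fun n : ℕ => (n : ℚ)))
  | succ j ih =>
    refine (card_Ext_le _ _ _).trans ?_
    rw [pow_succ, pow_mul]
    exact Nat.pow_le_pow_left ih D

lemma card_comb_one (L D : ℕ) (ρ : ℕ → ℚ) (j : ℕ) : #(comb 1 (P L D ρ j)) ≤ (2 * L) ^ (D ^ j) := by
  induction j with
  | zero =>
    have : comb 1 (P L D ρ 0) ⊆ (range (2 * L)).image (fun n : ℕ => (n : ℚ)) := by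
      intro x hx
      obtain ⟨a, ha, b, hb, rfl⟩ := mem_comb.mp hx
      obtain ⟨n, hn, rfl⟩ := mem_image.mp ha
      obtain ⟨m, hm, rfl⟩ := mem_image.mp hb
      rw [mem_range] at hn hm
      exact mem_image.mpr ⟨n + m, mem_range.mpr (by omega), by push_cast; ring⟩
    refine (card_le_card this).trans (card_image_le.trans ?_)
    simp
  | succ j ih =>
    have : comb 1 (P L D ρ (j + 1)) = Ext D (comb 1 (P L D ρ j)) (ρ j) := comb_Ext _ _ _ _
    rw [this]
    refine (card_Ext_le _ _ _).trans ?_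
    rw [pow_succ, pow_mul]
    exact Nat.pow_le_pow_left ih D

lemma card_comb_rho {L D : ℕ} (hL : 0 < L) (ρ : ℕ → ℚ) (i j : ℕ) :
    #(comb (ρ i) (P L D ρ (i + 1 + j))) ≤ (2 * L) ^ (D ^ (i + j) * (D + 1)) := by
  induction j with
  | zero =>
    have h : comb (ρ i) (P L D ρ (i + 1)) ⊆ Ext (D + 1) (comb 1 (P L D ρ i)) (ρ i) :=
      comb_Ext_self D _ (zero_mem_P hL ρ i) (ρ i)
    refine (card_le_card h).trans ((card_Ext_le _ _ _).trans ?_)
    rw [add_zero, pow_mul]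
    exact Nat.pow_le_pow_left (card_comb_one L D ρ i) (D + 1)
  | succ j ih =>
    have : comb (ρ i) (P L D ρ (i + 1 + (j + 1))) =
        Ext D (comb (ρ i) (P L D ρ (i + 1 + j))) (ρ (i + 1 + j)) := comb_Ext _ _ _ _
    rw [this]
    refine (card_Ext_le _ _ _).trans ?_
    have e : D ^ (i + (j + 1)) * (D + 1) = D ^ (i + j) * (D + 1) * D := by
      rw [← add_assoc, pow_succ]; ring
    rw [e, pow_mul]
    exact Nat.pow_le_pow_left ih D

/-- integer digits, low end -/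
lemma dig_low {a b : ℤ} (hab : IsCoprime a b) : ∀ {D : ℕ} (C : Fin D → ℤ),
    (∀ e, |C e| < |a|) → ∑ e : Fin D, C e * (a ^ (e : ℕ) * b ^ (D - 1 - (e : ℕ))) = 0 → ∀ e, C e = 0 := by
  intro D
  induction D with
  | zero => intro C _ _ e; exact e.elim0
  | succ D ih =>
    intro C hC h
    rw [Fin.sum_univ_succ] at h
    simp only [Fin.val_zero, pow_zero, one_mul, Nat.sub_zero, Fin.val_succ] at h
    have h1 : ∑ e : Fin D, C e.succ * (a ^ ((e : ℕ) + 1) * b ^ (D + 1 - 1 - ((e : ℕ) + 1))) =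
        a * ∑ e : Fin D, C e.succ * (a ^ (e : ℕ) * b ^ (D - 1 - (e : ℕ))) := by
      rw [mul_sum]
      refine sum_congr rfl fun e _ => ?_
      have : D + 1 - 1 - ((e : ℕ) + 1) = D - 1 - (e : ℕ) := by omega
      rw [this, pow_succ]; ring
    rw [h1] at h
    have h2 : a ∣ C 0 * b ^ (D + 1 - 1) :=
      ⟨-∑ e : Fin D, C e.succ * (a ^ (e : ℕ) * b ^ (D - 1 - (e : ℕ))), by linarith⟩
    have h3 : a ∣ C 0 := (hab.pow_right).dvd_of_dvd_mul_right h2
    have h4 : C 0 = 0 := Int.eq_zero_of_abs_lt_dvd ((abs_dvd _ _).mpr h3) (hC 0)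
    have ha : a ≠ 0 := by
      rintro rfl
      have := hC 0
      simp at this
      exact absurd this (not_lt.mpr (abs_nonneg _))
    rw [h4, zero_mul, zero_add] at h
    have h5 := (mul_eq_zero.mp h).resolve_left ha
    have h6 := ih (fun e => C e.succ) (fun e => hC e.succ) h5
    intro e
    exact Fin.cases h4 h6 e

lemma dig_high {a b : ℤ} (hab : IsCoprime a b) {D : ℕ} (C : Fin D → ℤ)
    (hC : ∀ e, |C e| < |b|) (h : ∑ e : Fin D, C e * (a ^ (e : ℕ) * b ^ (D - 1 - (e : ℕ))) = 0) :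
    ∀ e, C e = 0 := by
  have h1 : ∑ e : Fin D, C (Fin.rev e) * (b ^ (e : ℕ) * a ^ (D - 1 - (e : ℕ))) = 0 := by
    rw [← h, ← Equiv.sum_comp Fin.revPerm]
    refine sum_congr rfl fun e _ => ?_
    simp only [Fin.revPerm_apply, Fin.val_rev, Fin.rev_rev]
    have h1 : D - ((e : ℕ) + 1) = D - 1 - (e : ℕ) := by omega
    have h2 : D - 1 - (D - 1 - (e : ℕ)) = e := by omega
    rw [h1, h2]; ring
  have h2 := dig_low hab.symm (fun e => C (Fin.rev e)) (fun e => hC _) h1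
  intro e
  have := h2 (Fin.rev e)
  simpa using this

lemma rat_pow_mul (ρ : ℚ) {D e : ℕ} (he : e ≤ D) :
    ρ ^ e * (ρ.den : ℚ) ^ D = (ρ.num : ℚ) ^ e * (ρ.den : ℚ) ^ (D - e) := by
  have h : ρ * (ρ.den : ℚ) = ρ.num := Rat.mul_den_eq_num ρ
  obtain ⟨f, rfl⟩ := Nat.exists_eq_add_of_le he
  rw [Nat.add_sub_cancel_left, pow_add, ← mul_assoc, ← mul_pow, h]

lemma dig {ρ : ℚ} {D : ℕ} (C : Fin D → ℤ) (hC : ∀ e, |C e| < (H ρ : ℤ))
    (h : ∑ e : Fin D, (C e : ℚ) * ρ ^ (e : ℕ) = 0) : ∀ e, C e = 0 := by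
  have hcop : IsCoprime ρ.num (ρ.den : ℤ) := by
    rw [Int.isCoprime_iff_gcd_eq_one]
    simpa [Int.gcd] using ρ.reduced
  have h1 : ∑ e : Fin D, C e * (ρ.num ^ (e : ℕ) * (ρ.den : ℤ) ^ (D - 1 - (e : ℕ))) = 0 := by
    have h2 : ((∑ e : Fin D, C e * (ρ.num ^ (e : ℕ) * (ρ.den : ℤ) ^ (D - 1 - (e : ℕ))) : ℤ) : ℚ) =
        (∑ e : Fin D, (C e : ℚ) * ρ ^ (e : ℕ)) * (ρ.den : ℚ) ^ (D - 1) := by
      push_cast
      rw [sum_mul]
      refine sum_congr rfl fun e _ => ?_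
      rw [mul_assoc, rat_pow_mul ρ (show (e : ℕ) ≤ D - 1 by have := e.2; omega)]
    rw [h, zero_mul] at h2
    exact_mod_cast h2
  unfold H at hC
  rcases le_total ρ.num.natAbs ρ.den with hle | hle
  · refine dig_high hcop C (fun e => ?_) h1
    have := hC e
    rw [max_eq_right hle] at this
    simpa using this
  · refine dig_low hcop C (fun e => ?_) h1
    have := hC e
    rw [max_eq_left hle] at this
    simpa using this

/-- invariant: `T` is contained in `(1/Q) ℤ` and has `Q`-diameter less than `W` -/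
def Inv (T : Finset ℚ) (Q W : ℕ) : Prop :=
  0 < Q ∧ (∀ x ∈ T, ∃ z : ℤ, (Q : ℚ) * x = z) ∧ ∀ x ∈ T, ∀ y ∈ T, |(Q : ℚ) * (x - y)| < W

lemma Inv.card_Ext {T : Finset ℚ} {Q : ℕ} {ρ : ℚ} (h : Inv T Q (H ρ)) (D : ℕ) :
    #(Ext D T ρ) = #T ^ D := by
  unfold Ext
  rw [card_image_of_injOn, Fintype.card_piFinset]
  · simp
  · intro q hq q' hq' heq
    rw [mem_coe, Fintype.mem_piFinset] at hq hq'
    simp only at heq
    obtain ⟨hQ, hint, hbd⟩ := h
    have hQ0 : (Q : ℚ) ≠ 0 := by exact_mod_cast hQ.ne'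
    have hz : ∀ e, ∃ z : ℤ, (Q : ℚ) * (q e - q' e) = z := by
      intro e
      obtain ⟨z, hz⟩ := hint _ (hq e)
      obtain ⟨z', hz'⟩ := hint _ (hq' e)
      exact ⟨z - z', by rw [mul_sub, hz, hz']; push_cast; ring⟩
    choose C hC using hz
    have h1 : ∀ e, C e = 0 := by
      refine dig (ρ := ρ) C (fun e => ?_) ?_
      · have := hbd _ (hq e) _ (hq' e)
        rw [hC e] at this
        exact_mod_cast this
      · have : ∑ e : Fin D, (C e : ℚ) * ρ ^ (e : ℕ) =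
            (Q : ℚ) * (∑ e : Fin D, q e * ρ ^ (e : ℕ) - ∑ e : Fin D, q' e * ρ ^ (e : ℕ)) := by
          rw [← sum_sub_distrib, mul_sum]
          refine sum_congr rfl fun e _ => ?_
          rw [← hC e]; ring
        rw [this, heq, sub_self, mul_zero]
    funext e
    have h2 := hC e
    rw [h1 e, Int.cast_zero] at h2
    exact sub_eq_zero.mp ((mul_eq_zero.mp h2).resolve_left hQ0)

lemma Inv.ext {T : Finset ℚ} {Q : ℕ} {ρ : ℚ} (h : Inv T Q (H ρ)) {D : ℕ} (hD : 0 < D) :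
    Inv (Ext D T ρ) (Q * ρ.den ^ (D - 1)) (D * H ρ ^ D) := by
  obtain ⟨hQ, hint, hbd⟩ := h
  have hden : 0 < ρ.den := ρ.den_pos
  refine ⟨by positivity, ?_, ?_⟩
  · intro x hx
    obtain ⟨q, hq, rfl⟩ := mem_Ext.mp hx
    have : ∀ e, ∃ z : ℤ, (Q : ℚ) * q e = z := fun e => hint _ (hq e)
    choose C hC using this
    refine ⟨∑ e, C e * (ρ.num ^ (e : ℕ) * (ρ.den : ℤ) ^ (D - 1 - (e : ℕ))), ?_⟩
    push_cast
    rw [mul_sum]
    refine sum_congr rfl fun e _ => ?_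
    rw [← hC e, ← rat_pow_mul ρ (show (e : ℕ) ≤ D - 1 by have := e.2; omega)]
    ring
  · intro x hx y hy
    obtain ⟨q, hq, rfl⟩ := mem_Ext.mp hx
    obtain ⟨q', hq', rfl⟩ := mem_Ext.mp hy
    have e1 : ((Q * ρ.den ^ (D - 1) : ℕ) : ℚ) *
        (∑ e : Fin D, q e * ρ ^ (e : ℕ) - ∑ e : Fin D, q' e * ρ ^ (e : ℕ)) =
        ∑ e : Fin D, ((Q : ℚ) * (q e - q' e)) *
          ((ρ.num : ℚ) ^ (e : ℕ) * (ρ.den : ℚ) ^ (D - 1 - (e : ℕ))) := by
      rw [← sum_sub_distrib, mul_sum]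
      refine sum_congr rfl fun e _ => ?_
      rw [← rat_pow_mul ρ (show (e : ℕ) ≤ D - 1 by have := e.2; omega)]
      push_cast
      ring
    rw [e1]
    have hH : (1 : ℚ) ≤ H ρ := by
      have : 1 ≤ H ρ := le_trans hden (le_max_right _ _)
      exact_mod_cast this
    have hnum : |(ρ.num : ℚ)| ≤ H ρ := by
      have h1 : ρ.num.natAbs ≤ H ρ := le_max_left _ _
      have h2 : |(ρ.num : ℚ)| = (ρ.num.natAbs : ℚ) := by
        rw [← Int.cast_abs, Int.abs_eq_natAbs]; rfl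
      rw [h2]
      exact_mod_cast h1
    have hdenle : (ρ.den : ℚ) ≤ H ρ := by
      have : ρ.den ≤ H ρ := le_max_right _ _
      exact_mod_cast this
    have hterm : ∀ e ∈ (univ : Finset (Fin D)),
        |((Q : ℚ) * (q e - q' e)) * ((ρ.num : ℚ) ^ (e : ℕ) * (ρ.den : ℚ) ^ (D - 1 - (e : ℕ)))| <
          (H ρ : ℚ) ^ D := by
      intro e _
      have h1 := hbd _ (hq e) _ (hq' e)
      have h2 : |(ρ.num : ℚ) ^ (e : ℕ) * (ρ.den : ℚ) ^ (D - 1 - (e : ℕ))| ≤ (H ρ : ℚ) ^ (D - 1) := by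
        rw [abs_mul, abs_pow, abs_pow, abs_of_pos (by exact_mod_cast hden : (0 : ℚ) < ρ.den)]
        calc |(ρ.num : ℚ)| ^ (e : ℕ) * (ρ.den : ℚ) ^ (D - 1 - (e : ℕ))
            ≤ (H ρ : ℚ) ^ (e : ℕ) * (H ρ : ℚ) ^ (D - 1 - (e : ℕ)) := by gcongr
          _ = (H ρ : ℚ) ^ (D - 1) := by
            rw [← pow_add]; congr 1; have := e.2; omega
      rw [abs_mul]
      have h3 : (H ρ : ℚ) ^ D = (H ρ : ℚ) * (H ρ : ℚ) ^ (D - 1) := by
        rw [← pow_succ']; congr 1; omega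
      rw [h3]
      have h4 : (0 : ℚ) < (H ρ : ℚ) ^ (D - 1) := by positivity
      calc _ ≤ |(Q : ℚ) * (q e - q' e)| * (H ρ : ℚ) ^ (D - 1) := by gcongr
        _ < _ := by exact mul_lt_mul_of_pos_right h1 h4
    calc _ ≤ ∑ e : Fin D, |((Q : ℚ) * (q e - q' e)) *
          ((ρ.num : ℚ) ^ (e : ℕ) * (ρ.den : ℚ) ^ (D - 1 - (e : ℕ)))| := abs_sum_le_sum_abs _ _
      _ < ∑ _e : Fin D, (H ρ : ℚ) ^ D := by
          refine sum_lt_sum_of_nonempty ⟨⟨0, hD⟩, mem_univ _⟩ hterm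
      _ = _ := by simp

lemma Inv.mono {T : Finset ℚ} {Q W W' : ℕ} (h : Inv T Q W) (hW : W ≤ W') : Inv T Q W' := by
  refine ⟨h.1, h.2.1, fun x hx y hy => (h.2.2 x hx y hy).trans_le ?_⟩
  exact_mod_cast hW

/-- base case -/
lemma base {μ : ℚ} (hL : 2 ≤ H μ) (D : ℕ) (ρ : ℕ → ℚ) :
    Inv (comb (-μ) (P (H μ) D ρ 0)) μ.den (2 * H μ ^ 2) ∧
      #(comb (-μ) (P (H μ) D ρ 0)) = H μ ^ 2 := by
  have hden : 0 < μ.den := μ.den_pos
  have hden0 : (μ.den : ℚ) ≠ 0 := by exact_mod_cast hden.ne'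
  have hmul : μ * (μ.den : ℚ) = μ.num := Rat.mul_den_eq_num μ
  have hnum : |(μ.num : ℚ)| ≤ H μ := by
    have h1 : μ.num.natAbs ≤ H μ := le_max_left _ _
    have h2 : |(μ.num : ℚ)| = (μ.num.natAbs : ℚ) := by
      rw [← Int.cast_abs, Int.abs_eq_natAbs]; rfl
    rw [h2]
    exact_mod_cast h1
  have hdenle : (μ.den : ℚ) ≤ H μ := by
    have : μ.den ≤ H μ := le_max_right _ _
    exact_mod_cast this
  refine ⟨⟨hden, ?_, ?_⟩, ?_⟩
  · intro x hx
    obtain ⟨a, ha, b, hb, rfl⟩ := mem_comb.mp hx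
    obtain ⟨n, hn, rfl⟩ := mem_image.mp ha
    obtain ⟨m, hm, rfl⟩ := mem_image.mp hb
    refine ⟨μ.den * n - μ.num * m, ?_⟩
    push_cast
    rw [← hmul]; ring
  · intro x hx y hy
    obtain ⟨a, ha, b, hb, rfl⟩ := mem_comb.mp hx
    obtain ⟨n, hn, rfl⟩ := mem_image.mp ha
    obtain ⟨m, hm, rfl⟩ := mem_image.mp hb
    obtain ⟨a, ha, b, hb, rfl⟩ := mem_comb.mp hy
    obtain ⟨n', hn', rfl⟩ := mem_image.mp ha
    obtain ⟨m', hm', rfl⟩ := mem_image.mp hb
    rw [mem_range] at hn hm hn' hm'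
    have e : (μ.den : ℚ) * ((n : ℚ) + -μ * m - ((n' : ℚ) + -μ * m')) =
        (μ.den : ℚ) * ((n : ℚ) - n') - (μ.num : ℚ) * ((m : ℚ) - m') := by
      rw [← hmul]; ring
    rw [e]
    have hd : ∀ a b : ℕ, a < H μ → b < H μ → |(a : ℚ) - b| < H μ := by
      intro a b ha hb
      have ha' : (a : ℚ) < H μ := by exact_mod_cast ha
      have hb' : (b : ℚ) < H μ := by exact_mod_cast hb
      have ha0 : (0 : ℚ) ≤ a := Nat.cast_nonneg a
      have hb0 : (0 : ℚ) ≤ b := Nat.cast_nonneg b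
      rw [abs_lt]; constructor <;> linarith
    have h1 := hd n n' hn hn'
    have h2 := hd m m' hm hm'
    have hden' : (0 : ℚ) < μ.den := by exact_mod_cast hden
    have h3 : |(μ.den : ℚ) * ((n : ℚ) - n')| < H μ ^ 2 := by
      rw [abs_mul, abs_of_pos hden', sq]
      have : |(n : ℚ) - n'| ≥ 0 := abs_nonneg _
      nlinarith
    have h4 : |(μ.num : ℚ) * ((m : ℚ) - m')| ≤ H μ ^ 2 := by
      rw [abs_mul, sq]
      have : |(m : ℚ) - m'| ≥ 0 := abs_nonneg _
      have : |(μ.num : ℚ)| ≥ 0 := abs_nonneg _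
      nlinarith
    calc _ ≤ |(μ.den : ℚ) * ((n : ℚ) - n')| + |(μ.num : ℚ) * ((m : ℚ) - m')| := abs_sub _ _
      _ < H μ ^ 2 + H μ ^ 2 := by linarith
      _ = _ := by push_cast; ring
  · unfold comb
    rw [card_image_of_injOn, card_product]
    · have : #(P (H μ) D ρ 0) = H μ := by
        unfold P
        rw [card_image_of_injective _ Nat.cast_injective, card_range]
      rw [this]; ring
    · rintro ⟨x, y⟩ hxy ⟨x', y'⟩ hxy' heq
      rw [mem_coe, mem_product] at hxy hxy'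
      obtain ⟨n, hn, hnx⟩ := mem_image.mp hxy.1
      obtain ⟨m, hm, hmy⟩ := mem_image.mp hxy.2
      obtain ⟨n', hn', hnx'⟩ := mem_image.mp hxy'.1
      obtain ⟨m', hm', hmy'⟩ := mem_image.mp hxy'.2
      simp only at hnx hmy hnx' hmy' heq
      subst hnx hmy hnx' hmy'
      rw [mem_range] at hn hm hn' hm'
      have e : (μ.den : ℤ) * ((n : ℤ) - n') = μ.num * ((m : ℤ) - m') := by
        have : (μ.den : ℚ) * ((n : ℚ) - n') = (μ.num : ℚ) * ((m : ℚ) - m') := by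
          rw [← hmul]; linear_combination (μ.den : ℚ) * heq
        exact_mod_cast this
      have hcop : IsCoprime μ.num (μ.den : ℤ) := by
        rw [Int.isCoprime_iff_gcd_eq_one]
        simpa [Int.gcd] using μ.reduced
      have hd : ∀ a b : ℕ, a < H μ → b < H μ → |(a : ℤ) - b| < (H μ : ℤ) := by
        intro a b ha hb
        rw [abs_lt]; constructor <;> omega
      have h1 : μ.num ∣ (n : ℤ) - n' := by
        apply hcop.dvd_of_dvd_mul_left
        exact ⟨_, e⟩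
      have h2 : (μ.den : ℤ) ∣ (m : ℤ) - m' := by
        apply hcop.symm.dvd_of_dvd_mul_left
        exact ⟨_, e.symm⟩
      have hboth : (n : ℤ) - n' = 0 ∧ (m : ℤ) - m' = 0 := by
        rcases le_total μ.num.natAbs μ.den with hle | hle
        · have hH : H μ = μ.den := max_eq_right hle
          have h3 : (m : ℤ) - m' = 0 := Int.eq_zero_of_abs_lt_dvd h2 (by
            have := hd m m' hm hm'
            rw [hH] at this; exact this)
          rw [h3, mul_zero] at e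
          refine ⟨(mul_eq_zero.mp e).resolve_left (by exact_mod_cast hden.ne'), h3⟩
        · have hH : H μ = μ.num.natAbs := max_eq_left hle
          have hnz : μ.num ≠ 0 := by
            intro h0
            rw [h0] at hH
            simp at hH; omega
          have h3 : (n : ℤ) - n' = 0 := by
            have h4 := hd n n' hn hn'
            rw [hH] at h4
            rw [Int.natCast_natAbs] at h4
            exact Int.eq_zero_of_abs_lt_dvd ((abs_dvd _ _).mpr h1) h4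
          rw [h3, mul_zero] at e
          refine ⟨h3, (mul_eq_zero.mp e.symm).resolve_left hnz⟩
      have h5 : n = n' := by omega
      have h6 : m = m' := by omega
      rw [h5, h6]

/-- all levels -/
lemma level {μ : ℚ} (hL : 2 ≤ H μ) {D : ℕ} (hD : 0 < D) (ρ : ℕ → ℚ)
    (h0 : 2 * H μ ^ 2 ≤ H (ρ 0)) (hs : ∀ j, D * H (ρ j) ^ D ≤ H (ρ (j + 1))) (j : ℕ) :
    (∃ Q, Inv (comb (-μ) (P (H μ) D ρ j)) Q (H (ρ j))) ∧
      #(comb (-μ) (P (H μ) D ρ j)) = H μ ^ (2 * D ^ j) := by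
  induction j with
  | zero =>
    obtain ⟨h1, h2⟩ := base hL D ρ
    exact ⟨⟨_, h1.mono h0⟩, by rw [h2]; simp⟩
  | succ j ih =>
    obtain ⟨⟨Q, hQ⟩, hc⟩ := ih
    have e : comb (-μ) (P (H μ) D ρ (j + 1)) = Ext D (comb (-μ) (P (H μ) D ρ j)) (ρ j) :=
      comb_Ext _ _ _ _
    rw [e]
    refine ⟨⟨_, (hQ.ext hD).mono (hs j)⟩, ?_⟩
    rw [hQ.card_Ext, hc, ← pow_mul, pow_succ]
    ring_nf

/-! ### heights -/

lemma H_pos (x : ℚ) : 0 < H x := lt_of_lt_of_le x.den_pos (le_max_right _ _)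

lemma H_le {x : ℚ} {a : ℤ} {b : ℕ} (hb : b ≠ 0) (h : x * b = a) {W : ℕ} (ha : a.natAbs ≤ W)
    (hb' : b ≤ W) : H x ≤ W := by
  have hbq : (b : ℚ) ≠ 0 := by exact_mod_cast hb
  have hmul : x * (x.den : ℚ) = x.num := Rat.mul_den_eq_num x
  have e : x.num * (b : ℤ) = a * x.den := by
    have : (x.num : ℚ) * b = a * x.den := by rw [← h, ← hmul]; ring
    exact_mod_cast this
  have hcop : IsCoprime x.num (x.den : ℤ) := by
    rw [Int.isCoprime_iff_gcd_eq_one]
    simpa [Int.gcd] using x.reduced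
  have h1 : (x.den : ℤ) ∣ (b : ℤ) := hcop.symm.dvd_of_dvd_mul_left ⟨a, by rw [e]; ring⟩
  have h2 : x.num ∣ a := hcop.dvd_of_dvd_mul_right ⟨b, by rw [e]⟩
  refine max_le ?_ ?_
  · rcases eq_or_ne a 0 with h0 | h0
    · have : x.num = 0 := by
        rw [h0, zero_mul] at e
        exact (mul_eq_zero.mp e).resolve_right (by exact_mod_cast hb)
      rw [this]; simp
    · exact (Nat.le_of_dvd (Int.natAbs_pos.mpr h0) (Int.natAbs_dvd_natAbs.mpr h2)).trans ha
  · exact (Nat.le_of_dvd (Nat.pos_of_ne_zero hb) (Int.natCast_dvd_natCast.mp h1)).trans hb'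

lemma H_add_le (x y : ℚ) : H (x + y) ≤ 2 * H x * H y := by
  have hx : x * (x.den : ℚ) = x.num := Rat.mul_den_eq_num x
  have hy : y * (y.den : ℚ) = y.num := Rat.mul_den_eq_num y
  have hx1 : x.num.natAbs ≤ H x := le_max_left _ _
  have hx2 : x.den ≤ H x := le_max_right _ _
  have hy1 : y.num.natAbs ≤ H y := le_max_left _ _
  have hy2 : y.den ≤ H y := le_max_right _ _
  refine H_le (a := x.num * y.den + y.num * x.den) (b := x.den * y.den)
    (mul_ne_zero x.den_nz y.den_nz) ?_ ?_ ?_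
  · push_cast
    rw [← hx, ← hy]; ring
  · calc (x.num * y.den + y.num * x.den).natAbs
        ≤ (x.num * y.den).natAbs + (y.num * x.den).natAbs := Int.natAbs_add_le _ _
      _ = x.num.natAbs * y.den + y.num.natAbs * x.den := by
          rw [Int.natAbs_mul, Int.natAbs_mul]; simp
      _ ≤ H x * H y + H y * H x := by gcongr
      _ = _ := by ring
  · calc x.den * y.den ≤ H x * H y := Nat.mul_le_mul hx2 hy2
      _ ≤ _ := by nlinarith [Nat.zero_le (H x * H y)]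

lemma H_neg (x : ℚ) : H (-x) = H x := by
  unfold H; simp

lemma H_sub_le (x y : ℚ) : H (x - y) ≤ 2 * H x * H y := by
  rw [sub_eq_add_neg, ← H_neg y]; exact H_add_le _ _

/-- passing from lacunary `r` to the hypotheses of `level` -/
lemma heights {D : ℕ} (hD : 0 < D) (r : ℕ → ℚ) (h0 : 8 * 4 ^ D + 3 * D + 7 ≤ H (r 0))
    (hs : ∀ j, H (r j) ^ (8 * 4 ^ D + 3 * D + 7) ≤ H (r (j + 1))) :
    4 ^ D < H (r 0 + 1) ∧ 2 ≤ H (r 0 + 1) ∧ 2 * H (r 0 + 1) ^ 2 ≤ H (r 1 - r 0) ∧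
      ∀ j, D * H (r (j + 1) - r 0) ^ D ≤ H (r (j + 1 + 1) - r 0) := by
  set D' := 8 * 4 ^ D + 3 * D + 7 with hD'
  have h4 : 0 < 4 ^ D := by positivity
  have hone : H 1 = 1 := by unfold H; simp
  have hmu1 : H (r 0 + 1) ≤ 2 * H (r 0) := by
    have := H_add_le (r 0) 1
    rw [hone] at this; omega
  have hmu2 : H (r 0) ≤ 2 * H (r 0 + 1) := by
    have := H_sub_le (r 0 + 1) 1
    rw [hone] at this
    simpa using this
  have hmono : ∀ j, H (r 0) ≤ H (r j) := by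
    intro j
    induction j with
    | zero => exact le_rfl
    | succ j ih =>
      refine ih.trans ((Nat.le_self_pow (by omega) _).trans (hs j))
  have hrho1 : ∀ j, H (r (j + 1) - r 0) ≤ 2 * H (r (j + 1)) * H (r 0) := fun j => H_sub_le _ _
  have hrho2 : ∀ j, H (r (j + 1)) ≤ 2 * H (r (j + 1) - r 0) * H (r 0) := by
    intro j
    have := H_add_le (r (j + 1) - r 0) (r 0)
    simpa using this
  have hh0 : 2 ≤ H (r 0) := by omega
  refine ⟨by omega, by omega, ?_, ?_⟩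
  · have h1 := hrho2 0
    have h2 := hs 0
    have h3 : H (r 0) ^ 7 ≤ H (r 0) ^ D' := Nat.pow_le_pow_right (by omega) (by omega)
    have h5 : 16 * H (r 0) ^ 3 ≤ H (r 0) ^ 7 := by
      have : 2 ^ 4 ≤ H (r 0) ^ 4 := Nat.pow_le_pow_left hh0 4
      calc 16 * H (r 0) ^ 3 ≤ H (r 0) ^ 4 * H (r 0) ^ 3 := Nat.mul_le_mul_right _ this
        _ = _ := by rw [← pow_add]
    have h6 : (2 * H (r 0)) * (8 * H (r 0) ^ 2) ≤ (2 * H (r 0)) * H (r 1 - r 0) := by
      calc (2 * H (r 0)) * (8 * H (r 0) ^ 2) = 16 * H (r 0) ^ 3 := by ring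
        _ ≤ H (r 1) := h5.trans (h3.trans h2)
        _ ≤ 2 * H (r 1 - r 0) * H (r 0) := h1
        _ = _ := by ring
    have h7 : 8 * H (r 0) ^ 2 ≤ H (r 1 - r 0) := Nat.le_of_mul_le_mul_left h6 (by omega)
    refine le_trans ?_ h7
    calc 2 * H (r 0 + 1) ^ 2 ≤ 2 * (2 * H (r 0)) ^ 2 := by gcongr
      _ = _ := by ring
  · intro j
    set h := H (r (j + 1)) with hh
    have hh2 : H (r 0) ≤ h := hmono _
    have h1 := hrho1 j
    have h2 := hrho2 (j + 1)
    have h3 := hs (j + 1)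
    rw [← hh] at h3 h1
    have h4' : 2 * h * H (r 0) ≤ h ^ 3 := by
      calc 2 * h * H (r 0) ≤ h * h * h := by gcongr; omega
        _ = _ := by ring
    have h5 : D ≤ h := by omega
    have h6 : (2 * H (r 0)) * (D * H (r (j + 1) - r 0) ^ D) ≤
        (2 * H (r 0)) * H (r (j + 1 + 1) - r 0) := by
      calc (2 * H (r 0)) * (D * H (r (j + 1) - r 0) ^ D)
          ≤ (h * h) * (h * (h ^ 3) ^ D) := by
            gcongr
            · omega
            · exact h1.trans h4'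
        _ = h ^ (3 * D + 3) := by rw [← pow_mul]; ring
        _ ≤ h ^ D' := Nat.pow_le_pow_right (by omega) (by omega)
        _ ≤ H (r (j + 1 + 1)) := h3
        _ ≤ 2 * H (r (j + 1 + 1) - r 0) * H (r 0) := h2
        _ = _ := by ring
    exact Nat.le_of_mul_le_mul_left h6 (by omega)

/-! ### clearing denominators -/

lemma clear (A' : Finset (ℚ × ℚ)) : ∃ A : Finset (ℤ × ℤ),
    (A.image fun p => (p.2 : ℚ)).card = (A'.image fun p => p.2).card ∧
    ∀ c : ℚ, (A.image fun p => (p.1 : ℚ) + c * (p.2 : ℚ)).card =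
      (A'.image fun p => p.1 + c * p.2).card := by
  classical
  set Z : ℕ := ∏ p ∈ A', p.1.den * p.2.den with hZ
  have hZ0 : (Z : ℚ) ≠ 0 := by
    have : Z ≠ 0 := prod_ne_zero_iff.mpr fun p _ => mul_ne_zero p.1.den_nz p.2.den_nz
    exact_mod_cast this
  have hint : ∀ p ∈ A', ((((Z : ℚ) * p.1).num : ℤ) : ℚ) = Z * p.1 ∧
      ((((Z : ℚ) * p.2).num : ℤ) : ℚ) = Z * p.2 := by
    intro p hp
    obtain ⟨c, hc⟩ : p.1.den * p.2.den ∣ Z := dvd_prod_of_mem _ hp
    have h1 : p.1 * (p.1.den : ℚ) = p.1.num := Rat.mul_den_eq_num p.1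
    have h2 : p.2 * (p.2.den : ℚ) = p.2.num := Rat.mul_den_eq_num p.2
    constructor
    · have : (Z : ℚ) * p.1 = ((p.2.den * c * p.1.num : ℤ) : ℚ) := by
        rw [hc]; push_cast; rw [← h1]; ring
      rw [this, Rat.num_intCast]
    · have : (Z : ℚ) * p.2 = ((p.1.den * c * p.2.num : ℤ) : ℚ) := by
        rw [hc]; push_cast; rw [← h2]; ring
      rw [this, Rat.num_intCast]
  refine ⟨A'.image fun p => (((Z : ℚ) * p.1).num, ((Z : ℚ) * p.2).num), ?_, ?_⟩
  · rw [image_image]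
    have : A'.image ((fun p : ℤ × ℤ => (p.2 : ℚ)) ∘ fun p : ℚ × ℚ =>
        (((Z : ℚ) * p.1).num, ((Z : ℚ) * p.2).num)) =
        (A'.image fun p => p.2).image (fun x => (Z : ℚ) * x) := by
      rw [image_image]
      refine image_congr fun p hp => ?_
      exact (hint p hp).2
    rw [this]
    exact card_image_of_injective _ (mul_right_injective₀ hZ0)
  · intro c
    rw [image_image]
    have : A'.image ((fun p : ℤ × ℤ => (p.1 : ℚ) + c * (p.2 : ℚ)) ∘ fun p : ℚ × ℚ =>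
        (((Z : ℚ) * p.1).num, ((Z : ℚ) * p.2).num)) =
        (A'.image fun p => p.1 + c * p.2).image (fun x => (Z : ℚ) * x) := by
      rw [image_image]
      refine image_congr fun p hp => ?_
      simp only [Function.comp]
      rw [(hint p hp).1, (hint p hp).2]; ring
    rw [this]
    exact card_image_of_injective _ (mul_right_injective₀ hZ0)

/-- the numerical inequality -/
lemma numeric {δ : ℝ} (hδ : 0 < δ) (hδ1 : δ ≤ 1) {D L : ℕ} (hD : 3 / δ ≤ D) (hL : 4 ^ D < L)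
    (n : ℕ) {N : ℝ} (hN0 : 0 ≤ N) (hN : N ≤ (2 * L : ℝ) ^ (D ^ n * (D + 1))) :
    N ^ (2 - δ) < (L : ℝ) ^ (2 * D ^ (n + 1)) := by
  have hDpos : 0 < D := by
    have h1 : 0 < 3 / δ := by positivity
    have : (0 : ℝ) < D := by linarith
    exact_mod_cast this
  have hL1 : (1 : ℝ) ≤ L := by
    have : 1 ≤ L := by have : 0 < 4 ^ D := by positivity
                       omega
    exact_mod_cast this
  have hL0 : (0 : ℝ) < L := by linarith
  have h2L : (1 : ℝ) ≤ 2 * L := by linarith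
  have key : (2 * L : ℝ) ^ (((D : ℝ) + 1) * (2 - δ)) < (L : ℝ) ^ (2 * D) := by
    have h1 : ((D : ℝ) + 1) * (2 - δ) ≤ ((2 * D - 1 : ℕ) : ℝ) := by
      have h3 : 3 ≤ δ * D := by
        rw [div_le_iff₀ hδ] at hD; linarith
      have h4 : ((2 * D - 1 : ℕ) : ℝ) = 2 * D - 1 := by
        rw [Nat.cast_sub (by omega)]; push_cast; ring
      rw [h4]; nlinarith
    calc (2 * L : ℝ) ^ (((D : ℝ) + 1) * (2 - δ)) ≤ (2 * L : ℝ) ^ ((2 * D - 1 : ℕ) : ℝ) :=
          Real.rpow_le_rpow_of_exponent_le h2L h1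
      _ = 2 ^ (2 * D - 1) * (L : ℝ) ^ (2 * D - 1) := by rw [Real.rpow_natCast, mul_pow]
      _ < L * (L : ℝ) ^ (2 * D - 1) := by
          have h5 : (2 : ℝ) ^ (2 * D - 1) < L := by
            have h6 : 2 ^ (2 * D - 1) ≤ 4 ^ D := by
              rw [show (4 : ℕ) = 2 ^ 2 by norm_num, ← pow_mul]
              exact Nat.pow_le_pow_right (by norm_num) (by omega)
            have : 2 ^ (2 * D - 1) < L := by omega
            exact_mod_cast this
          have : (0 : ℝ) < (L : ℝ) ^ (2 * D - 1) := by positivity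
          exact mul_lt_mul_of_pos_right h5 this
      _ = (L : ℝ) ^ (2 * D) := by rw [← pow_succ']; congr 1; omega
  have hpos : 0 < D ^ n := by positivity
  calc N ^ (2 - δ) ≤ ((2 * L : ℝ) ^ (D ^ n * (D + 1))) ^ (2 - δ) :=
        Real.rpow_le_rpow hN0 hN (by linarith)
    _ = ((2 * L : ℝ) ^ (((D : ℝ) + 1) * (2 - δ))) ^ (D ^ n) := by
        rw [← Real.rpow_natCast, ← Real.rpow_natCast, ← Real.rpow_mul (by positivity),
          ← Real.rpow_mul (by positivity)]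
        congr 1
        push_cast; ring
    _ < ((L : ℝ) ^ (2 * D)) ^ (D ^ n) := by
        exact pow_lt_pow_left₀ key (by positivity) hpos.ne'
    _ = (L : ℝ) ^ (2 * D ^ (n + 1)) := by rw [← pow_mul]; congr 1; rw [pow_succ]; ring

/-- main construction -/
lemma construct {D : ℕ} (hD : 0 < D) (r : ℕ → ℚ) (h0 : 8 * 4 ^ D + 3 * D + 7 ≤ H (r 0))
    (hs : ∀ j, H (r j) ^ (8 * 4 ^ D + 3 * D + 7) ≤ H (r (j + 1))) (n : ℕ) :
    ∃ L : ℕ, 4 ^ D < L ∧ ∃ A : Finset (ℤ × ℤ),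
      (A.image fun p : ℤ × ℤ => (p.2 : ℚ)).card ≤ (2 * L) ^ (D ^ n * (D + 1)) ∧
      (∀ i ≤ n + 1, (A.image fun p : ℤ × ℤ => (p.1 : ℚ) + r i * (p.2 : ℚ)).card ≤
        (2 * L) ^ (D ^ n * (D + 1))) ∧
      (A.image fun p : ℤ × ℤ => (p.1 : ℚ) + (-1) * (p.2 : ℚ)).card = L ^ (2 * D ^ (n + 1)) := by
  classical
  obtain ⟨hL4, hL2, hb0, hbs⟩ := heights hD r h0 hs
  set μ := r 0 + 1 with hμ
  set L := H μ with hL
  set ρ : ℕ → ℚ := fun j => r (j + 1) - r 0 with hρ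
  have hLpos : 0 < L := by omega
  obtain ⟨_, hcard⟩ := level hL2 hD ρ hb0 hbs (n + 1)
  rw [← hL] at hcard
  set Pn := P L D ρ (n + 1) with hPn
  obtain ⟨A, hA1, hA2⟩ := clear ((Pn ×ˢ Pn).image fun z => (z.1 - r 0 * z.2, z.2))
  have hPle : #Pn ≤ (2 * L) ^ (D ^ n * (D + 1)) := by
    refine (card_P L D ρ (n + 1)).trans ?_
    calc L ^ D ^ (n + 1) ≤ (2 * L) ^ D ^ (n + 1) := Nat.pow_le_pow_left (by omega) _
      _ ≤ _ := Nat.pow_le_pow_right (by omega) (by rw [pow_succ]; gcongr; omega)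
  refine ⟨L, hL4, A, ?_, ?_, ?_⟩
  · rw [hA1, image_image]
    refine le_trans (card_le_card ?_) hPle
    intro x hx
    obtain ⟨z, hz, rfl⟩ := mem_image.mp hx
    exact (mem_product.mp hz).2
  · intro i hi
    rw [hA2, image_image]
    rcases i with _ | i
    · refine le_trans (card_le_card ?_) hPle
      intro x hx
      obtain ⟨z, hz, rfl⟩ := mem_image.mp hx
      simp only [Function.comp]
      rw [sub_add_cancel]
      exact (mem_product.mp hz).1
    · have h1 := card_comb_rho (D := D) hLpos ρ i (n - i)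
      have e1 : i + 1 + (n - i) = n + 1 := by omega
      have e2 : i + (n - i) = n := by omega
      rw [e1, e2] at h1
      refine le_trans (card_le_card ?_) h1
      intro x hx
      obtain ⟨z, hz, rfl⟩ := mem_image.mp hx
      rw [mem_product] at hz
      refine mem_comb.mpr ⟨z.1, hz.1, z.2, hz.2, ?_⟩
      simp only [hρ, Function.comp]
      ring
  · rw [hA2, image_image, ← hcard]
    congr 1
    unfold comb
    refine image_congr fun z _ => ?_
    simp only [Function.comp, hμ]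
    ring

/-- final form -/
lemma lacunary (δ : ℝ) (hδ : 0 < δ) : ∃ D : ℕ, ∀ r : ℕ → ℚ, D ≤ H (r 0) →
    (∀ j, H (r j) ^ D ≤ H (r (j + 1))) → (∀ j, r j ≠ -1) ∧
    ∀ S : Finset ℚ, (∀ s ∈ S, ∃ j, s = r j) →
      ∃ A : Finset (ℤ × ℤ),
        (max ((A.image (fun p : ℤ × ℤ => (p.2 : ℚ))).card : ℝ)
            ((S.sup (fun r : ℚ =>
                (A.image (fun p : ℤ × ℤ => (p.1 : ℚ) + r * (p.2 : ℚ))).card) : ℕ) : ℝ))
          ^ (2 - δ) <
        ((A.image (fun p : ℤ × ℤ => (p.1 : ℚ) + (-1) * (p.2 : ℚ))).card : ℝ) := by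
  classical
  set δ' := min δ 1 with hδ'
  have hδ'0 : 0 < δ' := lt_min hδ one_pos
  have hδ'1 : δ' ≤ 1 := min_le_right _ _
  obtain ⟨D, hD⟩ : ∃ D : ℕ, 3 / δ' ≤ D := exists_nat_ge _
  have hDpos : 0 < D := by
    have h1 : 0 < 3 / δ' := by positivity
    have : (0 : ℝ) < D := by linarith
    exact_mod_cast this
  refine ⟨8 * 4 ^ D + 3 * D + 7, fun r h0 hs => ⟨?_, ?_⟩⟩
  · intro j hj
    have hmono : ∀ j, H (r 0) ≤ H (r j) := by
      intro j
      induction j with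
      | zero => exact le_rfl
      | succ j ih =>
        refine ih.trans ((Nat.le_self_pow (by omega) _).trans (hs j))
    have h1 := hmono j
    rw [hj, H_neg] at h1
    have h2 : H 1 = 1 := by unfold H; simp
    omega
  · intro S hS
    obtain ⟨n, hn⟩ : ∃ n : ℕ, ∀ s ∈ S, ∃ j ≤ n + 1, s = r j := by
      choose! f hf using hS
      refine ⟨S.sup f, fun s hs => ⟨f s, ?_, hf s hs⟩⟩
      exact (le_sup hs).trans (Nat.le_succ _)
    obtain ⟨L, hL, A, hA1, hA2, hA3⟩ := construct hDpos r h0 hs n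
    refine ⟨A, ?_⟩
    rw [hA3]
    set N : ℝ := max ((A.image (fun p : ℤ × ℤ => (p.2 : ℚ))).card : ℝ)
            ((S.sup (fun r : ℚ =>
                (A.image (fun p : ℤ × ℤ => (p.1 : ℚ) + r * (p.2 : ℚ))).card) : ℕ) : ℝ) with hN
    have hNle : N ≤ (2 * L : ℝ) ^ (D ^ n * (D + 1)) := by
      refine max_le ?_ ?_
      · exact_mod_cast hA1
      · have : S.sup (fun r : ℚ =>
                (A.image (fun p : ℤ × ℤ => (p.1 : ℚ) + r * (p.2 : ℚ))).card) ≤
            (2 * L) ^ (D ^ n * (D + 1)) := by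
          refine Finset.sup_le fun s hs => ?_
          obtain ⟨j, hj, rfl⟩ := hn s hs
          exact hA2 j hj
        exact_mod_cast this
    have hAne : A.Nonempty := by
      rw [nonempty_iff_ne_empty]
      rintro rfl
      simp only [image_empty, card_empty] at hA3
      have : 0 < L ^ (2 * D ^ (n + 1)) := by
        have : 0 < L := by have : 0 < 4 ^ D := by positivity
                           omega
        positivity
      omega
    have hN1 : 1 ≤ N := by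
      refine le_trans ?_ (le_max_left _ _)
      exact_mod_cast (hAne.image (fun p : ℤ × ℤ => (p.2 : ℚ))).card_pos
    have h1 := numeric hδ'0 hδ'1 hD hL n (by linarith) hNle
    push_cast
    refine lt_of_le_of_lt ?_ h1
    exact Real.rpow_le_rpow_of_exponent_le hN1 (by have := min_le_left δ 1; linarith)

end Pool.Agent.H55.Lac
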