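import Mathlib

/-!
# Arithmetic Kakeya for sets of small local dimension (helper55)

One-step inequality: for a probability vector on few points, the average over many directions of
the entropy of the projection is close to the entropy itself.
-/

open Finset

namespace Pool.Agent.H55.AKS

lemma max_sub_le {δ k z : ℝ} (hδ : 0 ≤ δ) (_hk : 0 ≤ k) (hz : 0 ≤ z) :
    max (z - k) 0 ≤ δ / (1 + δ) * z + max (z - (1 + δ) * k) 0 := by
  have h1 : 0 < 1 + δ := by linarith
  have e1 : δ / (1 + δ) * z = z - z / (1 + δ) := by field_simp; ring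
  rcases le_total z ((1 + δ) * k) with h | h
  · have : z / (1 + δ) ≤ k := by
      rw [div_le_iff₀ h1]; linarith
    have h0 : 0 ≤ δ / (1 + δ) * z := by positivity
    have h2 : 0 ≤ max (z - (1 + δ) * k) 0 := le_max_right _ _
    apply max_le
    · linarith
    · linarith
  · have h2 : z - (1 + δ) * k ≤ max (z - (1 + δ) * k) 0 := le_max_left _ _
    have h0 : 0 ≤ δ / (1 + δ) * z := by positivity
    have h3 : 0 ≤ max (z - (1 + δ) * k) 0 := le_max_right _ _
    have h4 : δ * k ≤ δ / (1 + δ) * z := by
      have : δ / (1 + δ) * ((1 + δ) * k) ≤ δ / (1 + δ) * z :=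
        mul_le_mul_of_nonneg_left h (by positivity)
      have e : δ / (1 + δ) * ((1 + δ) * k) = δ * k := by field_simp
      linarith
    apply max_le
    · linarith
    · linarith

lemma log_one_add_le {x : ℝ} (hx : 0 < x) :
    Real.log (1 + x) ≤ 1 + max (Real.log x) 0 := by
  have hl2 : Real.log 2 ≤ 1 := by
    have := Real.log_two_lt_d9; linarith
  rcases le_total x 1 with h | h
  · have : Real.log (1 + x) ≤ Real.log 2 := Real.log_le_log (by linarith) (by linarith)
    have := le_max_right (Real.log x) 0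
    linarith
  · have : Real.log (1 + x) ≤ Real.log (2 * x) := Real.log_le_log (by linarith) (by linarith)
    rw [Real.log_mul (by norm_num) hx.ne'] at this
    have := le_max_left (Real.log x) 0
    linarith

section OneStep

variable {ι ρ : Type*} [DecidableEq ι]

open Classical in
theorem oneStep (I : Finset ι) (R : Finset ρ) (w : ι → ℝ) (hw : ∀ i ∈ I, 0 < w i)
    (hsum : ∑ i ∈ I, w i = 1) (E : ρ → ι → ι → Prop) (hrefl : ∀ r i, E r i i)
    (hE : ∀ i ∈ I, ∀ j ∈ I, i ≠ j → ∀ r ∈ R, ∀ s ∈ R, E r i j → E s i j → r = s)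
    {K : ℕ} (hK : R.card = K) (hK2 : 2 ≤ K) {δ : ℝ} (hδ : 0 ≤ δ)
    (hI : (I.card : ℝ) ≤ (K : ℝ) ^ (1 + δ)) {ξ : ℝ} (hξ : 0 < ξ) (hξ1 : ξ < 1) :
    ∑ r ∈ R, ∑ i ∈ I, w i * Real.log ((∑ j ∈ I with E r i j, w j) / w i) ≤
      K * (δ / (1 + δ) + 1 / (K * ξ) + (2 + 1 / (K * ξ)) / Real.log (1 / ξ)) *
        ∑ i ∈ I, w i * Real.log (1 / w i) := by
  have hKpos : (0 : ℝ) < K := by positivity
  have hK1 : (1 : ℝ) ≤ K := by exact_mod_cast (by omega : 1 ≤ K)
  have hlogK : 0 ≤ Real.log K := Real.log_nonneg hK1
  have hQ : (0 : ℝ) < (K : ℝ) ^ (1 + δ) := Real.rpow_pos_of_pos hKpos _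
  set Hv := I.filter (fun i => ξ ≤ w i) with hHv
  set Lt := I.filter (fun i => ¬ ξ ≤ w i) with hLt
  have hw1 : ∀ i ∈ I, w i ≤ 1 := by
    intro i hi
    rw [← hsum]
    exact Finset.single_le_sum (f := w) (fun j hj => (hw j hj).le) hi
  have hlogw : ∀ i ∈ I, 0 ≤ Real.log (1 / w i) := by
    intro i hi
    apply Real.log_nonneg
    rw [le_div_iff₀ (hw i hi)]
    linarith [hw1 i hi]
  set H := ∑ i ∈ I, w i * Real.log (1 / w i) with hH
  have hH0 : 0 ≤ H := Finset.sum_nonneg fun i hi => mul_nonneg (hw i hi).le (hlogw i hi)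
  set B := ∑ i ∈ Lt, w i with hB
  have hLtI : ∀ i ∈ Lt, i ∈ I := fun i hi => (Finset.mem_filter.mp hi).1
  have hHvI : ∀ i ∈ Hv, i ∈ I := fun i hi => (Finset.mem_filter.mp hi).1
  have hB0 : 0 ≤ B := Finset.sum_nonneg fun i hi => (hw i (hLtI i hi)).le
  have hB1 : B ≤ 1 := by
    rw [← hsum]
    exact Finset.sum_le_sum_of_subset_of_nonneg (Finset.filter_subset _ _)
      (fun i hi _ => (hw i hi).le)
  -- number of heavy points
  have hHvcard : (Hv.card : ℝ) * ξ ≤ 1 := by
    have h1 : ∑ i ∈ Hv, ξ ≤ ∑ i ∈ Hv, w i :=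
      Finset.sum_le_sum fun i hi => (Finset.mem_filter.mp hi).2
    have h2 : ∑ i ∈ Hv, w i ≤ ∑ i ∈ I, w i :=
      Finset.sum_le_sum_of_subset_of_nonneg (Finset.filter_subset _ _)
        (fun i hi _ => (hw i hi).le)
    rw [Finset.sum_const, nsmul_eq_mul] at h1
    linarith
  have hHvcard' : (Hv.card : ℝ) ≤ 1 / ξ := by
    rw [le_div_iff₀ hξ]; exact hHvcard
  -- light mass
  have hlogξ : 0 < Real.log (1 / ξ) := by
    apply Real.log_pos
    rw [lt_div_iff₀ hξ]; linarith
  have hBH : B * Real.log (1 / ξ) ≤ H := by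
    rw [hB, Finset.sum_mul]
    calc ∑ i ∈ Lt, w i * Real.log (1 / ξ) ≤ ∑ i ∈ Lt, w i * Real.log (1 / w i) := by
          apply Finset.sum_le_sum
          intro i hi
          have h1 := hw i (hLtI i hi)
          have h2 : ¬ ξ ≤ w i := (Finset.mem_filter.mp hi).2
          push Not at h2
          apply mul_le_mul_of_nonneg_left _ h1.le
          apply Real.log_le_log (by positivity)
          exact one_div_le_one_div_of_le h1 h2.le
      _ ≤ H := Finset.sum_le_sum_of_subset_of_nonneg (Finset.filter_subset _ _)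
          (fun i hi _ => mul_nonneg (hw i hi).le (hlogw i hi))
  -- splitting
  let a : ρ → ι → ℝ := fun r i => ∑ j ∈ (Hv.erase i).filter (E r i), w j
  let b : ρ → ι → ℝ := fun r i => ∑ j ∈ (Lt.erase i).filter (E r i), w j
  have ha0 : ∀ r, ∀ i, 0 ≤ a r i := by
    intro r i
    apply Finset.sum_nonneg
    intro j hj
    have := Finset.mem_of_mem_erase (Finset.mem_filter.mp hj).1
    exact (hw j (hHvI j this)).le
  have hb0 : ∀ r, ∀ i, 0 ≤ b r i := by
    intro r i
    apply Finset.sum_nonneg
    intro j hj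
    have := Finset.mem_of_mem_erase (Finset.mem_filter.mp hj).1
    exact (hw j (hLtI j this)).le
  have hsplit : ∀ r, ∀ i ∈ I, (∑ j ∈ I with E r i j, w j) = w i + a r i + b r i := by
    intro r i hi
    have h1 : (I.filter (E r i)) = insert i (((Hv.erase i).filter (E r i)) ∪
        ((Lt.erase i).filter (E r i))) := by
      ext j
      simp only [Finset.mem_filter, Finset.mem_insert, Finset.mem_union, Finset.mem_erase, hHv, hLt]
      constructor
      · rintro ⟨hj, hEj⟩
        by_cases hji : j = i
        · exact Or.inl hji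
        · by_cases hx : ξ ≤ w j
          · exact Or.inr (Or.inl ⟨⟨hji, hj, hx⟩, hEj⟩)
          · exact Or.inr (Or.inr ⟨⟨hji, hj, hx⟩, hEj⟩)
      · rintro (rfl | ⟨⟨_, hj, _⟩, hEj⟩ | ⟨⟨_, hj, _⟩, hEj⟩)
        · exact ⟨hi, hrefl r j⟩
        · exact ⟨hj, hEj⟩
        · exact ⟨hj, hEj⟩
    rw [h1, Finset.sum_insert, Finset.sum_union]
    · ring
    · rw [Finset.disjoint_left]
      intro j hj hj'
      simp only [Finset.mem_filter, Finset.mem_erase, hHv, hLt] at hj hj'
      exact hj'.1.2.2 hj.1.2.2
    · simp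
  have hWle : ∀ r, ∀ i ∈ I, w i + a r i + b r i ≤ 1 := by
    intro r i hi
    rw [← hsplit r i hi, ← hsum]
    exact Finset.sum_le_sum_of_subset_of_nonneg (Finset.filter_subset _ _)
      (fun i hi _ => (hw i hi).le)
  -- card of directions for which i, j collide
  have hcol : ∀ i ∈ I, ∀ j ∈ I, j ≠ i → ((R.filter (fun r => E r i j)).card : ℝ) ≤ 1 := by
    intro i hi j hj hij
    have : (R.filter (fun r => E r i j)).card ≤ 1 := by
      rw [Finset.card_le_one]
      intro r hr s hs
      rw [Finset.mem_filter] at hr hs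
      exact hE i hi j hj (Ne.symm hij) r hr.1 s hs.1 hr.2 hs.2
    exact_mod_cast this
  -- S2
  have S2 : ∀ i ∈ I, ∑ r ∈ R, Real.log (1 + a r i / w i) ≤ (1 / ξ) * Real.log (1 / w i) := by
    intro i hi
    have hwi := hw i hi
    calc ∑ r ∈ R, Real.log (1 + a r i / w i)
        ≤ ∑ r ∈ R, ∑ j ∈ (Hv.erase i).filter (E r i), Real.log (1 / w i) := by
          apply Finset.sum_le_sum
          intro r _
          rcases Finset.eq_empty_or_nonempty ((Hv.erase i).filter (E r i)) with h | h
          · have : a r i = 0 := by simp only [a]; rw [h]; simp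
            rw [this, h]; simp
          · rw [Finset.sum_const, nsmul_eq_mul]
            have h1 : (1 : ℝ) ≤ (((Hv.erase i).filter (E r i)).card : ℝ) := by
              exact_mod_cast Finset.card_pos.mpr h
            have h2 : Real.log (1 + a r i / w i) ≤ Real.log (1 / w i) := by
              apply Real.log_le_log
              · have := ha0 r i; positivity
              · have h3 : 1 + a r i / w i = (w i + a r i) / w i := by field_simp
                rw [h3]
                apply div_le_div_of_nonneg_right _ hwi.le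
                linarith [hWle r i hi, hb0 r i]
            nlinarith [hlogw i hi]
      _ = ∑ j ∈ Hv.erase i, ∑ r ∈ R.filter (fun r => E r i j), Real.log (1 / w i) := by
          simp_rw [Finset.sum_filter]
          rw [Finset.sum_comm]
      _ ≤ ∑ j ∈ Hv.erase i, Real.log (1 / w i) := by
          apply Finset.sum_le_sum
          intro j hj
          rw [Finset.mem_erase] at hj
          rw [Finset.sum_const, nsmul_eq_mul]
          have := hcol i hi j (hHvI j hj.2) hj.1
          nlinarith [hlogw i hi]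
      _ = ((Hv.erase i).card : ℝ) * Real.log (1 / w i) := by
          rw [Finset.sum_const, nsmul_eq_mul]
      _ ≤ (1 / ξ) * Real.log (1 / w i) := by
          apply mul_le_mul_of_nonneg_right _ (hlogw i hi)
          refine le_trans ?_ hHvcard'
          exact_mod_cast Finset.card_le_card (Finset.erase_subset _ _)
  -- S3
  have S3 : ∀ i ∈ I, ∑ r ∈ R, Real.log (1 + b r i / w i) ≤ K * Real.log (1 + B / (K * w i)) := by
    intro i hi
    have hwi := hw i hi
    set T := B / (K * w i) with hT
    have hT0 : 0 ≤ T := by positivity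
    have hsumb : ∑ r ∈ R, b r i ≤ B := by
      calc ∑ r ∈ R, b r i = ∑ j ∈ Lt.erase i, ∑ r ∈ R.filter (fun r => E r i j), w j := by
            simp only [b]
            simp_rw [Finset.sum_filter]
            rw [Finset.sum_comm]
        _ ≤ ∑ j ∈ Lt.erase i, w j := by
            apply Finset.sum_le_sum
            intro j hj
            rw [Finset.mem_erase] at hj
            rw [Finset.sum_const, nsmul_eq_mul]
            have := hcol i hi j (hLtI j hj.2) hj.1
            nlinarith [hw j (hLtI j hj.2)]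
        _ ≤ B := Finset.sum_le_sum_of_subset_of_nonneg (Finset.erase_subset _ _)
            (fun i hi _ => (hw i (hLtI i hi)).le)
    have h1 : ∀ r ∈ R, Real.log (1 + b r i / w i) ≤
        Real.log (1 + T) + (b r i / w i - T) / (1 + T) := by
      intro r _
      have hb := hb0 r i
      have h2 : 0 < 1 + b r i / w i := by positivity
      have h3 : 0 < 1 + T := by positivity
      have h4 := Real.log_le_sub_one_of_pos (div_pos h2 h3)
      rw [Real.log_div h2.ne' h3.ne'] at h4
      have h5 : (1 + b r i / w i) / (1 + T) - 1 = (b r i / w i - T) / (1 + T) := by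
        field_simp; ring
      linarith
    calc ∑ r ∈ R, Real.log (1 + b r i / w i)
        ≤ ∑ r ∈ R, (Real.log (1 + T) + (b r i / w i - T) / (1 + T)) := Finset.sum_le_sum h1
      _ = K * Real.log (1 + T) + (∑ r ∈ R, b r i / w i - K * T) / (1 + T) := by
          rw [Finset.sum_add_distrib, Finset.sum_const, nsmul_eq_mul, hK, ← Finset.sum_div,
            Finset.sum_sub_distrib, Finset.sum_const, nsmul_eq_mul, hK]
      _ ≤ K * Real.log (1 + T) := by
          have h6 : ∑ r ∈ R, b r i / w i - K * T ≤ 0 := by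
            rw [← Finset.sum_div]
            have : (K : ℝ) * T = B / w i := by rw [hT]; field_simp
            rw [this, sub_nonpos]
            exact div_le_div_of_nonneg_right hsumb hwi.le
          have h7 : (∑ r ∈ R, b r i / w i - K * T) / (1 + T) ≤ 0 :=
            div_nonpos_of_nonpos_of_nonneg h6 (by positivity)
          linarith
  -- S4
  have S4h : ∑ i ∈ Hv, w i * Real.log (1 + B / (K * w i)) ≤ B / (K * ξ) := by
    calc ∑ i ∈ Hv, w i * Real.log (1 + B / (K * w i)) ≤ ∑ i ∈ Hv, B / K := by
          apply Finset.sum_le_sum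
          intro i hi
          have hwi := hw i (hHvI i hi)
          have h1 : Real.log (1 + B / (K * w i)) ≤ B / (K * w i) := by
            have := Real.log_le_sub_one_of_pos (show 0 < 1 + B / (K * w i) by positivity)
            linarith
          calc w i * Real.log (1 + B / (K * w i)) ≤ w i * (B / (K * w i)) :=
                mul_le_mul_of_nonneg_left h1 hwi.le
            _ = B / K := by field_simp
      _ = Hv.card * (B / K) := by rw [Finset.sum_const, nsmul_eq_mul]
      _ ≤ (1 / ξ) * (B / K) := mul_le_mul_of_nonneg_right hHvcard' (by positivity)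
      _ = B / (K * ξ) := by field_simp
  have S4l : ∑ i ∈ Lt, w i * Real.log (1 + B / (K * w i)) ≤ 2 * B + δ / (1 + δ) * H := by
    have hpt : ∀ i ∈ Lt, w i * Real.log (1 + B / (K * w i)) ≤
        w i + δ / (1 + δ) * (w i * Real.log (1 / w i)) + B / (K : ℝ) ^ (1 + δ) := by
      intro i hi
      have hwi := hw i (hLtI i hi)
      have hwB : w i ≤ B := Finset.single_le_sum (f := w) (fun j hj => (hw j (hLtI j hj)).le) hi
      have hBpos : 0 < B := lt_of_lt_of_le hwi hwB
      set z := Real.log (B / w i) with hz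
      have hz0 : 0 ≤ z := Real.log_nonneg (by rw [le_div_iff₀ hwi]; linarith)
      have hz1 : z ≤ Real.log (1 / w i) :=
        Real.log_le_log (by positivity) (div_le_div_of_nonneg_right hB1 hwi.le)
      have h1 : Real.log (1 + B / (K * w i)) ≤ 1 + max (z - Real.log K) 0 := by
        have := log_one_add_le (show 0 < B / (K * w i) by positivity)
        have e : Real.log (B / (K * w i)) = z - Real.log K := by
          rw [hz, ← Real.log_div (by positivity) (by positivity)]
          congr 1
          field_simp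
        rw [e] at this
        exact this
      have h2 := max_sub_le hδ hlogK hz0
      have h3 : w i * max (z - (1 + δ) * Real.log K) 0 ≤ B / (K : ℝ) ^ (1 + δ) := by
        rcases le_total (z - (1 + δ) * Real.log K) 0 with h | h
        · rw [max_eq_right h, mul_zero]; positivity
        · rw [max_eq_left h]
          have e : z - (1 + δ) * Real.log K = Real.log (B / w i / (K : ℝ) ^ (1 + δ)) := by
            rw [hz, Real.log_div (x := B / w i) (by positivity) (by positivity),
              Real.log_rpow hKpos]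
          rw [e]
          have h4 : Real.log (B / w i / (K : ℝ) ^ (1 + δ)) ≤ B / w i / (K : ℝ) ^ (1 + δ) := by
            have := Real.log_le_sub_one_of_pos (show 0 < B / w i / (K : ℝ) ^ (1 + δ) by positivity)
            linarith
          calc w i * Real.log (B / w i / (K : ℝ) ^ (1 + δ))
              ≤ w i * (B / w i / (K : ℝ) ^ (1 + δ)) := mul_le_mul_of_nonneg_left h4 hwi.le
            _ = B / (K : ℝ) ^ (1 + δ) := by field_simp
      have hc : 0 ≤ δ / (1 + δ) := by positivity
      calc w i * Real.log (1 + B / (K * w i)) ≤ w i * (1 + max (z - Real.log K) 0) :=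
            mul_le_mul_of_nonneg_left h1 hwi.le
        _ ≤ w i * (1 + (δ / (1 + δ) * z + max (z - (1 + δ) * Real.log K) 0)) :=
            mul_le_mul_of_nonneg_left (by linarith) hwi.le
        _ = w i + δ / (1 + δ) * (w i * z) + w i * max (z - (1 + δ) * Real.log K) 0 := by ring
        _ ≤ _ := by
            have h5 : δ / (1 + δ) * (w i * z) ≤ δ / (1 + δ) * (w i * Real.log (1 / w i)) :=
              mul_le_mul_of_nonneg_left (mul_le_mul_of_nonneg_left hz1 hwi.le) hc
            linarith
    calc ∑ i ∈ Lt, w i * Real.log (1 + B / (K * w i))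
        ≤ ∑ i ∈ Lt, (w i + δ / (1 + δ) * (w i * Real.log (1 / w i)) + B / (K : ℝ) ^ (1 + δ)) :=
          Finset.sum_le_sum hpt
      _ = B + δ / (1 + δ) * ∑ i ∈ Lt, w i * Real.log (1 / w i) +
            Lt.card * (B / (K : ℝ) ^ (1 + δ)) := by
          rw [Finset.sum_add_distrib, Finset.sum_add_distrib, Finset.sum_const, nsmul_eq_mul,
            ← Finset.mul_sum]
      _ ≤ B + δ / (1 + δ) * H + B := by
          have h1 : ∑ i ∈ Lt, w i * Real.log (1 / w i) ≤ H :=
            Finset.sum_le_sum_of_subset_of_nonneg (Finset.filter_subset _ _)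
              (fun i hi _ => mul_nonneg (hw i hi).le (hlogw i hi))
          have h2 : (Lt.card : ℝ) * (B / (K : ℝ) ^ (1 + δ)) ≤ B := by
            have h3 : (Lt.card : ℝ) ≤ (K : ℝ) ^ (1 + δ) :=
              le_trans (by exact_mod_cast Finset.card_le_card (Finset.filter_subset _ _)) hI
            calc (Lt.card : ℝ) * (B / (K : ℝ) ^ (1 + δ))
                ≤ (K : ℝ) ^ (1 + δ) * (B / (K : ℝ) ^ (1 + δ)) :=
                  mul_le_mul_of_nonneg_right h3 (by positivity)
              _ = B := by field_simp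
          have h4 := mul_le_mul_of_nonneg_left h1 (show 0 ≤ δ / (1 + δ) by positivity)
          linarith
      _ = 2 * B + δ / (1 + δ) * H := by ring
  -- assemble
  have hmain : ∑ r ∈ R, ∑ i ∈ I, w i * Real.log ((∑ j ∈ I with E r i j, w j) / w i) ≤
      ∑ i ∈ I, w i * ((1 / ξ) * Real.log (1 / w i)) +
        ∑ i ∈ I, w i * (K * Real.log (1 + B / (K * w i))) := by
    rw [Finset.sum_comm, ← Finset.sum_add_distrib]
    apply Finset.sum_le_sum
    intro i hi
    have hwi := hw i hi
    rw [← Finset.mul_sum, ← mul_add]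
    apply mul_le_mul_of_nonneg_left _ hwi.le
    calc ∑ r ∈ R, Real.log ((∑ j ∈ I with E r i j, w j) / w i)
        ≤ ∑ r ∈ R, (Real.log (1 + a r i / w i) + Real.log (1 + b r i / w i)) := by
          apply Finset.sum_le_sum
          intro r _
          rw [hsplit r i hi]
          have h1 := ha0 r i
          have h2 := hb0 r i
          rw [← Real.log_mul (by positivity) (by positivity)]
          apply Real.log_le_log (by positivity)
          have e : (1 + a r i / w i) * (1 + b r i / w i) =
              (w i + a r i + b r i) / w i + (a r i / w i) * (b r i / w i) := by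
            field_simp; ring
          rw [e]
          have : 0 ≤ (a r i / w i) * (b r i / w i) := by positivity
          linarith
      _ ≤ _ := by
          rw [Finset.sum_add_distrib]
          exact add_le_add (S2 i hi) (S3 i hi)
  have e1 : ∑ i ∈ I, w i * ((1 / ξ) * Real.log (1 / w i)) = (1 / ξ) * H := by
    rw [hH, Finset.mul_sum]
    apply Finset.sum_congr rfl
    intro i _; ring
  have e2 : ∑ i ∈ I, w i * (K * Real.log (1 + B / (K * w i))) =
      K * (∑ i ∈ Hv, w i * Real.log (1 + B / (K * w i)) +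
        ∑ i ∈ Lt, w i * Real.log (1 + B / (K * w i))) := by
    rw [hHv, hLt, Finset.sum_filter_add_sum_filter_not, Finset.mul_sum]
    apply Finset.sum_congr rfl
    intro i _; ring
  rw [e1, e2] at hmain
  have hBle : B ≤ H / Real.log (1 / ξ) := by
    rw [le_div_iff₀ hlogξ]; exact hBH
  have hfin : K * (∑ i ∈ Hv, w i * Real.log (1 + B / (K * w i)) +
        ∑ i ∈ Lt, w i * Real.log (1 + B / (K * w i))) ≤
      K * (B / (K * ξ) + (2 * B + δ / (1 + δ) * H)) :=
    mul_le_mul_of_nonneg_left (add_le_add S4h S4l) hKpos.le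
  have hfin2 : K * (B / (K * ξ) + (2 * B + δ / (1 + δ) * H)) ≤
      K * ((2 + 1 / (K * ξ)) / Real.log (1 / ξ) * H + δ / (1 + δ) * H) := by
    apply mul_le_mul_of_nonneg_left _ hKpos.le
    have h1 : B / (K * ξ) + 2 * B = (2 + 1 / (K * ξ)) * B := by field_simp; ring
    have h2 : (2 + 1 / (K * ξ)) * B ≤ (2 + 1 / (K * ξ)) * (H / Real.log (1 / ξ)) :=
      mul_le_mul_of_nonneg_left hBle (by positivity)
    have h3 : (2 + 1 / (K * ξ)) * (H / Real.log (1 / ξ)) =
        (2 + 1 / (K * ξ)) / Real.log (1 / ξ) * H := by ring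
    linarith
  calc _ ≤ _ := hmain
    _ ≤ (1 / ξ) * H + K * ((2 + 1 / (K * ξ)) / Real.log (1 / ξ) * H + δ / (1 + δ) * H) := by
        linarith
    _ = _ := by
        have : (1 / ξ) * H = K * (1 / (K * ξ)) * H := by field_simp
        rw [this]; ring

end OneStep


/-! ### Classes and linear forms -/

/-- A linear form on `ℤ²`. -/
def lin (f a : ℤ × ℤ) : ℤ := f.1 * a.1 + f.2 * a.2

/-- The residue class modulo `M`. -/
def cl (M : ℕ) (a : ℤ × ℤ) : ZMod M × ZMod M := ((a.1 : ZMod M), (a.2 : ZMod M))

/-- The value of a linear form on a residue class. -/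
def val (M : ℕ) (f : ℤ × ℤ) (i : ZMod M × ZMod M) : ZMod M := (f.1 : ZMod M) * i.1 + f.2 * i.2

lemma val_cl (M : ℕ) (f a : ℤ × ℤ) : val M f (cl M a) = (lin f a : ZMod M) := by
  simp [val, cl, lin]

lemma val_inj {M : ℕ} {f g : ℤ × ℤ} (h : IsCoprime (f.1 * g.2 - f.2 * g.1) (M : ℤ))
    {i j : ZMod M × ZMod M} (h1 : val M f i = val M f j) (h2 : val M g i = val M g j) : i = j := by
  obtain ⟨u, v, huv⟩ := h
  have hu : (u : ZMod M) * ((f.1 : ZMod M) * g.2 - f.2 * g.1) = 1 := by
    have := congrArg (fun x : ℤ => (x : ZMod M)) huv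
    push_cast at this
    rw [ZMod.natCast_self, mul_zero, add_zero] at this
    exact this
  unfold val at h1 h2
  have e1 : ((f.1 : ZMod M) * g.2 - f.2 * g.1) * (i.1 - j.1) = 0 := by
    linear_combination (g.2 : ZMod M) * h1 - (f.2 : ZMod M) * h2
  have e2 : ((f.1 : ZMod M) * g.2 - f.2 * g.1) * (i.2 - j.2) = 0 := by
    linear_combination (-(g.1 : ZMod M)) * h1 + (f.1 : ZMod M) * h2
  have f1 : i.1 - j.1 = 0 := by
    calc i.1 - j.1 = ((u : ZMod M) * ((f.1 : ZMod M) * g.2 - f.2 * g.1)) * (i.1 - j.1) := by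
          rw [hu, one_mul]
      _ = u * (((f.1 : ZMod M) * g.2 - f.2 * g.1) * (i.1 - j.1)) := by ring
      _ = 0 := by rw [e1, mul_zero]
  have f2 : i.2 - j.2 = 0 := by
    calc i.2 - j.2 = ((u : ZMod M) * ((f.1 : ZMod M) * g.2 - f.2 * g.1)) * (i.2 - j.2) := by
          rw [hu, one_mul]
      _ = u * (((f.1 : ZMod M) * g.2 - f.2 * g.1) * (i.2 - j.2)) := by ring
      _ = 0 := by rw [e2, mul_zero]
  exact Prod.ext (sub_eq_zero.mp f1) (sub_eq_zero.mp f2)

open Classical in
/-- Gibbs inequality for the projection of a set split into classes. -/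
lemma gibbs (M : ℕ) (f : ℤ × ℤ) (A : Finset (ℤ × ℤ)) (hA : A.Nonempty)
    (w : ZMod M × ZMod M → ℝ) (hw : ∀ i ∈ A.image (cl M), 0 < w i)
    (hsum : ∑ i ∈ A.image (cl M), w i = 1) :
    ∑ i ∈ A.image (cl M), w i * (Real.log ((((A.filter (fun a => cl M a = i)).image (lin f)).card : ℝ)) -
      Real.log (∑ j ∈ A.image (cl M) with val M f i = val M f j, w j)) ≤
      Real.log ((A.image (lin f)).card : ℝ) := by
  set I := A.image (cl M) with hI
  set W : ZMod M × ZMod M → ℝ := fun i => ∑ j ∈ I with val M f i = val M f j, w j with hW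
  set N : ZMod M × ZMod M → ℝ := fun i =>
    (((A.filter (fun a => cl M a = i)).image (lin f)).card : ℝ) with hN
  have hWpos : ∀ i ∈ I, 0 < W i := by
    intro i hi
    apply Finset.sum_pos
    · intro j hj
      exact hw j (Finset.mem_filter.mp hj).1
    · exact ⟨i, Finset.mem_filter.mpr ⟨hi, rfl⟩⟩
  have hNpos : ∀ i ∈ I, 0 < N i := by
    intro i hi
    obtain ⟨a, ha, rfl⟩ := Finset.mem_image.mp hi
    have : ((A.filter (fun a' => cl M a' = cl M a)).image (lin f)).Nonempty :=
      ⟨lin f a, Finset.mem_image.mpr ⟨a, Finset.mem_filter.mpr ⟨ha, rfl⟩, rfl⟩⟩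
    simp only [hN]
    exact_mod_cast Finset.card_pos.mpr this
  set X := ∑ i ∈ I, w i * (N i / W i) with hX
  have hIne : I.Nonempty := hA.image _
  have hXpos : 0 < X := Finset.sum_pos
    (fun i hi => mul_pos (hw i hi) (div_pos (hNpos i hi) (hWpos i hi))) hIne
  -- step 1
  have step1 : ∑ i ∈ I, w i * (Real.log (N i) - Real.log (W i)) ≤ Real.log X := by
    have h1 : ∀ i ∈ I, w i * (Real.log (N i) - Real.log (W i)) ≤
        w i * Real.log X + (w i * (N i / W i) / X - w i) := by
      intro i hi
      have hx := div_pos (hNpos i hi) (hWpos i hi)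
      have h2 := Real.log_le_sub_one_of_pos (div_pos hx hXpos)
      rw [Real.log_div hx.ne' hXpos.ne', Real.log_div (hNpos i hi).ne' (hWpos i hi).ne'] at h2
      have h3 := mul_le_mul_of_nonneg_left h2 (hw i hi).le
      have e : w i * (N i / W i / X - 1) = w i * (N i / W i) / X - w i := by ring
      rw [e] at h3
      nlinarith [h3]
    calc _ ≤ ∑ i ∈ I, (w i * Real.log X + (w i * (N i / W i) / X - w i)) := Finset.sum_le_sum h1
      _ = Real.log X := by
          rw [Finset.sum_add_distrib, Finset.sum_sub_distrib, ← Finset.sum_mul, ← Finset.sum_div,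
            hsum, ← hX, div_self hXpos.ne']
          ring
  -- step 2
  have step2 : X ≤ ((A.image (lin f)).card : ℝ) := by
    have hmaps : ∀ x ∈ A.image (lin f), (x : ZMod M) ∈ I.image (val M f) := by
      intro x hx
      obtain ⟨a, ha, rfl⟩ := Finset.mem_image.mp hx
      exact Finset.mem_image.mpr ⟨cl M a, Finset.mem_image_of_mem _ ha, val_cl M f a⟩
    have hcard := Finset.card_eq_sum_card_fiberwise (s := A.image (lin f))
      (t := I.image (val M f)) (f := fun x : ℤ => (x : ZMod M)) hmaps
    rw [hcard]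
    push_cast
    have hfib : X = ∑ v ∈ I.image (val M f), ∑ i ∈ I with val M f i = v, w i * (N i / W i) := by
      rw [hX]
      exact (Finset.sum_fiberwise_of_maps_to (fun i hi => Finset.mem_image_of_mem _ hi) _).symm
    rw [hfib]
    apply Finset.sum_le_sum
    intro v hv
    obtain ⟨i₀, hi₀, hv0⟩ := Finset.mem_image.mp hv
    set U : ℝ := (((A.image (lin f)).filter (fun x : ℤ => (x : ZMod M) = v)).card : ℝ) with hU
    have hNU : ∀ i ∈ I.filter (fun i => val M f i = v), N i ≤ U := by
      intro i hi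
      rw [Finset.mem_filter] at hi
      simp only [hN, hU]
      have : ((A.filter (fun a => cl M a = i)).image (lin f)) ⊆
          ((A.image (lin f)).filter (fun x : ℤ => (x : ZMod M) = v)) := by
        intro x hx
        obtain ⟨a, ha, rfl⟩ := Finset.mem_image.mp hx
        rw [Finset.mem_filter] at ha
        rw [Finset.mem_filter]
        refine ⟨Finset.mem_image_of_mem _ ha.1, ?_⟩
        rw [← val_cl, ha.2, hi.2]
      exact_mod_cast Finset.card_le_card this
    have hWv : ∀ i ∈ I.filter (fun i => val M f i = v),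
        W i = ∑ j ∈ I with val M f j = v, w j := by
      intro i hi
      rw [Finset.mem_filter] at hi
      rw [hW]
      apply Finset.sum_congr _ (fun _ _ => rfl)
      ext j
      simp only [Finset.mem_filter]
      rw [hi.2]
      constructor
      · rintro ⟨h1, h2⟩; exact ⟨h1, h2.symm⟩
      · rintro ⟨h1, h2⟩; exact ⟨h1, h2.symm⟩
    set Wv := ∑ j ∈ I with val M f j = v, w j with hWv'
    have hWvpos : 0 < Wv := by
      have := hWpos i₀ hi₀
      rwa [hWv i₀ (Finset.mem_filter.mpr ⟨hi₀, hv0⟩)] at this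
    calc ∑ i ∈ I with val M f i = v, w i * (N i / W i)
        ≤ ∑ i ∈ I with val M f i = v, w i * (U / Wv) := by
          apply Finset.sum_le_sum
          intro i hi
          rw [hWv i hi]
          apply mul_le_mul_of_nonneg_left _ (hw i (Finset.mem_filter.mp hi).1).le
          exact div_le_div_of_nonneg_right (hNU i hi) hWvpos.le
      _ = Wv * (U / Wv) := by rw [← Finset.sum_mul]
      _ = U := by field_simp
  exact le_trans step1 (Real.log_le_log hXpos step2)

open Classical in
theorem induct (R : Finset (ℤ × ℤ)) {K : ℕ} (hK : R.card = K) (hK2 : 2 ≤ K) (m : ℕ → ℕ)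
    (hcop : ∀ j, ∀ f ∈ R, ∀ g ∈ R, f ≠ g → IsCoprime (f.1 * g.2 - f.2 * g.1) (m j : ℤ))
    {δ : ℝ} (hδ : 0 ≤ δ) {ξ : ℝ} (hξ : 0 < ξ) (hξ1 : ξ < 1) {c : ℝ}
    (hc : δ / (1 + δ) + 1 / (K * ξ) + (2 + 1 / (K * ξ)) / Real.log (1 / ξ) ≤ 1 - c) :
    ∀ (J j : ℕ) (A : Finset (ℤ × ℤ)), A.Nonempty →
      (∀ a ∈ A, ∀ b ∈ A, cl (m j) a = cl (m j) b) →
      (∀ a ∈ A, ∀ b ∈ A, cl (m (j + J)) a = cl (m (j + J)) b → a = b) →
      (∀ i, ∀ a ∈ A, ((((A.filter (fun b => cl (m i) b = cl (m i) a)).image
        (cl (m (i + 1)))).card : ℝ) ≤ (K : ℝ) ^ (1 + δ))) →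
      K * (c * Real.log (A.card : ℝ)) ≤ ∑ f ∈ R, Real.log ((A.image (lin f)).card : ℝ) := by
  intro J
  induction J with
  | zero =>
    intro j A hA h1 h2 _
    have hcard : A.card ≤ 1 := by
      rw [Finset.card_le_one]
      intro a ha b hb
      exact h2 a ha b hb (h1 a ha b hb)
    have hcard1 : A.card = 1 := le_antisymm hcard (Finset.card_pos.mpr hA)
    rw [hcard1]
    simp only [Nat.cast_one, Real.log_one, mul_zero]
    apply Finset.sum_nonneg
    intro f _
    apply Real.log_nonneg
    exact_mod_cast Finset.card_pos.mpr (hA.image _)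
  | succ J ih =>
    intro j A hA h1 h2 h3
    set M := m (j + 1) with hM
    set I := A.image (cl M) with hI
    have hAc : (0 : ℝ) < A.card := by exact_mod_cast Finset.card_pos.mpr hA
    set Ai : ZMod M × ZMod M → Finset (ℤ × ℤ) := fun i => A.filter (fun a => cl M a = i) with hAi
    have hAine : ∀ i ∈ I, (Ai i).Nonempty := by
      intro i hi
      obtain ⟨a, ha, rfl⟩ := Finset.mem_image.mp hi
      exact ⟨a, Finset.mem_filter.mpr ⟨ha, rfl⟩⟩
    have hAipos : ∀ i ∈ I, (0 : ℝ) < (Ai i).card := fun i hi => by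
      exact_mod_cast Finset.card_pos.mpr (hAine i hi)
    set w : ZMod M × ZMod M → ℝ := fun i => ((Ai i).card : ℝ) / A.card with hw
    have hwpos : ∀ i ∈ I, 0 < w i := fun i hi => div_pos (hAipos i hi) hAc
    have hwsum : ∑ i ∈ I, w i = 1 := by
      rw [hw, ← Finset.sum_div]
      have := Finset.card_eq_sum_card_fiberwise (s := A) (t := I) (f := cl M)
        (fun a ha => Finset.mem_image_of_mem _ ha)
      rw [div_eq_one_iff_eq hAc.ne']
      rw [this]
      push_cast
      rfl
    have hIcard : (I.card : ℝ) ≤ (K : ℝ) ^ (1 + δ) := by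
      obtain ⟨a, ha⟩ := hA
      have := h3 j a ha
      have e : A.filter (fun b => cl (m j) b = cl (m j) a) = A := by
        apply Finset.filter_true_of_mem
        intro b hb
        exact h1 b hb a ha
      rw [e] at this
      exact this
    -- one step
    have hone := oneStep I R w hwpos hwsum (fun f i i' => val M f i = val M f i')
      (fun _ _ => rfl)
      (by
        intro i _ i' _ hii f hf g hg e1 e2
        by_contra hfg
        exact hii (val_inj (hcop (j + 1) f hf g hg hfg) e1 e2))
      hK hK2 hδ hIcard hξ hξ1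
    -- Gibbs
    have hgib : ∀ f ∈ R, ∑ i ∈ I, w i * (Real.log (((Ai i).image (lin f)).card : ℝ) -
        Real.log (∑ i' ∈ I with val M f i = val M f i', w i')) ≤
        Real.log ((A.image (lin f)).card : ℝ) := fun f _ => gibbs M f A hA w hwpos hwsum
    -- induction hypothesis
    have hih : ∀ i ∈ I, K * (c * Real.log ((Ai i).card : ℝ)) ≤
        ∑ f ∈ R, Real.log (((Ai i).image (lin f)).card : ℝ) := by
      intro i hi
      apply ih (j + 1) (Ai i) (hAine i hi)
      · intro a ha b hb
        rw [Finset.mem_filter] at ha hb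
        rw [← hM, ha.2, hb.2]
      · intro a ha b hb hab
        rw [Finset.mem_filter] at ha hb
        apply h2 a ha.1 b hb.1
        have e : j + (J + 1) = j + 1 + J := by ring
        rw [e]; exact hab
      · intro k a ha
        have ha' := (Finset.mem_filter.mp ha).1
        refine le_trans ?_ (h3 k a ha')
        have : (((Ai i).filter (fun b => cl (m k) b = cl (m k) a)).image (cl (m (k + 1)))) ⊆
            ((A.filter (fun b => cl (m k) b = cl (m k) a)).image (cl (m (k + 1)))) := by
          apply Finset.image_subset_image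
          intro b hb
          rw [Finset.mem_filter] at hb ⊢
          exact ⟨(Finset.mem_filter.mp hb.1).1, hb.2⟩
        exact_mod_cast Finset.card_le_card this
    set H := ∑ i ∈ I, w i * Real.log (1 / w i) with hH
    have hH0 : 0 ≤ H := by
      apply Finset.sum_nonneg
      intro i hi
      apply mul_nonneg (hwpos i hi).le
      apply Real.log_nonneg
      rw [le_div_iff₀ (hwpos i hi), one_mul]
      rw [← hwsum]
      exact Finset.single_le_sum (f := w) (fun j hj => (hwpos j hj).le) hi
    have hKpos : (0 : ℝ) < K := by positivity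
    -- total
    have hWpos : ∀ f, ∀ i ∈ I, 0 < ∑ i' ∈ I with val M f i = val M f i', w i' := by
      intro f i hi
      apply Finset.sum_pos
      · intro j hj
        exact hwpos j (Finset.mem_filter.mp hj).1
      · exact ⟨i, Finset.mem_filter.mpr ⟨hi, rfl⟩⟩
    have T1 : ∑ f ∈ R, ∑ i ∈ I, w i * (Real.log (((Ai i).image (lin f)).card : ℝ) -
        Real.log (∑ i' ∈ I with val M f i = val M f i', w i')) =
        ∑ i ∈ I, w i * ∑ f ∈ R, Real.log (((Ai i).image (lin f)).card : ℝ) + K * H -
          ∑ f ∈ R, ∑ i ∈ I, w i * Real.log ((∑ i' ∈ I with val M f i = val M f i', w i') / w i) := by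
      have e1 : ∑ i ∈ I, w i * ∑ f ∈ R, Real.log (((Ai i).image (lin f)).card : ℝ) =
          ∑ f ∈ R, ∑ i ∈ I, w i * Real.log (((Ai i).image (lin f)).card : ℝ) := by
        rw [Finset.sum_comm]
        apply Finset.sum_congr rfl
        intro i _
        rw [Finset.mul_sum]
      have e2 : (K : ℝ) * H = ∑ f ∈ R, ∑ i ∈ I, w i * Real.log (1 / w i) := by
        rw [Finset.sum_const, nsmul_eq_mul, hK]
      rw [e1, e2, ← Finset.sum_add_distrib, ← Finset.sum_sub_distrib]
      apply Finset.sum_congr rfl
      intro f _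
      rw [← Finset.sum_add_distrib, ← Finset.sum_sub_distrib]
      apply Finset.sum_congr rfl
      intro i hi
      rw [Real.log_div (hWpos f i hi).ne' (hwpos i hi).ne', Real.log_div one_ne_zero (hwpos i hi).ne',
        Real.log_one]
      ring
    have T2 : ∑ i ∈ I, w i * (K * (c * Real.log ((Ai i).card : ℝ))) ≤
        ∑ i ∈ I, w i * ∑ f ∈ R, Real.log (((Ai i).image (lin f)).card : ℝ) :=
      Finset.sum_le_sum fun i hi => mul_le_mul_of_nonneg_left (hih i hi) (hwpos i hi).le
    have T3 : ∑ i ∈ I, w i * (K * (c * Real.log ((Ai i).card : ℝ))) + K * (c * H) =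
        K * (c * Real.log (A.card : ℝ)) := by
      have e : (K : ℝ) * (c * H) = ∑ i ∈ I, w i * (K * (c * Real.log (1 / w i))) := by
        rw [hH, Finset.mul_sum, Finset.mul_sum]
        apply Finset.sum_congr rfl
        intro i _; ring
      rw [e, ← Finset.sum_add_distrib]
      have e2 : ∀ i ∈ I, w i * (K * (c * Real.log ((Ai i).card : ℝ))) +
          w i * (K * (c * Real.log (1 / w i))) = w i * (K * (c * Real.log (A.card : ℝ))) := by
        intro i hi
        have : Real.log (1 / w i) = Real.log (A.card : ℝ) - Real.log ((Ai i).card : ℝ) := by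
          rw [hw]
          rw [one_div_div, Real.log_div hAc.ne' (hAipos i hi).ne']
        rw [this]; ring
      rw [Finset.sum_congr rfl e2, ← Finset.sum_mul, hwsum, one_mul]
    have T4 : ∑ f ∈ R, ∑ i ∈ I, w i * (Real.log (((Ai i).image (lin f)).card : ℝ) -
        Real.log (∑ i' ∈ I with val M f i = val M f i', w i')) ≤
        ∑ f ∈ R, Real.log ((A.image (lin f)).card : ℝ) := Finset.sum_le_sum hgib
    have T5 : K * (δ / (1 + δ) + 1 / (K * ξ) + (2 + 1 / (K * ξ)) / Real.log (1 / ξ)) * H ≤
        K * (1 - c) * H :=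
      mul_le_mul_of_nonneg_right (mul_le_mul_of_nonneg_left hc hKpos.le) hH0
    rw [T1] at T4
    have hone' : ∑ f ∈ R, ∑ i ∈ I,
        w i * Real.log ((∑ i' ∈ I with val M f i = val M f i', w i') / w i) ≤
        ↑K * (δ / (1 + δ) + 1 / (↑K * ξ) + (2 + 1 / (↑K * ξ)) / Real.log (1 / ξ)) * H := by
      convert hone
    have T6 := le_trans hone' T5
    have e7 : (K : ℝ) * (1 - c) * H = K * H - K * (c * H) := by ring
    rw [e7] at T6
    linarith

end Pool.Agent.H55.AKS
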