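import Pool.Agent.H55.IsoDefs

/-!
# The number of maximal isotropic spaces of an alternating matrix space: proof

Idea of the upper bound: a maximal isotropic space `U` satisfies `U = U^⊥`.  Run the random process
that picks `w₁` uniformly, then `w₂` uniformly in `w₁^⊥`, and so on.  The events `the process runs
through a basis of U` are disjoint for different `U` of the same dimension, and the probability of
this event is bounded below by submodularity of `dim <w₁, …, w_i>^⊥` (compare a basis with the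
reversed basis), or by a moment computation for the rank of a random element.
-/

set_option linter.unusedSectionVars false

open Module Submodule Matrix

namespace Pool.Agent.H55.IsoSpaces

section abs
variable {F V : Type*} [Field F] [Fintype F] [AddCommGroup V] [Module F V] [Fintype V]

/-- span of the vectors with index `< i`. -/
def pre (F : Type*) {V : Type*} [Field F] [AddCommGroup V] [Module F V]
    {k : ℕ} (w : Fin k → V) (i : ℕ) : Submodule F V :=
  span F (w '' {j | (j : ℕ) < i})

open Classical in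
/-- weight of a tuple. -/
noncomputable def wt (P : Submodule F V → Submodule F V) {k : ℕ} (w : Fin k → V) : ℝ :=
  ∏ i : Fin k, (if w i ∈ P (pre F w i) then (1 / (Nat.card (P (pre F w i)) : ℝ)) else 0)

lemma pre_snoc {k : ℕ} (w : Fin k → V) (y : V) (i : ℕ) (hi : i ≤ k) :
    pre F (Fin.snoc (α := fun _ => V) w y) i = pre F w i := by
  unfold pre
  congr 1
  ext x
  simp only [Set.mem_image, Set.mem_ofPred_eq]
  constructor
  · rintro ⟨j, hj, rfl⟩
    have hjk : (j : ℕ) < k := by omega
    refine ⟨⟨j, hjk⟩, hj, ?_⟩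
    have h := Fin.snoc_castSucc (α := fun _ => V) y w ⟨j, hjk⟩
    rw [← h]
    rfl
  · rintro ⟨j, hj, rfl⟩
    exact ⟨Fin.castSucc j, by simpa using hj, by simp⟩

lemma sum_wt (P : Submodule F V → Submodule F V) (k : ℕ) :
    ∑ w : Fin k → V, wt P w = 1 := by
  classical
  induction k with
  | zero => simp [wt]
  | succ k ih =>
    rw [← (Fin.snocEquiv (fun _ : Fin (k+1) => V)).sum_comp]
    rw [Fintype.sum_prod_type_right]
    rw [← ih]
    refine Finset.sum_congr rfl fun w _ => ?_
    have h1 : ∀ y : V, wt P ((Fin.snocEquiv (fun _ : Fin (k+1) => V)) (y, w)) =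
        wt P w * (if y ∈ P (pre F w k) then (1 / (Nat.card (P (pre F w k)) : ℝ)) else 0) := by
      intro y
      unfold wt
      rw [Fin.prod_univ_castSucc]
      congr 1
      · refine Finset.prod_congr rfl fun i _ => ?_
        have := pre_snoc (F := F) w y (i : ℕ) i.2.le
        simp only [Fin.snocEquiv, Equiv.coe_fn_mk, Fin.snoc_castSucc, Fin.val_castSucc, this]
      · have := pre_snoc (F := F) w y k le_rfl
        simp only [Fin.snocEquiv, Equiv.coe_fn_mk, Fin.snoc_last, Fin.val_last, this]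
    simp only [h1]
    rw [← Finset.mul_sum, Finset.sum_ite, Finset.sum_const_zero, add_zero, Finset.sum_const]
    have h2 : (Finset.univ.filter (fun y => y ∈ P (pre F w k))).card = Nat.card (P (pre F w k)) := by
      rw [Nat.card_eq_fintype_card, Fintype.card_subtype]
    rw [h2]
    have h3 : (Nat.card (P (pre F w k)) : ℝ) ≠ 0 := by
      exact_mod_cast Nat.card_pos.ne'
    rw [nsmul_eq_mul, mul_one_div_cancel h3, mul_one]

lemma wt_nonneg (P : Submodule F V → Submodule F V) {k : ℕ} (w : Fin k → V) : 0 ≤ wt P w := by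
  unfold wt
  refine Finset.prod_nonneg fun i _ => ?_
  split_ifs <;> positivity

/-- the product of (1 - q^{-j}) bound in integer form -/
lemma prod_bound (q : ℕ) (hq : 2 ≤ q) (u : ℕ) :
    (q : ℝ) ^ (u * u) / 4 ≤ ((∏ i : Fin u, (q ^ u - q ^ (i : ℕ)) : ℕ) : ℝ) := by
  have hq' : (2 : ℝ) ≤ q := by exact_mod_cast hq
  have hq0 : (0 : ℝ) < q := by linarith
  have h1 : ((∏ i : Fin u, (q ^ u - q ^ (i : ℕ)) : ℕ) : ℝ) =
      (q : ℝ) ^ (u * u) * ∏ j ∈ Finset.range u, (1 - ((q : ℝ)⁻¹) ^ (j + 1)) := by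
    rw [Nat.cast_prod]
    have : ∀ i : Fin u, ((q ^ u - q ^ (i : ℕ) : ℕ) : ℝ) =
        (q : ℝ) ^ u * (1 - ((q : ℝ)⁻¹) ^ (u - (i : ℕ))) := by
      intro i
      have hi : (i : ℕ) ≤ u := i.2.le
      rw [Nat.cast_sub (Nat.pow_le_pow_right (by omega) hi)]
      push_cast
      have h2 : (q : ℝ) ^ u = (q : ℝ) ^ (i : ℕ) * (q : ℝ) ^ (u - (i : ℕ)) := by
        rw [← pow_add]; congr 1; omega
      rw [mul_sub, mul_one, inv_pow]
      congr 1
      rw [h2]
      field_simp
    rw [Finset.prod_congr rfl fun i _ => this i]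
    rw [Finset.prod_mul_distrib, Finset.prod_const, Finset.card_univ, Fintype.card_fin, ← pow_mul]
    congr 1
    rw [Fin.prod_univ_eq_prod_range (fun i => (1 - ((q : ℝ)⁻¹) ^ (u - i))) u]
    rw [← Finset.prod_range_reflect]
    refine Finset.prod_congr rfl fun j hj => ?_
    rw [Finset.mem_range] at hj
    congr 2
    omega
  rw [h1]
  have hx0 : (0 : ℝ) < (q : ℝ)⁻¹ := by positivity
  have hx : (q : ℝ)⁻¹ ≤ 1 / 2 := by
    rw [inv_le_comm₀ hq0 (by norm_num)]
    norm_num
    exact hq
  have h2 : ∀ u : ℕ, (1 : ℝ) / 4 + (1 / 2) ^ (u + 1 + 1) ≤ ∏ j ∈ Finset.range (u + 1), (1 - ((q : ℝ)⁻¹) ^ (j + 1)) := by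
    intro u
    induction u with
    | zero =>
      simp
      linarith
    | succ u ih =>
      rw [Finset.prod_range_succ]
      have h3 : ((q : ℝ)⁻¹) ^ (u + 1 + 1) ≤ (1 / 2) ^ (u + 1 + 1) := by
        exact pow_le_pow_left₀ hx0.le hx _
      have h4 : (1 / 2 : ℝ) ^ (u + 1 + 1) ≤ 1 / 4 := by
        have : (1 / 2 : ℝ) ^ (u + 1 + 1) = (1 / 2) ^ u * (1 / 4) := by ring
        rw [this]
        have : (1 / 2 : ℝ) ^ u ≤ 1 := pow_le_one₀ (by norm_num) (by norm_num)
        linarith
      have h6 : (0 : ℝ) < (1 / 2 : ℝ) ^ (u + 1 + 1) := by positivity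
      calc (1 : ℝ) / 4 + (1 / 2) ^ (u + 1 + 1 + 1)
          ≤ (1 / 4 + (1 / 2) ^ (u + 1 + 1)) * (1 - (1 / 2) ^ (u + 1 + 1)) := by
            have : (1 / 2 : ℝ) ^ (u + 1 + 1 + 1) = (1 / 2) ^ (u + 1 + 1) / 2 := by ring
            rw [this]
            nlinarith
        _ ≤ _ := by
            apply mul_le_mul ih (by linarith) (by linarith)
            exact le_trans (by positivity) ih
  rcases u with _ | u
  · simp; norm_num
  · have h5 := h2 u
    have h6 : (0 : ℝ) < (1 / 2 : ℝ) ^ (u + 1 + 1) := by positivity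
    have h7 : (0 : ℝ) < (q : ℝ) ^ ((u + 1) * (u + 1)) := by positivity
    nlinarith


/-- Key lemma: reversal. `P` is an orthogonality operation. -/
lemma sum_finrank_rev (P : Submodule F V → Submodule F V)
    (hP : ∀ X Y, P (X ⊔ Y) = P X ⊓ P Y) (U : Submodule F V) (hU : P U = U)
    (u : ℕ) (hu : finrank F U = u) (w : Fin u → V) (hspan : span F (Set.range w) = U) :
    (∑ i : Fin u, finrank F (P (pre F w i))) + (∑ i : Fin u, finrank F (P (pre F (w ∘ Fin.rev) i)))
      + 2 * u ≤ (u + 1) * (u + finrank F V) := by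
  have hmono : ∀ X Y, X ≤ Y → P Y ≤ P X := by
    intro X Y h
    have := hP X Y
    rw [sup_eq_right.mpr h] at this
    rw [this]; exact inf_le_left
  -- extended sums
  have hpair : ∀ i : ℕ, i ≤ u → finrank F (P (pre F w i)) + finrank F (P (pre F (w ∘ Fin.rev) (u - i)))
      ≤ u + finrank F V := by
    intro i hi
    have hsup : pre F w i ⊔ pre F (w ∘ Fin.rev) (u - i) = U := by
      rw [← hspan]
      unfold pre
      rw [← span_union]
      congr 1
      ext x
      simp only [Set.mem_union, Set.mem_image, Set.mem_ofPred_eq, Set.mem_range, Function.comp]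
      constructor
      · rintro (⟨j, _, rfl⟩ | ⟨j, _, rfl⟩)
        · exact ⟨j, rfl⟩
        · exact ⟨_, rfl⟩
      · rintro ⟨j, rfl⟩
        by_cases hj : (j : ℕ) < i
        · exact Or.inl ⟨j, hj, rfl⟩
        · refine Or.inr ⟨Fin.rev j, ?_, by simp⟩
          rw [Fin.val_rev]
          omega
    have h1 := hP (pre F w i) (pre F (w ∘ Fin.rev) (u - i))
    rw [hsup, hU] at h1
    have h2 := Submodule.finrank_sup_add_finrank_inf_eq (P (pre F w i)) (P (pre F (w ∘ Fin.rev) (u - i)))
    rw [← h1, hu] at h2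
    have h3 := Submodule.finrank_le (P (pre F w i) ⊔ P (pre F (w ∘ Fin.rev) (u - i)))
    omega
  have hlast : ∀ w' : Fin u → V, span F (Set.range w') = U → finrank F (P (pre F w' u)) = u := by
    intro w' hw'
    have : pre F w' u = U := by
      rw [← hw']
      unfold pre
      congr 1
      ext x
      simp
    rw [this, hU, hu]
  have hrev : span F (Set.range (w ∘ Fin.rev)) = U := by
    rw [← hspan]
    congr 1
    exact Fin.revPerm.surjective.range_comp w
  have e1 : (∑ i : Fin u, finrank F (P (pre F w i))) + u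
      = ∑ i ∈ Finset.range (u + 1), finrank F (P (pre F w i)) := by
    rw [Finset.sum_range_succ, hlast w hspan, Fin.sum_univ_eq_sum_range (fun i => finrank F (P (pre F w i))) u]
  have e2 : (∑ i : Fin u, finrank F (P (pre F (w ∘ Fin.rev) i))) + u
      = ∑ i ∈ Finset.range (u + 1), finrank F (P (pre F (w ∘ Fin.rev) (u - i))) := by
    have := Finset.sum_range_reflect (fun i => finrank F (P (pre F (w ∘ Fin.rev) i))) (u + 1)
    have h' : ∑ i ∈ Finset.range (u + 1), finrank F (P (pre F (w ∘ Fin.rev) (u - i)))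
        = ∑ i ∈ Finset.range (u + 1), finrank F (P (pre F (w ∘ Fin.rev) i)) := by
      rw [← this]
      refine Finset.sum_congr rfl fun i _ => ?_
      rfl
    rw [h', Finset.sum_range_succ, hlast _ hrev,
      Fin.sum_univ_eq_sum_range (fun i => finrank F (P (pre F (w ∘ Fin.rev) i))) u]
  have e3 : ∑ i ∈ Finset.range (u + 1), (finrank F (P (pre F w i)) + finrank F (P (pre F (w ∘ Fin.rev) (u - i))))
      ≤ ∑ i ∈ Finset.range (u + 1), (u + finrank F V) :=
    Finset.sum_le_sum fun i hi => hpair i (by rw [Finset.mem_range] at hi; omega)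
  rw [Finset.sum_add_distrib, ← e1, ← e2, Finset.sum_const, Finset.card_range, smul_eq_mul] at e3
  omega

/-- weight of an ordered basis of a self-orthogonal space -/
lemma wt_eq (P : Submodule F V → Submodule F V)
    (hP : ∀ X Y, P (X ⊔ Y) = P X ⊓ P Y) (U : Submodule F V) (hU : P U = U)
    (u : ℕ) (w : Fin u → V) (hspan : span F (Set.range w) = U) :
    wt P w = (Fintype.card F : ℝ) ^ (-((∑ i : Fin u, finrank F (P (pre F w i)) : ℕ) : ℝ)) := by
  classical
  have hq : (0 : ℝ) < Fintype.card F := by exact_mod_cast Fintype.card_pos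
  have hmono : ∀ X Y, X ≤ Y → P Y ≤ P X := by
    intro X Y h
    have := hP X Y
    rw [sup_eq_right.mpr h] at this
    rw [this]; exact inf_le_left
  have hmem : ∀ i : Fin u, w i ∈ P (pre F w i) := by
    intro i
    have h1 : pre F w i ≤ U := by
      rw [← hspan]; exact span_mono (Set.image_subset_range _ _)
    have h2 : w i ∈ U := by rw [← hspan]; exact subset_span ⟨i, rfl⟩
    rw [← hU] at h2
    exact hmono _ _ h1 h2
  unfold wt
  rw [Real.rpow_neg hq.le, Real.rpow_natCast, ← Finset.prod_pow_eq_pow_sum, ← Finset.prod_inv_distrib]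
  refine Finset.prod_congr rfl fun i _ => ?_
  rw [if_pos (hmem i), Nat.card_eq_fintype_card, Module.card_eq_pow_finrank (K := F)]
  push_cast
  rw [one_div]


/-- Main counting bound for one dimension `u`. -/
lemma count_dim (P : Submodule F V → Submodule F V)
    (hP : ∀ X Y, P (X ⊔ Y) = P X ⊓ P Y) (u : ℕ) (hun : u ≤ finrank F V)
    (T : Finset (Submodule F V)) (hT : ∀ U ∈ T, P U = U ∧ finrank F U = u) :
    (T.card : ℝ) ≤ 4 * (Fintype.card F : ℝ) ^ ((((u + 1) * (finrank F V - u) : ℕ) : ℝ) / 2) := by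
  classical
  set q : ℝ := (Fintype.card F : ℝ) with hqdef
  have hq1 : 1 < Fintype.card F := Fintype.one_lt_card
  have hq : (0 : ℝ) < q := by rw [hqdef]; exact_mod_cast Fintype.card_pos
  set n := finrank F V with hn
  -- the set of ordered bases of U
  let B : Submodule F V → Finset (Fin u → V) := fun U =>
    Finset.univ.filter (fun w => span F (Set.range w) = U)
  -- number of ordered bases
  have hB : ∀ U ∈ T, q ^ (u * u) / 4 ≤ ((B U).card : ℝ) := by
    intro U hU
    obtain ⟨_, hd⟩ := hT U hU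
    have h1 := card_linearIndependent (K := F) (V := U) (k := u) (by rw [hd])
    have h2 := prod_bound (Fintype.card F) hq1 u
    rw [hd] at h1
    rw [← h1] at h2
    refine h2.trans ?_
    norm_cast
    rw [Nat.card_eq_fintype_card, ← Fintype.card_coe]
    refine Fintype.card_le_of_injective
      (fun s => ⟨fun i => ((s : Fin u → U) i : V), ?_⟩) ?_
    · simp only [B, Finset.mem_filter, Finset.mem_univ, true_and]
      have hli := s.2
      have htop : span F (Set.range (s : Fin u → U)) = ⊤ := by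
        apply hli.span_eq_top_of_card_eq_finrank'
        rw [hd]; simp
      have h3 : (fun i => ((s : Fin u → U) i : V)) = (U.subtype) ∘ (s : Fin u → U) := rfl
      rw [h3, Set.range_comp, Submodule.span_image, htop, Submodule.map_top, Submodule.range_subtype]
    · intro s t hst
      ext i
      have := congrFun (congrArg Subtype.val hst) i
      exact this
  -- sum of the weights over the bases of `U`
  have hW : ∀ U ∈ T, ((B U).card : ℝ) * q ^ (-((((u + 1) * (u + n) - 2 * u : ℕ) : ℝ) / 2))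
      ≤ ∑ w ∈ B U, wt P w := by
    intro U hU
    obtain ⟨hPU, hd⟩ := hT U hU
    -- reversal
    have hrev : ∑ w ∈ B U, wt P (w ∘ Fin.rev) = ∑ w ∈ B U, wt P w := by
      refine Finset.sum_bij' (fun w _ => w ∘ Fin.rev) (fun w _ => w ∘ Fin.rev) ?_ ?_ ?_ ?_ ?_
      · intro w hw
        simp only [B, Finset.mem_filter, Finset.mem_univ, true_and] at hw ⊢
        rw [← hw]; congr 1
        exact Fin.revPerm.surjective.range_comp w
      · intro w hw
        simp only [B, Finset.mem_filter, Finset.mem_univ, true_and] at hw ⊢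
        rw [← hw]; congr 1
        exact Fin.revPerm.surjective.range_comp w
      · intro w _; ext i; simp
      · intro w _; ext i; simp
      · intro w _; rfl
    have hpt : ∀ w ∈ B U, 2 * q ^ (-((((u + 1) * (u + n) - 2 * u : ℕ) : ℝ) / 2)) ≤
        wt P w + wt P (w ∘ Fin.rev) := by
      intro w hw
      simp only [B, Finset.mem_filter, Finset.mem_univ, true_and] at hw
      have hspan' : span F (Set.range (w ∘ Fin.rev)) = U := by
        rw [← hw]; congr 1
        exact Fin.revPerm.surjective.range_comp w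
      rw [wt_eq P hP U hPU u w hw, wt_eq P hP U hPU u (w ∘ Fin.rev) hspan']
      have hsum := sum_finrank_rev P hP U hPU u hd w hw
      rw [← hn] at hsum
      set a : ℕ := ∑ i : Fin u, finrank F (P (pre F w i)) with ha
      set b : ℕ := ∑ i : Fin u, finrank F (P (pre F (w ∘ Fin.rev) i)) with hb
      have hab : ((a + b : ℕ) : ℝ) ≤ (((u + 1) * (u + n) - 2 * u : ℕ) : ℝ) := by
        exact_mod_cast (by omega : a + b ≤ (u + 1) * (u + n) - 2 * u)
      push_cast at hab
      -- AM-GM
      have h1 : q ^ (-((((u + 1) * (u + n) - 2 * u : ℕ) : ℝ) / 2)) ≤ q ^ (-((a : ℝ) + b) / 2) := by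
        apply Real.rpow_le_rpow_of_exponent_le (by rw [hqdef]; exact_mod_cast hq1.le)
        linarith
      have h2 : q ^ (-((a : ℝ) + b) / 2) = q ^ (-(a : ℝ) / 2) * q ^ (-(b : ℝ) / 2) := by
        rw [← Real.rpow_add hq]; congr 1; ring
      have h3 : q ^ (-(a : ℝ)) = q ^ (-(a : ℝ) / 2) * q ^ (-(a : ℝ) / 2) := by
        rw [← Real.rpow_add hq]; congr 1; ring
      have h4 : q ^ (-(b : ℝ)) = q ^ (-(b : ℝ) / 2) * q ^ (-(b : ℝ) / 2) := by
        rw [← Real.rpow_add hq]; congr 1; ring
      rw [h3, h4]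
      nlinarith [sq_nonneg (q ^ (-(a : ℝ) / 2) - q ^ (-(b : ℝ) / 2))]
    have hs := Finset.sum_le_sum hpt
    rw [Finset.sum_add_distrib, hrev, Finset.sum_const, nsmul_eq_mul] at hs
    linarith
  -- disjointness and total mass
  have hdisj : ∑ U ∈ T, ∑ w ∈ B U, wt P w ≤ 1 := by
    rw [← sum_wt P u]
    rw [← Finset.sum_biUnion]
    · exact Finset.sum_le_sum_of_subset_of_nonneg (Finset.subset_univ _)
        (fun w _ _ => wt_nonneg P w)
    · intro U _ U' _ hne
      rw [Function.onFun, Finset.disjoint_left]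
      intro w hw hw'
      simp only [B, Finset.mem_filter, Finset.mem_univ, true_and] at hw hw'
      exact hne (hw.symm.trans hw')
  have hfin : (T.card : ℝ) * (q ^ (u * u) / 4 * q ^ (-((((u + 1) * (u + n) - 2 * u : ℕ) : ℝ) / 2))) ≤ 1 := by
    refine le_trans ?_ hdisj
    rw [← nsmul_eq_mul, ← Finset.sum_const]
    refine Finset.sum_le_sum fun U hU => le_trans ?_ (hW U hU)
    exact mul_le_mul_of_nonneg_right (hB U hU) (by positivity)
  have hexp : q ^ (u * u) / 4 * q ^ (-((((u + 1) * (u + n) - 2 * u : ℕ) : ℝ) / 2)) =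
      (4 * q ^ ((((u + 1) * (n - u) : ℕ) : ℝ) / 2))⁻¹ := by
    rw [mul_inv, ← Real.rpow_neg hq.le, ← Real.rpow_natCast, div_mul_eq_mul_div, ← Real.rpow_add hq]
    have h2u : 2 * u ≤ (u + 1) * (u + n) := by nlinarith
    rw [Nat.cast_sub h2u, Nat.cast_mul (u + 1) (n - u), Nat.cast_sub hun]
    push_cast
    have : ((u : ℝ) * u + -(((u + 1) * (u + n) - 2 * u) / 2)) = -((u + 1) * (n - u) / 2) := by ring
    rw [this]
    ring
  rw [hexp, ← div_eq_mul_inv, div_le_one (by positivity)] at hfin
  exact hfin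

end abs

section proc
variable {F V : Type*} [Field F] [Fintype F] [AddCommGroup V] [Module F V] [Fintype V]

open Classical in
/-- probability-like weight of reaching `U` from `K` by the random process, staying in `U`. -/
noncomputable def g (P : Submodule F V → Submodule F V) (U : Submodule F V) :
    ℕ → Submodule F V → ℝ
  | 0, K => if K = U then 1 else 0
  | k + 1, K => if K = U then 1 else
      (1 / (Nat.card K : ℝ)) *
        ∑ w ∈ Finset.univ.filter (fun w => w ∈ U), g P U k (K ⊓ P (span F {w}))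

lemma g_self (P : Submodule F V → Submodule F V) (U : Submodule F V) (k : ℕ) :
    g P U k U = 1 := by
  cases k <;> simp [g]

lemma g_nonneg (P : Submodule F V → Submodule F V) (U : Submodule F V) (k : ℕ)
    (K : Submodule F V) : 0 ≤ g P U k K := by
  induction k generalizing K with
  | zero => unfold g; split_ifs <;> norm_num
  | succ k ih =>
    unfold g
    split_ifs
    · norm_num
    · exact mul_nonneg (by positivity) (Finset.sum_nonneg fun w _ => ih _)

lemma g_eq_zero (P : Submodule F V → Submodule F V) (U : Submodule F V) (k : ℕ)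
    (K : Submodule F V) (h : ¬ U ≤ K) : g P U k K = 0 := by
  induction k generalizing K with
  | zero =>
    unfold g
    rw [if_neg]
    rintro rfl; exact h le_rfl
  | succ k ih =>
    unfold g
    rw [if_neg (by rintro rfl; exact h le_rfl)]
    rw [Finset.sum_eq_zero, mul_zero]
    intro w _
    exact ih _ (fun h' => h (h'.trans inf_le_left))

lemma kraft (P : Submodule F V → Submodule F V) (hmono : ∀ X Y, X ≤ Y → P Y ≤ P X)
    (T : Finset (Submodule F V)) (hT : ∀ U ∈ T, P U = U) (k : ℕ) (K : Submodule F V) :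
    ∑ U ∈ T, g P U k K ≤ 1 := by
  classical
  induction k generalizing K with
  | zero =>
    have : ∀ U ∈ T, g P U 0 K = if K = U then 1 else 0 := fun U _ => by simp [g]
    rw [Finset.sum_congr rfl this, Finset.sum_ite_eq]
    split_ifs <;> norm_num
  | succ k ih =>
    by_cases hK : K ∈ T
    · rw [Finset.sum_eq_single K]
      · rw [g_self]
      · intro U hU hne
        apply g_eq_zero
        intro hle
        have := hmono _ _ hle
        rw [hT U hU, hT K hK] at this
        exact hne (le_antisymm hle this)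
      · intro h; exact absurd hK h
    · have hpos : (0 : ℝ) < Nat.card K := by exact_mod_cast Nat.card_pos
      have h1 : ∀ U ∈ T, g P U (k + 1) K ≤ (1 / (Nat.card K : ℝ)) *
          ∑ w ∈ Finset.univ.filter (fun w => w ∈ K), g P U k (K ⊓ P (span F {w})) := by
        intro U hU
        have hne : K ≠ U := by rintro rfl; exact hK hU
        by_cases hle : U ≤ K
        · conv_lhs => unfold g
          rw [if_neg hne]
          apply mul_le_mul_of_nonneg_left _ (by positivity)
          apply Finset.sum_le_sum_of_subset_of_nonneg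
          · intro w hw
            simp only [Finset.mem_filter, Finset.mem_univ, true_and] at hw ⊢
            exact hle hw
          · intro w _ _; exact g_nonneg _ _ _ _
        · rw [g_eq_zero P U _ K hle]
          exact mul_nonneg (by positivity) (Finset.sum_nonneg fun w _ => g_nonneg _ _ _ _)
      refine (Finset.sum_le_sum h1).trans ?_
      rw [← Finset.mul_sum, Finset.sum_comm]
      have h2 : ∑ w ∈ Finset.univ.filter (fun w => w ∈ K), ∑ U ∈ T, g P U k (K ⊓ P (span F {w}))
          ≤ ∑ w ∈ Finset.univ.filter (fun w => w ∈ K), (1 : ℝ) :=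
        Finset.sum_le_sum fun w _ => ih _
      rw [Finset.sum_const, nsmul_eq_mul, mul_one] at h2
      have h3 : (Finset.univ.filter (fun w => w ∈ K)).card = Nat.card K := by
        rw [Nat.card_eq_fintype_card, Fintype.card_subtype]
      rw [h3] at h2
      calc _ ≤ (1 / (Nat.card K : ℝ)) * (Nat.card K : ℝ) :=
            mul_le_mul_of_nonneg_left h2 (by positivity)
        _ = 1 := by field_simp

/-- `G_d = q^{-d(d+1)/2} ∏ (1 - q^{-j})` -/
noncomputable def Gd (q : ℝ) : ℕ → ℝ
  | 0 => 1
  | d + 1 => (q⁻¹) ^ (d + 1) * (1 - (q⁻¹) ^ (d + 1)) * Gd q d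

lemma Gd_nonneg (q : ℝ) (hq : 2 ≤ q) (d : ℕ) : 0 ≤ Gd q d := by
  induction d with
  | zero => simp [Gd]
  | succ d ih =>
    unfold Gd
    have h0 : 0 ≤ q⁻¹ := by positivity
    have h1 : q⁻¹ ≤ 1 := by
      rw [inv_le_one₀ (by linarith)]; linarith
    have : (q⁻¹) ^ (d + 1) ≤ 1 := pow_le_one₀ h0 h1
    exact mul_nonneg (mul_nonneg (by positivity) (by linarith)) ih

lemma Gd_succ_le (q : ℝ) (hq : 2 ≤ q) (d : ℕ) : Gd q (d + 1) ≤ q⁻¹ * Gd q d := by
  have h0 : 0 < q⁻¹ := by positivity
  have h1 : q⁻¹ ≤ 1 := by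
    rw [inv_le_one₀ (by linarith)]; linarith
  conv_lhs => unfold Gd
  apply mul_le_mul_of_nonneg_right _ (Gd_nonneg q hq d)
  have h2 : (q⁻¹) ^ (d + 1) ≤ q⁻¹ := by
    rw [pow_succ]
    have : (q⁻¹) ^ d ≤ 1 := pow_le_one₀ h0.le h1
    nlinarith
  have h3 : 0 < (q⁻¹) ^ (d + 1) := by positivity
  nlinarith

lemma Gd_anti (q : ℝ) (hq : 2 ≤ q) {a b : ℕ} (hab : a ≤ b) : Gd q b ≤ Gd q a := by
  induction hab with
  | refl => exact le_rfl
  | step _ ih =>
    refine (Gd_succ_le q hq _).trans (le_trans ?_ ih)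
    have h1 : q⁻¹ ≤ 1 := by
      rw [inv_le_one₀ (by linarith)]; linarith
    nlinarith [Gd_nonneg q hq ‹ℕ›, Gd_nonneg q hq a]


lemma card_real (X : Submodule F V) :
    (Nat.card X : ℝ) = (Fintype.card F : ℝ) ^ (finrank F X) := by
  classical
  rw [Nat.card_eq_fintype_card, Module.card_eq_pow_finrank (K := F)]
  push_cast; rfl

lemma card_filter_mem (X : Submodule F V) [DecidablePred (· ∈ X)] :
    ((Finset.univ.filter (fun w => w ∈ X)).card : ℝ) = (Nat.card X : ℝ) := by
  rw [Nat.card_eq_fintype_card, Fintype.card_subtype]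

open Classical in
lemma count_pairs (P : Submodule F V → Submodule F V) (hG : ∀ X Y, X ≤ P Y ↔ Y ≤ P X)
    (U : Submodule F V) (hU : P U = U) (K : Submodule F V) (hUK : U ≤ K) :
    ∑ w ∈ Finset.univ.filter (fun w => w ∈ U), (Nat.card (K ⊓ P (span F {w}) : Submodule F V) : ℝ)
      ≤ (Nat.card U : ℝ) * Nat.card U +
        ((Nat.card K : ℝ) - Nat.card U) * ((Nat.card U : ℝ) / Fintype.card F) := by
  have h1 : ∀ w : V, (Nat.card (K ⊓ P (span F {w}) : Submodule F V) : ℝ) =
      ∑ y ∈ Finset.univ.filter (fun y => y ∈ K), (if y ∈ P (span F {w}) then (1 : ℝ) else 0) := by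
    intro w
    rw [← card_filter_mem, Finset.sum_ite, Finset.sum_const_zero, add_zero, Finset.sum_const,
      nsmul_eq_mul, mul_one, Finset.filter_filter]
    simp only [Submodule.mem_inf]
  simp only [h1]
  rw [Finset.sum_comm]
  have h2 : ∀ y ∈ Finset.univ.filter (fun y => y ∈ K),
      ∑ w ∈ Finset.univ.filter (fun w => w ∈ U), (if y ∈ P (span F {w}) then (1 : ℝ) else 0)
      ≤ if y ∈ U then (Nat.card U : ℝ) else (Nat.card U : ℝ) / Fintype.card F := by
    intro y hy
    rw [Finset.sum_ite, Finset.sum_const_zero, add_zero, Finset.sum_const,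
      nsmul_eq_mul, mul_one, Finset.filter_filter]
    split_ifs with hyU
    · rw [← card_filter_mem]
      exact_mod_cast Finset.card_le_card (fun w hw => by
        simp only [Finset.mem_filter, Finset.mem_univ, true_and] at hw ⊢
        exact hw.1)
    · have h3 : Finset.univ.filter (fun w => w ∈ U ∧ y ∈ P (span F {w})) =
          Finset.univ.filter (fun w => w ∈ (U ⊓ P (span F {y}) : Submodule F V)) := by
        ext w
        simp only [Finset.mem_filter, Finset.mem_univ, true_and, Submodule.mem_inf]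
        refine and_congr_right fun _ => ?_
        rw [← Submodule.span_singleton_le_iff_mem, ← Submodule.span_singleton_le_iff_mem]
        exact hG _ _
      rw [h3, card_filter_mem, card_real, card_real]
      have h4 : U ⊓ P (span F {y}) < U := by
        refine lt_of_le_of_ne inf_le_left ?_
        intro h
        have h5 : U ≤ P (span F {y}) := by rw [← h]; exact inf_le_right
        rw [hG, hU, Submodule.span_singleton_le_iff_mem] at h5
        exact hyU h5
      have h6 := Submodule.finrank_lt_finrank_of_lt h4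
      have hq : (1 : ℝ) < Fintype.card F := by exact_mod_cast Fintype.one_lt_card
      rw [le_div_iff₀ (by linarith), ← pow_succ]
      exact pow_le_pow_right₀ hq.le h6
  refine (Finset.sum_le_sum h2).trans ?_
  rw [Finset.sum_ite, Finset.sum_const, Finset.sum_const, nsmul_eq_mul, nsmul_eq_mul,
    Finset.filter_filter, Finset.filter_filter]
  have h7 : Finset.univ.filter (fun y => y ∈ K ∧ y ∈ U) = Finset.univ.filter (fun y => y ∈ U) := by
    ext y
    simp only [Finset.mem_filter, Finset.mem_univ, true_and]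
    exact ⟨fun h => h.2, fun h => ⟨hUK h, h⟩⟩
  have h8 : ((Finset.univ.filter (fun y => y ∈ K ∧ ¬ y ∈ U)).card : ℝ) =
      (Nat.card K : ℝ) - Nat.card U := by
    rw [← card_filter_mem K, ← card_filter_mem U, eq_sub_iff_add_eq]
    norm_cast
    rw [← h7, ← Finset.filter_filter, ← Finset.filter_filter, add_comm]
    exact Finset.card_filter_add_card_filter_not _
  rw [h7, h8, card_filter_mem]

lemma key (P : Submodule F V → Submodule F V) (hG : ∀ X Y, X ≤ P Y ↔ Y ≤ P X)
    (U : Submodule F V) (hU : P U = U) (d : ℕ) :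
    ∀ (k : ℕ) (K : Submodule F V), U ≤ K → finrank F K = finrank F U + d → d ≤ k →
      Gd (Fintype.card F) d ≤ g P U k K := by
  classical
  have hq2 : (2 : ℝ) ≤ Fintype.card F := by exact_mod_cast Fintype.one_lt_card
  set q : ℝ := (Fintype.card F : ℝ) with hqdef
  have hq0 : 0 < q := by linarith
  induction d using Nat.strong_induction_on with
  | _ d ih =>
    intro k K hUK hfr hk
    rcases d with _ | d
    · have : K = U := by
        symm
        apply Submodule.eq_of_le_of_finrank_eq hUK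
        rw [hfr]; simp
      rw [this, g_self]
      simp [Gd]
    · obtain ⟨k, rfl⟩ : ∃ k', k = k' + 1 := ⟨k - 1, by omega⟩
      have hne : K ≠ U := by
        rintro rfl; omega
      have hrec : g P U (k + 1) K = (1 / (Nat.card K : ℝ)) *
        ∑ w ∈ Finset.univ.filter (fun w => w ∈ U), g P U k (K ⊓ P (span F {w})) := by
        conv_lhs => unfold g
        rw [if_neg hne]
      rw [hrec]
      have hqi0 : 0 < q⁻¹ := by positivity
      have hqi1 : q⁻¹ ≤ 1 / 2 := by
        rw [inv_le_comm₀ hq0 (by norm_num)]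
        norm_num; exact_mod_cast hq2
      have hKpos : (0 : ℝ) < Nat.card K := by exact_mod_cast Nat.card_pos
      have hUpos : (0 : ℝ) < Nat.card U := by exact_mod_cast Nat.card_pos
      -- pointwise bound
      have hpt : ∀ w ∈ Finset.univ.filter (fun w => w ∈ U),
          Gd q d * ((1 - (Nat.card (K ⊓ P (span F {w}) : Submodule F V) : ℝ) / Nat.card K) / (1 - q⁻¹))
          ≤ g P U k (K ⊓ P (span F {w})) := by
        intro w hw
        simp only [Finset.mem_filter, Finset.mem_univ, true_and] at hw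
        set K' := K ⊓ P (span F {w}) with hK'
        have hUK' : U ≤ K' := by
          refine le_inf hUK ?_
          rw [hG, hU, Submodule.span_singleton_le_iff_mem]
          exact hw
        have hle : K' ≤ K := inf_le_left
        have hf1 := Submodule.finrank_mono hUK'
        have hf2 := Submodule.finrank_mono hle
        obtain ⟨e, he⟩ : ∃ e, finrank F K' = finrank F U + e := ⟨_, (Nat.add_sub_of_le hf1).symm⟩
        have hed : e ≤ d + 1 := by omega
        have hratio : (Nat.card K' : ℝ) / Nat.card K = (q⁻¹) ^ (d + 1 - e) := by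
          rw [card_real, card_real, ← hqdef, he, hfr, inv_pow, div_eq_iff (by positivity),
            inv_mul_eq_div, eq_div_iff (by positivity), ← pow_add]
          congr 1; omega
        rw [hratio]
        rcases Nat.lt_or_ge e (d + 1) with hlt | hge
        · have hIH := ih e hlt k K' hUK' he (by omega)
          refine le_trans ?_ hIH
          have h1q : 0 < 1 - q⁻¹ := by linarith
          rcases Nat.lt_or_ge e d with hlt2 | hge2
          · -- s ≥ 2
            have h9 : Gd q d ≤ q⁻¹ * Gd q e := by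
              obtain ⟨d', rfl⟩ : ∃ d', d = d' + 1 := ⟨d - 1, by omega⟩
              refine (Gd_succ_le q hq2 d').trans ?_
              apply mul_le_mul_of_nonneg_left (Gd_anti q hq2 (by omega)) hqi0.le
            have h10 : (1 - (q⁻¹) ^ (d + 1 - e)) / (1 - q⁻¹) ≤ 1 / (1 - q⁻¹) := by
              apply div_le_div_of_nonneg_right _ h1q.le
              have : 0 < (q⁻¹) ^ (d + 1 - e) := by positivity
              linarith
            have h11 : 0 ≤ Gd q e := Gd_nonneg q hq2 e
            have h11' : 0 ≤ Gd q d := Gd_nonneg q hq2 d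
            calc Gd q d * ((1 - (q⁻¹) ^ (d + 1 - e)) / (1 - q⁻¹))
                ≤ Gd q d * (1 / (1 - q⁻¹)) := mul_le_mul_of_nonneg_left h10 h11'
              _ ≤ (q⁻¹ * Gd q e) * (1 / (1 - q⁻¹)) :=
                  mul_le_mul_of_nonneg_right h9 (by positivity)
              _ ≤ Gd q e := by
                  rw [mul_one_div, div_le_iff₀ h1q]
                  nlinarith
          · have hed' : e = d := by omega
            subst hed'
            have : e + 1 - e = 1 := by omega
            rw [this, pow_one, div_self h1q.ne', mul_one]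
        · have : e = d + 1 := by omega
          subst this
          simp [g_nonneg]
      have hsum := Finset.sum_le_sum hpt
      rw [← Finset.mul_sum, ← Finset.sum_div, Finset.sum_sub_distrib, ← Finset.sum_div,
        Finset.sum_const, nsmul_eq_mul, mul_one, card_filter_mem] at hsum
      have hcp := count_pairs P hG U hU K hUK
      rw [← hqdef] at hcp
      have h1q : 0 < 1 - q⁻¹ := by linarith
      set S := ∑ w ∈ Finset.univ.filter (fun w => w ∈ U),
        (Nat.card (K ⊓ P (span F {w}) : Submodule F V) : ℝ) with hS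
      have hKU : (Nat.card U : ℝ) = (q⁻¹) ^ (d + 1) * Nat.card K := by
        rw [card_real, card_real, ← hqdef, hfr, inv_pow, inv_mul_eq_div, eq_div_iff (by positivity),
          ← pow_add]
      calc Gd q (d + 1) = (1 / (Nat.card K : ℝ)) * (Gd q d * (((Nat.card U : ℝ) * (1 - (q⁻¹) ^ (d + 1))))) := by
            rw [hKU]
            conv_lhs => unfold Gd
            field_simp
        _ ≤ (1 / (Nat.card K : ℝ)) * (Gd q d * (((Nat.card U : ℝ) - S / Nat.card K) / (1 - q⁻¹))) := by
            apply mul_le_mul_of_nonneg_left _ (by positivity)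
            apply mul_le_mul_of_nonneg_left _ (Gd_nonneg q hq2 d)
            rw [le_div_iff₀ h1q, le_sub_comm, div_le_iff₀ hKpos]
            refine hcp.trans ?_
            rw [hKU]
            have : (Nat.card K : ℝ) ≠ 0 := hKpos.ne'
            apply le_of_eq
            rw [div_eq_mul_inv _ q]
            ring
        _ ≤ _ := by
            apply mul_le_mul_of_nonneg_left hsum (by positivity)

end proc

section quad
variable {F V : Type*} [Field F] [Fintype F] [AddCommGroup V] [Module F V] [Fintype V]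

lemma card_split (p r : V → Prop) [DecidablePred p] [DecidablePred (fun w => p w ∧ r w)]
    [DecidablePred (fun w => p w ∧ ¬ r w)] : (Finset.univ.filter p).card =
    (Finset.univ.filter (fun w => p w ∧ r w)).card +
    (Finset.univ.filter (fun w => p w ∧ ¬ r w)).card := by
  classical
  have h := (Finset.card_filter_add_card_filter_not (s := Finset.univ.filter p) r).symm
  rw [Finset.filter_filter, Finset.filter_filter] at h
  convert h

open Classical in
/-- A nonzero value of a `2 × 2` determinant of linear functionals on `U` is attained on at least a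
quarter of `U`. -/
lemma quad_quarter (U : Submodule F V) (a b c d : V →ₗ[F] F) (w0 : V) (hw0 : w0 ∈ U)
    (h0 : a w0 * d w0 - b w0 * c w0 ≠ 0) :
    (Finset.univ.filter (fun w => w ∈ U)).card ≤
      4 * (Finset.univ.filter (fun w => w ∈ U ∧ a w * d w - b w * c w ≠ 0)).card := by
  set M : V → F := fun w => a w * d w - b w * c w with hM
  set β : V → F := fun w => a w * d w0 + a w0 * d w - b w * c w0 - b w0 * c w with hβ
  have hid : ∀ (w : V) (l : F), M (w + l • w0) = M w + l * β w + l ^ 2 * M w0 := by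
    intro w l
    simp only [hM, hβ, map_add, map_smul, smul_eq_mul]
    ring
  have h0' : M w0 ≠ 0 := h0
  set N := Finset.univ.filter (fun w => w ∈ U ∧ M w ≠ 0) with hN
  have hsplit : (Finset.univ.filter (fun w => w ∈ U)).card =
      N.card + (Finset.univ.filter (fun w => w ∈ U ∧ M w = 0)).card := by
    rw [add_comm]
    exact card_split (fun w => w ∈ U) (fun w => M w = 0)
  have hshift : ∀ (Z : Finset V) (v : V) (_ : v ∈ U), (∀ w ∈ Z, w ∈ U ∧ M (w + v) ≠ 0) →
      Z.card ≤ N.card := by
    intro Z v hv hZ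
    refine Finset.card_le_card_of_injOn (fun w => w + v) ?_ ?_
    · intro w hw
      have hw' := hZ w (by simpa using hw)
      simp only [hN, Finset.coe_filter, Finset.mem_univ, true_and, Set.mem_ofPred_eq]
      exact ⟨U.add_mem hw'.1 hv, hw'.2⟩
    · intro x _ y _ hxy
      exact add_right_cancel hxy
  by_cases hl : ∃ l : F, l ≠ 0 ∧ l ≠ 1
  · obtain ⟨l, hl0, hl1⟩ := hl
    have hZ1 : (Finset.univ.filter (fun w => (w ∈ U ∧ M w = 0) ∧ β w ≠ - M w0)).card ≤ N.card := by
      refine hshift _ w0 hw0 ?_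
      intro w hw
      simp only [Finset.mem_filter, Finset.mem_univ, true_and] at hw
      refine ⟨hw.1.1, ?_⟩
      have := hid w 1
      rw [one_smul, hw.1.2] at this
      rw [this]
      intro h
      apply hw.2
      linear_combination h
    have hZ2 : (Finset.univ.filter (fun w => (w ∈ U ∧ M w = 0) ∧ ¬ β w ≠ - M w0)).card ≤ N.card := by
      refine hshift _ (l • w0) (U.smul_mem _ hw0) ?_
      intro w hw
      simp only [Finset.mem_filter, Finset.mem_univ, true_and, not_not] at hw
      refine ⟨hw.1.1, ?_⟩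
      rw [hid w l, hw.1.2, hw.2]
      have : (0 : F) + l * - M w0 + l ^ 2 * M w0 = l * (l - 1) * M w0 := by ring
      rw [this]
      exact mul_ne_zero (mul_ne_zero hl0 (sub_ne_zero.mpr hl1)) h0'
    have hsum : (Finset.univ.filter (fun w => w ∈ U ∧ M w = 0)).card =
        (Finset.univ.filter (fun w => (w ∈ U ∧ M w = 0) ∧ β w ≠ - M w0)).card +
        (Finset.univ.filter (fun w => (w ∈ U ∧ M w = 0) ∧ ¬ β w ≠ - M w0)).card :=
      card_split (fun w => w ∈ U ∧ M w = 0) (fun w => β w ≠ - M w0)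
    omega
  · push Not at hl
    have h01 : ∀ x : F, x ≠ 0 → x = 1 := hl
    have h11 : (1 : F) + 1 = 0 := by
      by_contra h
      have := h01 _ h
      have h2 : (1 : F) = 0 := by linear_combination this
      exact one_ne_zero h2
    have hM0 : M w0 = 1 := h01 _ h0'
    have hZ1 : (Finset.univ.filter (fun w => (w ∈ U ∧ β w = 0) ∧ M w = 0)).card ≤ N.card := by
      refine hshift _ w0 hw0 ?_
      intro w hw
      simp only [Finset.mem_filter, Finset.mem_univ, true_and] at hw
      refine ⟨hw.1.1, ?_⟩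
      have := hid w 1
      rw [one_smul, hw.2, hw.1.2, hM0] at this
      rw [this]
      simp
    have hH : (Finset.univ.filter (fun w => w ∈ U ∧ β w = 0)).card ≤ 2 * N.card := by
      have h1 : (Finset.univ.filter (fun w => w ∈ U ∧ β w = 0)).card =
          (Finset.univ.filter (fun w => (w ∈ U ∧ β w = 0) ∧ M w = 0)).card +
          (Finset.univ.filter (fun w => (w ∈ U ∧ β w = 0) ∧ ¬ M w = 0)).card :=
        card_split (fun w => w ∈ U ∧ β w = 0) (fun w => M w = 0)
      have h2 : (Finset.univ.filter (fun w => (w ∈ U ∧ β w = 0) ∧ ¬ M w = 0)).card ≤ N.card := by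
        apply Finset.card_le_card
        intro w hw
        simp only [hN, Finset.mem_filter, Finset.mem_univ, true_and] at hw ⊢
        exact ⟨hw.1.1, hw.2⟩
      omega
    have hHc : (Finset.univ.filter (fun w => w ∈ U ∧ ¬ β w = 0)).card ≤
        (Finset.univ.filter (fun w => w ∈ U ∧ β w = 0)).card := by
      rcases (Finset.univ.filter (fun w => w ∈ U ∧ ¬ β w = 0)).eq_empty_or_nonempty with he | ⟨w1, hw1⟩
      · rw [he]; simp
      · simp only [Finset.mem_filter, Finset.mem_univ, true_and] at hw1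
        refine Finset.card_le_card_of_injOn (fun w => w + w1) ?_ ?_
        · intro w hw
          simp only [Finset.coe_filter, Finset.mem_univ, true_and, Set.mem_ofPred_eq] at hw ⊢
          refine ⟨U.add_mem hw.1 hw1.1, ?_⟩
          have e : β (w + w1) = β w + β w1 := by
            simp only [hβ, map_add]; ring
          rw [e, h01 _ hw.2, h01 _ hw1.2, h11]
        · intro x _ y _ hxy
          exact add_right_cancel hxy
    have hU : (Finset.univ.filter (fun w => w ∈ U)).card =
        (Finset.univ.filter (fun w => w ∈ U ∧ β w = 0)).card +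
        (Finset.univ.filter (fun w => w ∈ U ∧ ¬ β w = 0)).card :=
      card_split (fun w => w ∈ U) (fun w => β w = 0)
    omega

end quad

section orth
variable {F V ι : Type*} [Field F] [Fintype F] [AddCommGroup V] [Module F V] [Fintype V]

/-- the space orthogonal to `X` for a family of bilinear forms -/
def orth (B : ι → V →ₗ[F] V →ₗ[F] F) (X : Submodule F V) : Submodule F V where
  carrier := {y | ∀ x ∈ X, ∀ a, B a x y = 0}
  add_mem' := by
    intro y z hy hz x hx a
    rw [map_add, hy x hx a, hz x hx a, add_zero]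
  zero_mem' := by
    intro x _ a
    rw [map_zero]
  smul_mem' := by
    intro c y hy x hx a
    rw [map_smul, hy x hx a, smul_zero]

lemma mem_orth {B : ι → V →ₗ[F] V →ₗ[F] F} {X : Submodule F V} {y : V} :
    y ∈ orth B X ↔ ∀ x ∈ X, ∀ a, B a x y = 0 := Iff.rfl

lemma mem_orth_span {B : ι → V →ₗ[F] V →ₗ[F] F} {w y : V} :
    y ∈ orth B (span F {w}) ↔ ∀ a, B a w y = 0 := by
  rw [mem_orth]
  constructor
  · intro h a; exact h w (mem_span_singleton_self w) a
  · intro h x hx a
    obtain ⟨c, rfl⟩ := mem_span_singleton.mp hx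
    rw [map_smul, LinearMap.smul_apply, h a, smul_zero]

lemma orth_sup (B : ι → V →ₗ[F] V →ₗ[F] F) (X Y : Submodule F V) :
    orth B (X ⊔ Y) = orth B X ⊓ orth B Y := by
  ext y
  rw [Submodule.mem_inf]
  simp only [mem_orth]
  constructor
  · intro h
    exact ⟨fun x hx => h x (mem_sup_left hx), fun x hx => h x (mem_sup_right hx)⟩
  · rintro ⟨h1, h2⟩ x hx a
    obtain ⟨x1, hx1, x2, hx2, rfl⟩ := mem_sup.mp hx
    rw [map_add, LinearMap.add_apply, h1 x1 hx1 a, h2 x2 hx2 a, add_zero]

lemma orth_galois (B : ι → V →ₗ[F] V →ₗ[F] F) (hB : ∀ a x y, B a x y = - B a y x)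
    (X Y : Submodule F V) : X ≤ orth B Y ↔ Y ≤ orth B X := by
  constructor
  · intro h y hy x hx a
    rw [hB, h hx y hy a, neg_zero]
  · intro h x hx y hy a
    rw [hB, h hy x hx a, neg_zero]

lemma orth_mono (B : ι → V →ₗ[F] V →ₗ[F] F) {X Y : Submodule F V} (h : X ≤ Y) :
    orth B Y ≤ orth B X := fun _ hy x hx a => hy x (h hx) a

lemma orth_bot (B : ι → V →ₗ[F] V →ₗ[F] F) : orth B ⊥ = ⊤ := by
  ext y
  simp [mem_orth]

lemma finrank_inf_ker (K : Submodule F V) (f : V →ₗ[F] F) :
    finrank F K ≤ finrank F (K ⊓ LinearMap.ker f : Submodule F V) + 1 := by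
  have h1 := Submodule.finrank_sup_add_finrank_inf_eq K (LinearMap.ker f)
  have h2 := LinearMap.finrank_range_add_finrank_ker f
  have h3 : finrank F (LinearMap.range f) ≤ 1 := by
    have := Submodule.finrank_le (LinearMap.range f)
    rwa [Module.finrank_self] at this
  have h4 := Submodule.finrank_le (K ⊔ LinearMap.ker f)
  omega

lemma exists_minor (B : ι → V →ₗ[F] V →ₗ[F] F) (K : Submodule F V) (w0 : V)
    (h : finrank F (K ⊓ orth B (span F {w0}) : Submodule F V) + 2 ≤ finrank F K) :
    ∃ a b y1 y2, y1 ∈ K ∧ y2 ∈ K ∧ B a w0 y1 * B b w0 y2 - B a w0 y2 * B b w0 y1 ≠ 0 := by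
  have h1 : ∃ a, ∃ y ∈ K, B a w0 y ≠ 0 := by
    by_contra hcon
    push Not at hcon
    have : K ⊓ orth B (span F {w0}) = K := by
      apply inf_eq_left.mpr
      intro y hy
      rw [mem_orth_span]
      intro a; exact hcon a y hy
    rw [this] at h
    omega
  obtain ⟨a, y1, hy1, hay1⟩ := h1
  have h2 := finrank_inf_ker K (B a w0)
  have h3 : K ⊓ orth B (span F {w0}) < K ⊓ LinearMap.ker (B a w0) := by
    refine lt_of_le_of_ne ?_ ?_
    · refine le_inf inf_le_left ?_
      intro y hy
      rw [LinearMap.mem_ker]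
      exact mem_orth_span.mp hy.2 a
    · intro heq
      rw [heq] at h
      omega
  obtain ⟨y2, hy2, hny2⟩ := SetLike.exists_of_lt h3
  have h4 : ∃ b, B b w0 y2 ≠ 0 := by
    by_contra hcon
    push Not at hcon
    exact hny2 ⟨hy2.1, mem_orth_span.mpr hcon⟩
  obtain ⟨b, hb⟩ := h4
  refine ⟨a, b, y1, y2, hy1, hy2.1, ?_⟩
  have h5 : B a w0 y2 = 0 := LinearMap.mem_ker.mp hy2.2
  rw [h5, zero_mul, sub_zero]
  exact mul_ne_zero hay1 hb

lemma minor_drop (B : ι → V →ₗ[F] V →ₗ[F] F) (K : Submodule F V) (w : V) (a b : ι) (y1 y2 : V)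
    (hy1 : y1 ∈ K) (hy2 : y2 ∈ K) (hne : B a w y1 * B b w y2 - B a w y2 * B b w y1 ≠ 0) :
    finrank F (K ⊓ orth B (span F {w}) : Submodule F V) + 2 ≤ finrank F K := by
  have hcoef : ∀ s t : F, (∀ a, B a w (s • y1 + t • y2) = 0) → s = 0 ∧ t = 0 := by
    intro s t h
    have ha := h a
    have hb := h b
    rw [map_add, map_smul, map_smul, smul_eq_mul, smul_eq_mul] at ha hb
    constructor
    · have : s * (B a w y1 * B b w y2 - B a w y2 * B b w y1) = 0 := by
        linear_combination (B b w y2) * ha - (B a w y2) * hb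
      exact (mul_eq_zero.mp this).resolve_right hne
    · have : t * (B a w y1 * B b w y2 - B a w y2 * B b w y1) = 0 := by
        linear_combination (B a w y1) * hb - (B b w y1) * ha
      exact (mul_eq_zero.mp this).resolve_right hne
  have hli : LinearIndependent F ![y1, y2] := by
    rw [LinearIndependent.pair_iff]
    intro s t hst
    apply hcoef
    intro a
    rw [hst, map_zero]
  have hfr : finrank F (span F (Set.range ![y1, y2])) = 2 := by
    rw [finrank_span_eq_card hli]; simp
  have hdisj : (K ⊓ orth B (span F {w})) ⊓ span F (Set.range ![y1, y2]) = ⊥ := by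
    rw [eq_bot_iff]
    rintro y ⟨⟨_, hy⟩, hy'⟩
    rw [Matrix.range_cons, Matrix.range_cons, Matrix.range_empty, Set.union_empty] at hy'
    have hy'' : y ∈ span F ({y1, y2} : Set V) := hy'
    rw [mem_span_pair] at hy''
    obtain ⟨s, t, rfl⟩ := hy''
    obtain ⟨rfl, rfl⟩ := hcoef s t (mem_orth_span.mp hy)
    simp
  have h1 := Submodule.finrank_sup_add_finrank_inf_eq (K ⊓ orth B (span F {w}))
    (span F (Set.range ![y1, y2]))
  rw [hdisj, finrank_bot, hfr] at h1
  have h2 : (K ⊓ orth B (span F {w})) ⊔ span F (Set.range ![y1, y2]) ≤ K := by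
    refine sup_le inf_le_left ?_
    rw [span_le]
    rintro y ⟨i, rfl⟩
    fin_cases i
    · exact hy1
    · exact hy2
  have h3 := Submodule.finrank_mono h2
  omega

/-- the hypothesis that all drops are at most one forces a small codimension. -/
lemma finrank_le_of_drop_le_one (B : ι → V →ₗ[F] V →ₗ[F] F) (U : Submodule F V)
    (hU : orth B U = U) (K0 : Submodule F V)
    (hdrop : ∀ w ∈ U, finrank F K0 ≤ finrank F (K0 ⊓ orth B (span F {w}) : Submodule F V) + 1) :
    ∀ (r : ℕ) (X : Submodule F V), X ≤ U → orth B X ≤ K0 → finrank F X + r = finrank F U →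
      finrank F (orth B X) ≤ finrank F U + r := by
  intro r
  induction r with
  | zero =>
    intro X hX _ hfr
    have : X = U := Submodule.eq_of_le_of_finrank_eq hX (by omega)
    rw [this, hU]; simp
  | succ r ih =>
    intro X hX hXK hfr
    have hlt : X < U := by
      refine lt_of_le_of_ne hX ?_
      rintro rfl; omega
    obtain ⟨w, hwU, hwX⟩ := SetLike.exists_of_lt hlt
    have hX' : X ⊔ span F {w} ≤ U := sup_le hX (by
      rw [span_singleton_le_iff_mem]; exact hwU)
    have hfX' : finrank F (X ⊔ span F {w} : Submodule F V) = finrank F X + 1 := by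
      have h1 := Submodule.finrank_sup_add_finrank_inf_eq X (span F {w})
      have hw0 : w ≠ 0 := by rintro rfl; exact hwX X.zero_mem
      rw [finrank_span_singleton hw0] at h1
      have h2 : X ⊓ span F {w} = ⊥ := by
        rw [eq_bot_iff]
        rintro y ⟨hy1, hy2⟩
        obtain ⟨c, rfl⟩ := mem_span_singleton.mp hy2
        by_cases hc : c = 0
        · simp [hc]
        · exact absurd ((Submodule.smul_mem_iff _ hc).mp hy1) hwX
      rw [h2, finrank_bot] at h1
      omega
    have ih' := ih (X ⊔ span F {w}) hX' (by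
      rw [orth_sup]; exact inf_le_left.trans hXK) (by omega)
    rw [orth_sup] at ih'
    -- drop at `orth X` is at most the drop at `K0`
    have h1 := Submodule.finrank_sup_add_finrank_inf_eq (orth B X) (K0 ⊓ orth B (span F {w}))
    have h2 : orth B X ⊔ (K0 ⊓ orth B (span F {w})) ≤ K0 := sup_le hXK inf_le_left
    have h3 := Submodule.finrank_mono h2
    have h4 : orth B X ⊓ (K0 ⊓ orth B (span F {w})) = orth B X ⊓ orth B (span F {w}) := by
      apply le_antisymm
      · exact le_inf inf_le_left (inf_le_right.trans inf_le_right)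
      · exact le_inf inf_le_left (le_inf (inf_le_left.trans hXK) inf_le_right)
    rw [h4] at h1
    have h5 := hdrop w hwU
    omega

end orth

/-- triangular numbers -/
def tri : ℕ → ℕ
  | 0 => 0
  | r + 1 => tri r + (r + 1)

lemma tri_succ (r : ℕ) : tri (r + 1) = tri r + (r + 1) := rfl

lemma two_mul_tri (r : ℕ) : 2 * tri r = r * (r + 1) := by
  induction r with
  | zero => rfl
  | succ r ih => rw [tri_succ]; ring_nf at *; omega

lemma tri_mono {a b : ℕ} (h : a ≤ b) : tri a ≤ tri b := by
  induction h with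
  | refl => exact le_rfl
  | step _ ih => exact ih.trans (by rw [Nat.succ_eq_add_one, tri_succ]; omega)

lemma Gd_lower_aux (q : ℝ) (hq : 2 ≤ q) (d : ℕ) :
    (1 / 4 + (1 / 2) ^ (d + 1 + 1)) * (q⁻¹) ^ (tri (d + 1)) ≤ Gd q (d + 1) := by
  have hq0 : 0 < q := by linarith
  have hx0 : (0 : ℝ) < q⁻¹ := by positivity
  have hx : q⁻¹ ≤ 1 / 2 := by
    rw [inv_le_comm₀ hq0 (by norm_num)]
    norm_num
    exact hq
  induction d with
  | zero =>
    simp only [Gd, tri]
    norm_num
    nlinarith
  | succ d ih =>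
    have e1 : Gd q (d + 1 + 1) = (q⁻¹) ^ (d + 1 + 1) * (1 - (q⁻¹) ^ (d + 1 + 1)) * Gd q (d + 1) := by
      conv_lhs => unfold Gd
    have e2 : tri (d + 1 + 1) = tri (d + 1) + (d + 1 + 1) := rfl
    rw [e1, e2, pow_add (q⁻¹)]
    have h3 : (q⁻¹) ^ (d + 1 + 1) ≤ (1 / 2) ^ (d + 1 + 1) := pow_le_pow_left₀ hx0.le hx _
    have h4 : (1 / 2 : ℝ) ^ (d + 1 + 1) ≤ 1 / 4 := by
      have : (1 / 2 : ℝ) ^ (d + 1 + 1) = (1 / 2) ^ d * (1 / 4) := by ring
      rw [this]
      have : (1 / 2 : ℝ) ^ d ≤ 1 := pow_le_one₀ (by norm_num) (by norm_num)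
      linarith
    have h6 : (0 : ℝ) < (1 / 2 : ℝ) ^ (d + 1 + 1) := by positivity
    have h7 : (1 : ℝ) / 4 + (1 / 2) ^ (d + 1 + 1 + 1)
        ≤ (1 - (q⁻¹) ^ (d + 1 + 1)) * (1 / 4 + (1 / 2) ^ (d + 1 + 1)) := by
      have e : (1 / 2 : ℝ) ^ (d + 1 + 1 + 1) = (1 / 2) ^ (d + 1 + 1) / 2 := by ring
      rw [e]
      nlinarith
    have h8 : 0 < (q⁻¹) ^ (tri (d + 1)) := by positivity
    have h9 : 0 < (q⁻¹) ^ (d + 1 + 1) := by positivity
    have h10 : 0 ≤ 1 - (q⁻¹) ^ (d + 1 + 1) := by linarith
    calc (1 / 4 + (1 / 2) ^ (d + 1 + 1 + 1)) * ((q⁻¹) ^ (tri (d + 1)) * (q⁻¹) ^ (d + 1 + 1))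
        ≤ ((1 - (q⁻¹) ^ (d + 1 + 1)) * (1 / 4 + (1 / 2) ^ (d + 1 + 1))) *
          ((q⁻¹) ^ (tri (d + 1)) * (q⁻¹) ^ (d + 1 + 1)) :=
          mul_le_mul_of_nonneg_right h7 (by positivity)
      _ = (q⁻¹) ^ (d + 1 + 1) * (1 - (q⁻¹) ^ (d + 1 + 1)) *
          ((1 / 4 + (1 / 2) ^ (d + 1 + 1)) * (q⁻¹) ^ (tri (d + 1))) := by ring
      _ ≤ _ := mul_le_mul_of_nonneg_left ih (mul_nonneg h9.le h10)

lemma Gd_lower (q : ℝ) (hq : 2 ≤ q) (d : ℕ) :
    (1 / 4) * (q⁻¹) ^ (tri d) ≤ Gd q d := by
  rcases d with _ | d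
  · simp [Gd, tri]; norm_num
  · refine le_trans ?_ (Gd_lower_aux q hq d)
    have hq0 : 0 < q := by linarith
    apply mul_le_mul_of_nonneg_right _ (by positivity)
    have : (0 : ℝ) < (1 / 2 : ℝ) ^ (d + 1 + 1) := by positivity
    linarith

section chain
variable {F V ι : Type*} [Field F] [Fintype F] [AddCommGroup V] [Module F V] [Fintype V]

lemma chain (B : ι → V →ₗ[F] V →ₗ[F] F) (hB : ∀ a x y, B a x y = - B a y x)
    (U : Submodule F V) (hU : orth B U = U) (t : ℕ) :
    ∀ (r k : ℕ) (X : Submodule F V), X ≤ U → finrank F X + r = finrank F U →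
      finrank F (orth B X) ≤ finrank F U + r + t → finrank F (orth B X) ≤ finrank F U + k →
      (1 / 4 : ℝ) ^ (t + 1) * ((Fintype.card F : ℝ)⁻¹) ^ (tri r + tri t) ≤
        g (orth B) U k (orth B X) := by
  classical
  have hq2 : (2 : ℝ) ≤ Fintype.card F := by exact_mod_cast Fintype.one_lt_card
  set q : ℝ := (Fintype.card F : ℝ) with hqdef
  have hq0 : 0 < q := by linarith
  have hqi0 : 0 < q⁻¹ := by positivity
  have hqi1 : q⁻¹ ≤ 1 := by
    rw [inv_le_one₀ hq0]; linarith
  induction t with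
  | zero =>
    intro r k X hX hfr hd hk
    have hUX : U ≤ orth B X := by
      have := orth_mono B hX
      rwa [hU] at this
    have hf := Submodule.finrank_mono hUX
    have h1 := key (orth B) (orth_galois B hB) U hU (finrank F (orth B X) - finrank F U) k
      (orth B X) hUX (by omega) (by omega)
    rw [← hqdef] at h1
    refine le_trans ?_ h1
    refine le_trans ?_ (Gd_anti q hq2 (by omega : finrank F (orth B X) - finrank F U ≤ r))
    have := Gd_lower q hq2 r
    simpa [tri] using this
  | succ t ih =>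
    intro r k X hX hfr hd hk
    have hUX : U ≤ orth B X := by
      have := orth_mono B hX
      rwa [hU] at this
    have hf := Submodule.finrank_mono hUX
    by_cases hsmall : finrank F (orth B X) ≤ finrank F U + r + t
    · refine le_trans ?_ (ih r k X hX hfr hsmall hk)
      have h1 : (1 / 4 : ℝ) ^ (t + 1 + 1) ≤ (1 / 4) ^ (t + 1) :=
        pow_le_pow_of_le_one (by norm_num) (by norm_num) (by omega)
      have h2 : (q⁻¹) ^ (tri r + tri (t + 1)) ≤ (q⁻¹) ^ (tri r + tri t) :=
        pow_le_pow_of_le_one hqi0.le hqi1 (by have := tri_succ t; omega)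
      exact mul_le_mul h1 h2 (by positivity) (by positivity)
    · have hdeq : finrank F (orth B X) = finrank F U + r + t + 1 := by omega
      rcases r with _ | r
      · exfalso
        have : X = U := Submodule.eq_of_le_of_finrank_eq hX (by omega)
        rw [this, hU] at hdeq
        omega
      · obtain ⟨k, rfl⟩ : ∃ k', k = k' + 1 := ⟨k - 1, by omega⟩
        -- existence of a vector with a drop of at least two
        have hex : ∃ w0 ∈ U, finrank F (orth B X ⊓ orth B (span F {w0}) : Submodule F V) + 2 ≤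
            finrank F (orth B X) := by
          by_contra hcon
          push Not at hcon
          have := finrank_le_of_drop_le_one B U hU (orth B X) (fun w hw => by
            have := hcon w hw; omega) (r + 1) X hX le_rfl hfr
          omega
        obtain ⟨w0, hw0U, hw0⟩ := hex
        obtain ⟨a, b, y1, y2, hy1, hy2, hne⟩ := exists_minor B (orth B X) w0 hw0
        have hquart := quad_quarter U ((B a).flip y1) ((B a).flip y2) ((B b).flip y1)
          ((B b).flip y2) w0 hw0U (by simpa using hne)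
        have hsub : (Finset.univ.filter (fun w => w ∈ U ∧ ((B a).flip y1) w * ((B b).flip y2) w -
            ((B a).flip y2) w * ((B b).flip y1) w ≠ 0)) ⊆ (Finset.univ.filter (fun w => w ∈ U ∧
            finrank F (orth B X ⊓ orth B (span F {w}) : Submodule F V) + 2 ≤
            finrank F (orth B X))) := by
          intro w hw
          simp only [Finset.mem_filter, Finset.mem_univ, true_and] at hw ⊢
          refine ⟨hw.1, minor_drop B (orth B X) w a b y1 y2 hy1 hy2 ?_⟩
          simpa using hw.2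
        have hquart2 := hquart.trans (Nat.mul_le_mul_left 4 (Finset.card_le_card hsub))
        set D := (Finset.univ.filter (fun w => w ∈ U ∧
            finrank F (orth B X ⊓ orth B (span F {w}) : Submodule F V) + 2 ≤
            finrank F (orth B X))) with hD
        have hneU : orth B X ≠ U := by
          intro h; rw [h] at hdeq; omega
        have hrec : g (orth B) U (k + 1) (orth B X) = (1 / (Nat.card (orth B X) : ℝ)) *
            ∑ w ∈ Finset.univ.filter (fun w => w ∈ U),
              g (orth B) U k (orth B X ⊓ orth B (span F {w})) := by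
          conv_lhs => unfold g
          rw [if_neg hneU]
        have hpt : ∀ w ∈ D, (1 / 4 : ℝ) ^ (t + 1) * (q⁻¹) ^ (tri r + tri t) ≤
            g (orth B) U k (orth B X ⊓ orth B (span F {w})) := by
          intro w hw
          simp only [hD, Finset.mem_filter, Finset.mem_univ, true_and] at hw
          have hwX : w ∉ X := by
            intro hwX
            have h1 : orth B X ≤ orth B (span F {w}) :=
              orth_mono B ((span_singleton_le_iff_mem _ _).mpr hwX)
            have h2 : orth B X ⊓ orth B (span F {w}) = orth B X := inf_eq_left.mpr h1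
            rw [h2] at hw
            omega
          have hfX' : finrank F (X ⊔ span F {w} : Submodule F V) = finrank F X + 1 := by
            have h1 := Submodule.finrank_sup_add_finrank_inf_eq X (span F {w})
            have hw0 : w ≠ 0 := by rintro rfl; exact hwX X.zero_mem
            rw [finrank_span_singleton hw0] at h1
            have h2 : X ⊓ span F {w} = ⊥ := by
              rw [eq_bot_iff]
              rintro y ⟨hy1, hy2⟩
              obtain ⟨c, rfl⟩ := mem_span_singleton.mp hy2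
              by_cases hc : c = 0
              · simp [hc]
              · exact absurd ((Submodule.smul_mem_iff _ hc).mp hy1) hwX
            rw [h2, finrank_bot] at h1
            omega
          have hX' : X ⊔ span F {w} ≤ U := sup_le hX ((span_singleton_le_iff_mem _ _).mpr hw.1)
          have hIH := ih r k (X ⊔ span F {w}) hX' (by omega)
            (by rw [orth_sup]; omega) (by rw [orth_sup]; omega)
          rwa [orth_sup] at hIH
        have hKpos : (0 : ℝ) < Nat.card (orth B X) := by exact_mod_cast Nat.card_pos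
        have hUpos : (0 : ℝ) < Nat.card U := by exact_mod_cast Nat.card_pos
        have hDcard : (Nat.card U : ℝ) ≤ 4 * (D.card : ℝ) := by
          rw [← card_filter_mem]
          exact_mod_cast hquart2
        have hKU : (Nat.card U : ℝ) = (q⁻¹) ^ (r + 1 + t + 1) * Nat.card (orth B X) := by
          rw [card_real, card_real, ← hqdef, hdeq, inv_pow, inv_mul_eq_div,
            eq_div_iff (by positivity), ← pow_add]
          congr 1; omega
        rw [hrec]
        calc (1 / 4 : ℝ) ^ (t + 1 + 1) * (q⁻¹) ^ (tri (r + 1) + tri (t + 1))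
            = (1 / (Nat.card (orth B X) : ℝ)) * (((Nat.card U : ℝ) / 4) *
              ((1 / 4 : ℝ) ^ (t + 1) * (q⁻¹) ^ (tri r + tri t))) := by
              rw [hKU]
              have e : tri (r + 1) + tri (t + 1) = (r + 1 + t + 1) + (tri r + tri t) := by
                rw [tri_succ, tri_succ]; ring
              rw [e, pow_add (q⁻¹) (r + 1 + t + 1), pow_succ (1 / 4 : ℝ) (t + 1)]
              field_simp
          _ ≤ (1 / (Nat.card (orth B X) : ℝ)) * ((D.card : ℝ) *
              ((1 / 4 : ℝ) ^ (t + 1) * (q⁻¹) ^ (tri r + tri t))) := by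
              apply mul_le_mul_of_nonneg_left _ (by positivity)
              apply mul_le_mul_of_nonneg_right _ (by positivity)
              linarith
          _ ≤ (1 / (Nat.card (orth B X) : ℝ)) * ∑ w ∈ D,
              g (orth B) U k (orth B X ⊓ orth B (span F {w})) := by
              apply mul_le_mul_of_nonneg_left _ (by positivity)
              rw [← nsmul_eq_mul, ← Finset.sum_const]
              exact Finset.sum_le_sum hpt
          _ ≤ _ := by
              apply mul_le_mul_of_nonneg_left _ (by positivity)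
              apply Finset.sum_le_sum_of_subset_of_nonneg
              · intro w hw
                simp only [hD, Finset.mem_filter, Finset.mem_univ, true_and] at hw ⊢
                exact hw.1
              · intro w _ _
                exact g_nonneg _ _ _ _

end chain

section lower

variable {F : Type*} [Field F] {n : ℕ}

variable [Fintype F]

lemma le_M (𝒜 : Submodule F (Matrix (Fin n) (Fin n) F)) (h : ∀ A ∈ 𝒜, IsAlternating A) :
    numMaxIsotropic 𝒜 ≤ M n F := by
  apply le_csSup
  · refine ⟨Nat.card (Submodule F (Fin n → F)), ?_⟩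
    rintro N ⟨ℬ, _, rfl⟩
    unfold numMaxIsotropic
    rw [← Nat.card_coe_set_eq]
    exact Nat.card_le_card_of_injective _ Subtype.val_injective
  · exact ⟨𝒜, h, rfl⟩

/-- dot product form -/
noncomputable def form (a b : ℕ) (ℓ : (Fin a → F) →ₗ[F] F) :
    Option (Fin b) → ((Fin a → F) × (Fin a → F) × (Fin b → F)) →
      ((Fin a → F) × (Fin a → F) × (Fin b → F)) → F
  | none, v, w => v.1 ⬝ᵥ w.2.1 - v.2.1 ⬝ᵥ w.1
  | some j, v, w => ℓ v.1 * w.2.2 j - v.2.2 j * ℓ w.1

/-- bilinear version -/
noncomputable def bform (a b : ℕ) (ℓ : (Fin a → F) →ₗ[F] F) (o : Option (Fin b)) :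
    ((Fin a → F) × (Fin a → F) × (Fin b → F)) →ₗ[F]
      ((Fin a → F) × (Fin a → F) × (Fin b → F)) →ₗ[F] F :=
  LinearMap.mk₂ F (form a b ℓ o)
    (by
      intro v v' w
      cases o <;> simp [form, add_dotProduct] <;> ring)
    (by
      intro c v w
      cases o <;> simp [form, smul_dotProduct] <;> ring)
    (by
      intro v w w'
      cases o <;> simp [form, dotProduct_add] <;> ring)
    (by
      intro c v w
      cases o <;> simp [form, dotProduct_smul] <;> ring)

/-- the symmetric matrix given by a function on unordered pairs -/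
def symMat {a : ℕ} (s : Sym2 (Fin a) → F) : Matrix (Fin a) (Fin a) F :=
  Matrix.of fun i j => s s(i, j)

lemma symMat_transpose {a : ℕ} (s : Sym2 (Fin a) → F) : (symMat s)ᵀ = symMat s := by
  ext i j
  simp [symMat, Sym2.eq_swap]

/-- the graph space -/
def graphSpace (a b : ℕ) (ℓ : (Fin a → F) →ₗ[F] F) (s : Sym2 (Fin a) → F) (c : Fin b → F) :
    Submodule F ((Fin a → F) × (Fin a → F) × (Fin b → F)) :=
  LinearMap.range (LinearMap.prod LinearMap.id (LinearMap.prod (Matrix.mulVecLin (symMat s))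
    (LinearMap.smulRight ℓ c)))

lemma mem_graphSpace {a b : ℕ} {ℓ : (Fin a → F) →ₗ[F] F} {s : Sym2 (Fin a) → F} {c : Fin b → F}
    {v : (Fin a → F) × (Fin a → F) × (Fin b → F)} :
    v ∈ graphSpace a b ℓ s c ↔ v.2.1 = symMat s *ᵥ v.1 ∧ v.2.2 = ℓ v.1 • c := by
  unfold graphSpace
  rw [LinearMap.mem_range]
  constructor
  · rintro ⟨x, rfl⟩
    exact ⟨rfl, rfl⟩
  · rintro ⟨h1, h2⟩
    refine ⟨v.1, ?_⟩
    ext1
    · rfl
    · ext1
      · exact h1.symm
      · exact h2.symm

lemma graphSpace_isotropic {a b : ℕ} {ℓ : (Fin a → F) →ₗ[F] F} {s : Sym2 (Fin a) → F}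
    {c : Fin b → F} {v w : (Fin a → F) × (Fin a → F) × (Fin b → F)}
    (hv : v ∈ graphSpace a b ℓ s c) (hw : w ∈ graphSpace a b ℓ s c) (o : Option (Fin b)) :
    form a b ℓ o v w = 0 := by
  rw [mem_graphSpace] at hv hw
  cases o with
  | none =>
    simp only [form]
    rw [hv.1, hw.1, dotProduct_mulVec, ← mulVec_transpose, symMat_transpose, sub_self]
  | some j =>
    simp only [form]
    rw [hv.2, hw.2]
    simp only [Pi.smul_apply, smul_eq_mul]
    ring

lemma graphSpace_max {a b : ℕ} {ℓ : (Fin a → F) →ₗ[F] F} (hℓ : b = 0 ∨ ∃ x, ℓ x ≠ 0)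
    {s : Sym2 (Fin a) → F} {c : Fin b → F} {w : (Fin a → F) × (Fin a → F) × (Fin b → F)}
    (hw : ∀ v ∈ graphSpace a b ℓ s c, ∀ o, form a b ℓ o v w = 0) :
    w ∈ graphSpace a b ℓ s c := by
  rw [mem_graphSpace]
  constructor
  · ext i
    have h := hw (Pi.single i 1, symMat s *ᵥ (Pi.single i 1), ℓ (Pi.single i 1) • c)
      (mem_graphSpace.mpr ⟨rfl, rfl⟩) none
    simp only [form] at h
    rw [single_one_dotProduct, dotProduct_comm, dotProduct_mulVec, ← mulVec_transpose,
      symMat_transpose, dotProduct_single, mul_one, sub_eq_zero] at h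
    exact h
  · ext j
    rcases hℓ with rfl | ⟨x, hx⟩
    · exact j.elim0
    · have h := hw (x, symMat s *ᵥ x, ℓ x • c) (mem_graphSpace.mpr ⟨rfl, rfl⟩) (some j)
      simp only [form, Pi.smul_apply, smul_eq_mul] at h ⊢
      have h2 : ℓ x * (w.2.2 j - ℓ w.1 * c j) = 0 := by linear_combination h
      exact sub_eq_zero.mp ((mul_eq_zero.mp h2).resolve_left hx)

lemma graphSpace_inj {a b : ℕ} {ℓ : (Fin a → F) →ₗ[F] F} (hℓ : b = 0 ∨ ∃ x, ℓ x ≠ 0)
    {s s' : Sym2 (Fin a) → F} {c c' : Fin b → F}
    (h : graphSpace a b ℓ s c = graphSpace a b ℓ s' c') : s = s' ∧ c = c' := by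
  have key : ∀ x : Fin a → F, symMat s *ᵥ x = symMat s' *ᵥ x ∧ ℓ x • c = ℓ x • c' := by
    intro x
    have h1 : (x, symMat s *ᵥ x, ℓ x • c) ∈ graphSpace a b ℓ s c := mem_graphSpace.mpr ⟨rfl, rfl⟩
    rw [h] at h1
    exact mem_graphSpace.mp h1
  constructor
  · have hmat : symMat s = symMat s' := Matrix.ext_of_mulVec_single fun i => (key _).1
    ext z
    induction z using Sym2.ind with
    | _ i j => exact congrFun (congrFun hmat i) j
  · rcases hℓ with rfl | ⟨x, hx⟩
    · ext j; exact j.elim0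
    · have := (key x).2
      exact smul_right_injective _ hx this

/-- General lower bound. -/
lemma lower_aux (a b : ℕ) (hab : b = 0 ∨ 0 < a) (hn : n = 2 * a + b) :
    Fintype.card F ^ ((a + 1).choose 2 + b) ≤ M n F := by
  classical
  obtain ⟨ℓ, hℓ⟩ : ∃ ℓ : (Fin a → F) →ₗ[F] F, b = 0 ∨ ∃ x, ℓ x ≠ 0 := by
    rcases hab with h | h
    · exact ⟨0, Or.inl h⟩
    · exact ⟨LinearMap.proj ⟨0, h⟩, Or.inr ⟨fun _ => 1, by simp⟩⟩
  have hfr : finrank F (Fin n → F) = finrank F ((Fin a → F) × (Fin a → F) × (Fin b → F)) := by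
    simp only [finrank_fin_fun, finrank_prod]
    omega
  let e : (Fin n → F) ≃ₗ[F] ((Fin a → F) × (Fin a → F) × (Fin b → F)) :=
    LinearEquiv.ofFinrankEq _ _ hfr
  let A : Option (Fin b) → Matrix (Fin n) (Fin n) F := fun o =>
    LinearMap.toMatrix₂' F ((bform a b ℓ o).compl₁₂ e.toLinearMap e.toLinearMap)
  have hA : ∀ o (v w : Fin n → F), v ⬝ᵥ (A o *ᵥ w) = form a b ℓ o (e v) (e w) := by
    intro o v w
    rw [← Matrix.toLinearMap₂'_apply', Matrix.toLinearMap₂'_toMatrix']
    rfl
  let 𝒜 : Submodule F (Matrix (Fin n) (Fin n) F) := span F (Set.range A)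
  have hrel : ∀ v w : Fin n → F, (∀ o, form a b ℓ o (e v) (e w) = 0) →
      ∀ B ∈ 𝒜, v ⬝ᵥ (B *ᵥ w) = 0 := by
    intro v w h B hB
    induction hB using Submodule.span_induction with
    | mem x hx =>
      obtain ⟨o, rfl⟩ := hx
      rw [hA, h o]
    | zero => rw [zero_mulVec, dotProduct_zero]
    | add x y _ _ hx hy => rw [add_mulVec, dotProduct_add, hx, hy, add_zero]
    | smul c x _ hx => rw [smul_mulVec, dotProduct_smul, hx, smul_zero]
  have halt : ∀ B ∈ 𝒜, IsAlternating B := by
    intro B hB v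
    apply hrel v v _ B hB
    intro o
    cases o with
    | none => simp only [form]; rw [dotProduct_comm, sub_self]
    | some j => simp only [form]; ring
  refine le_trans ?_ (le_M 𝒜 halt)
  unfold numMaxIsotropic
  rw [← Nat.card_coe_set_eq]
  have hcard : Nat.card ((Sym2 (Fin a) → F) × (Fin b → F)) =
      Fintype.card F ^ ((a + 1).choose 2 + b) := by
    rw [Nat.card_eq_fintype_card, Fintype.card_prod, Fintype.card_fun, Fintype.card_fun,
      Sym2.card, Fintype.card_fin, Fintype.card_fin, pow_add]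
  rw [← hcard]
  have hmax : ∀ p : (Sym2 (Fin a) → F) × (Fin b → F),
      Maximal (IsIsotropic 𝒜) ((graphSpace a b ℓ p.1 p.2).comap e.toLinearMap) := by
    intro p
    constructor
    · intro u hu u' hu' B hB
      exact hrel u u' (fun o => graphSpace_isotropic hu hu' o) B hB
    · intro U hU hle v hv
      rw [Submodule.mem_comap]
      apply graphSpace_max hℓ
      intro x hx o
      have hx' : e.symm x ∈ (graphSpace a b ℓ p.1 p.2).comap e.toLinearMap := by
        rw [Submodule.mem_comap]; simpa using hx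
      have := hU (e.symm x) (hle hx') v hv (A o) (subset_span ⟨o, rfl⟩)
      rw [hA] at this
      simpa using this
  refine Nat.card_le_card_of_injective
    (fun p => (⟨(graphSpace a b ℓ p.1 p.2).comap e.toLinearMap, hmax p⟩ :
      {U : Submodule F (Fin n → F) | Maximal (IsIsotropic 𝒜) U})) ?_
  intro p p' hpp
  have h1 : (graphSpace a b ℓ p.1 p.2).comap e.toLinearMap =
      (graphSpace a b ℓ p'.1 p'.2).comap e.toLinearMap := congrArg Subtype.val hpp
  have h2 : graphSpace a b ℓ p.1 p.2 = graphSpace a b ℓ p'.1 p'.2 :=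
    Submodule.comap_injective_of_surjective e.surjective h1
  obtain ⟨h3, h4⟩ := graphSpace_inj hℓ h2
  exact Prod.ext h3 h4

end lower

section upper

variable {F : Type*} [Field F] [Fintype F] {n : ℕ}

/-- the bilinear forms of a matrix space -/
noncomputable def forms (𝒜 : Submodule F (Matrix (Fin n) (Fin n) F)) :
    𝒜 → (Fin n → F) →ₗ[F] (Fin n → F) →ₗ[F] F :=
  fun A => Matrix.toLinearMap₂' F A.1

lemma forms_apply (𝒜 : Submodule F (Matrix (Fin n) (Fin n) F)) (A : 𝒜) (v w : Fin n → F) :
    forms 𝒜 A v w = v ⬝ᵥ (A.1 *ᵥ w) := Matrix.toLinearMap₂'_apply' _ _ _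

lemma alt_swap {A : Matrix (Fin n) (Fin n) F} (hA : IsAlternating A) (x y : Fin n → F) :
    x ⬝ᵥ (A *ᵥ y) = - (y ⬝ᵥ (A *ᵥ x)) := by
  have h := hA (x + y)
  rw [mulVec_add, dotProduct_add, add_dotProduct, add_dotProduct, hA x, hA y] at h
  linear_combination h

lemma orth_eq_of_maximal {𝒜 : Submodule F (Matrix (Fin n) (Fin n) F)}
    (h𝒜 : ∀ A ∈ 𝒜, IsAlternating A)
    {U : Submodule F (Fin n → F)} (hU : Maximal (IsIsotropic 𝒜) U) : orth (forms 𝒜) U = U := by
  apply le_antisymm
  · intro y hy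
    have hy' : ∀ x ∈ U, ∀ A ∈ 𝒜, x ⬝ᵥ (A *ᵥ y) = 0 := by
      intro x hx A hA
      have := mem_orth.mp hy x hx ⟨A, hA⟩
      rwa [forms_apply] at this
    have hiso : IsIsotropic 𝒜 (U ⊔ span F {y}) := by
      intro a ha b hb A hA
      obtain ⟨a1, ha1, a2, ha2, rfl⟩ := mem_sup.mp ha
      obtain ⟨b1, hb1, b2, hb2, rfl⟩ := mem_sup.mp hb
      obtain ⟨c, rfl⟩ := mem_span_singleton.mp ha2
      obtain ⟨d, rfl⟩ := mem_span_singleton.mp hb2
      have e1 := hU.prop a1 ha1 b1 hb1 A hA
      have e2 := hy' a1 ha1 A hA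
      have e3 := hy' b1 hb1 A hA
      have e4 := h𝒜 A hA y
      have e5 := alt_swap (h𝒜 A hA) y b1
      rw [e3, neg_zero] at e5
      simp only [mulVec_add, dotProduct_add, add_dotProduct, mulVec_smul, dotProduct_smul,
        smul_dotProduct, e1, e2, e4, e5, smul_zero, add_zero]
    have := hU.le_of_ge hiso le_sup_left
    exact this (mem_sup_right (mem_span_singleton_self y))
  · intro y hy
    rw [mem_orth]
    intro x hx A
    rw [forms_apply]
    exact hU.prop x hx y hy A.1 A.2

open Classical in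
/-- maximal isotropic spaces of dimension `u` -/
noncomputable def S (𝒜 : Submodule F (Matrix (Fin n) (Fin n) F)) (u : ℕ) :
    Finset (Submodule F (Fin n → F)) :=
  (Set.toFinite {U : Submodule F (Fin n → F) | Maximal (IsIsotropic 𝒜) U ∧ finrank F U = u}).toFinset

lemma mem_S {𝒜 : Submodule F (Matrix (Fin n) (Fin n) F)} {u : ℕ} {U : Submodule F (Fin n → F)} :
    U ∈ S 𝒜 u ↔ Maximal (IsIsotropic 𝒜) U ∧ finrank F U = u := by
  unfold S; simp

lemma num_eq (𝒜 : Submodule F (Matrix (Fin n) (Fin n) F)) :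
    numMaxIsotropic 𝒜 = ∑ u ∈ Finset.range (n + 1), (S 𝒜 u).card := by
  classical
  unfold numMaxIsotropic
  rw [Set.ncard_eq_toFinset_card _ (Set.toFinite _)]
  rw [Finset.card_eq_sum_card_fiberwise (f := fun U : Submodule F (Fin n → F) => finrank F U)
    (t := Finset.range (n + 1))]
  · refine Finset.sum_congr rfl fun u _ => ?_
    congr 1
    ext U
    rw [mem_S]
    simp
  · intro U _
    simp only [Finset.coe_range, Set.mem_Iio]
    have := Submodule.finrank_le U
    rw [finrank_fin_fun] at this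
    omega

variable {𝒜 : Submodule F (Matrix (Fin n) (Fin n) F)}

lemma forms_swap (h𝒜 : ∀ A ∈ 𝒜, IsAlternating A) (a : 𝒜) (x y : Fin n → F) :
    forms 𝒜 a x y = - forms 𝒜 a y x := by
  rw [forms_apply, forms_apply]
  exact alt_swap (h𝒜 a.1 a.2) x y

lemma count_of_le (h𝒜 : ∀ A ∈ 𝒜, IsAlternating A) (u : ℕ) (ε : ℝ)
    (h : ∀ U ∈ S 𝒜 u, ε ≤ g (orth (forms 𝒜)) U n ⊤) : ((S 𝒜 u).card : ℝ) * ε ≤ 1 := by
  have h1 := kraft (orth (forms 𝒜)) (fun X Y h => orth_mono (forms 𝒜) h) (S 𝒜 u)
    (fun U hU => orth_eq_of_maximal h𝒜 (mem_S.mp hU).1) n ⊤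
  refine le_trans ?_ h1
  rw [← nsmul_eq_mul, ← Finset.sum_const]
  exact Finset.sum_le_sum h

/-- bound by codimension -/
lemma boundB (h𝒜 : ∀ A ∈ 𝒜, IsAlternating A) (u : ℕ) (hu : u ≤ n) :
    ((S 𝒜 u).card : ℝ) ≤ 4 * (Fintype.card F : ℝ) ^ (tri (n - u)) := by
  have hq2 : (2 : ℝ) ≤ Fintype.card F := by exact_mod_cast Fintype.one_lt_card
  set q : ℝ := (Fintype.card F : ℝ) with hqdef
  have hq0 : 0 < q := by linarith
  have h := count_of_le h𝒜 u ((1 / 4) * (q⁻¹) ^ (tri (n - u))) (by
    intro U hU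
    obtain ⟨hm, hfr⟩ := mem_S.mp hU
    refine (Gd_lower q hq2 (n - u)).trans ?_
    have := key (orth (forms 𝒜)) (orth_galois (forms 𝒜) (forms_swap h𝒜)) U
      (orth_eq_of_maximal h𝒜 hm) (n - u) n ⊤ le_top (by
        rw [finrank_top, finrank_fin_fun, hfr]; omega) (by omega)
    exact this)
  rw [inv_pow, ← mul_assoc, mul_one_div, ← div_eq_mul_inv, div_div, div_le_one (by positivity)] at h
  exact h

/-- bound with defect `t` -/
lemma boundA (h𝒜 : ∀ A ∈ 𝒜, IsAlternating A) (u t : ℕ) (hu : n ≤ 2 * u + t) :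
    ((S 𝒜 u).card : ℝ) ≤ 4 ^ (t + 1) * (Fintype.card F : ℝ) ^ (tri u + tri t) := by
  have hq2 : (2 : ℝ) ≤ Fintype.card F := by exact_mod_cast Fintype.one_lt_card
  set q : ℝ := (Fintype.card F : ℝ) with hqdef
  have hq0 : 0 < q := by linarith
  have h := count_of_le h𝒜 u ((1 / 4) ^ (t + 1) * (q⁻¹) ^ (tri u + tri t)) (by
    intro U hU
    obtain ⟨hm, hfr⟩ := mem_S.mp hU
    have := chain (forms 𝒜) (forms_swap h𝒜) U (orth_eq_of_maximal h𝒜 hm) t u n ⊥ bot_le
      (by rw [finrank_bot, hfr]; omega)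
      (by rw [orth_bot, finrank_top, finrank_fin_fun, hfr]; omega)
      (by rw [orth_bot, finrank_top, finrank_fin_fun]; omega)
    rw [orth_bot] at this
    exact this)
  rw [inv_pow, one_div, inv_pow, ← mul_inv, ← div_eq_mul_inv, div_le_one (by positivity)] at h
  exact h

/-- bound by reversal -/
lemma boundC (h𝒜 : ∀ A ∈ 𝒜, IsAlternating A) (u : ℕ) (hu : u ≤ n) :
    ((S 𝒜 u).card : ℝ) ≤ 4 * (Fintype.card F : ℝ) ^ ((((u + 1) * (n - u) : ℕ) : ℝ) / 2) := by
  have := count_dim (orth (forms 𝒜)) (orth_sup (forms 𝒜)) u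
    (by rw [finrank_fin_fun]; exact hu) (S 𝒜 u)
    (fun U hU => ⟨orth_eq_of_maximal h𝒜 (mem_S.mp hU).1, (mem_S.mp hU).2⟩)
  rwa [finrank_fin_fun] at this

lemma geom_half (N : ℕ) : ∑ j ∈ Finset.range N, (1 / 2 : ℝ) ^ j ≤ 2 := by
  have h := geom_sum_eq (by norm_num : (1 / 2 : ℝ) ≠ 1) N
  rw [h]
  have : (0 : ℝ) < (1 / 2) ^ N := by positivity
  rw [div_le_iff_of_neg (by norm_num)]
  linarith

lemma tri_sub (a b : ℕ) (h : a ≤ b) : tri a + (b - a) ≤ tri b := by
  induction h with
  | refl => simp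
  | step h ih =>
    rename_i m
    rw [Nat.succ_eq_add_one, tri_succ]
    omega

lemma pow_le_half (q : ℝ) (hq : 2 ≤ q) (a b : ℕ) : q ^ a ≤ q ^ (a + b) * (1 / 2) ^ b := by
  rw [pow_add, mul_assoc, ← mul_pow]
  have : 1 ≤ (q * (1 / 2)) ^ b := one_le_pow₀ (by linarith)
  have h2 : 0 ≤ q ^ a := by positivity
  nlinarith

/-- the part of the sum with small codimension -/
lemma sum_large (h𝒜 : ∀ A ∈ 𝒜, IsAlternating A) (m a : ℕ) (hn : n = m + a) :
    ∑ u ∈ Finset.Ico a (n + 1), ((S 𝒜 u).card : ℝ) ≤ 8 * (Fintype.card F : ℝ) ^ (tri m) := by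
  have hq2 : (2 : ℝ) ≤ Fintype.card F := by exact_mod_cast Fintype.one_lt_card
  set q : ℝ := (Fintype.card F : ℝ) with hqdef
  have hq0 : 0 < q := by linarith
  rw [Finset.sum_Ico_eq_sum_range]
  have h1 : ∀ j ∈ Finset.range (n + 1 - a), ((S 𝒜 (a + j)).card : ℝ) ≤
      4 * q ^ (tri m) * (1 / 2) ^ j := by
    intro j hj
    rw [Finset.mem_range] at hj
    refine (boundB h𝒜 (a + j) (by omega)).trans ?_
    rw [← hqdef, mul_assoc]
    apply mul_le_mul_of_nonneg_left _ (by norm_num)
    have e1 : n - (a + j) = m - j := by omega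
    have e2 := tri_sub (m - j) m (by omega)
    rw [e1]
    have e3 : m - (m - j) = j := by omega
    rw [e3] at e2
    refine (pow_le_half q hq2 (tri (m - j)) j).trans ?_
    apply mul_le_mul_of_nonneg_right _ (by positivity)
    exact pow_le_pow_right₀ (by linarith) e2
  refine (Finset.sum_le_sum h1).trans ?_
  rw [← Finset.mul_sum]
  have := geom_half (n + 1 - a)
  have h3 : 0 < 4 * q ^ (tri m) := by positivity
  nlinarith

/-- even case -/
lemma even_upper (h𝒜 : ∀ A ∈ 𝒜, IsAlternating A) (m : ℕ) (hn : n = 2 * m) :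
    (numMaxIsotropic 𝒜 : ℝ) ≤ 16 * (Fintype.card F : ℝ) ^ (tri m) := by
  have hq2 : (2 : ℝ) ≤ Fintype.card F := by exact_mod_cast Fintype.one_lt_card
  set q : ℝ := (Fintype.card F : ℝ) with hqdef
  have hq0 : 0 < q := by linarith
  rw [num_eq, Nat.cast_sum]
  rw [Finset.range_eq_Ico, ← Finset.sum_Ico_consecutive _ (Nat.zero_le m) (by omega : m ≤ n + 1)]
  have h1 := sum_large h𝒜 m m (by omega)
  rw [← hqdef] at h1
  have h2 : ∑ u ∈ Finset.Ico 0 m, ((S 𝒜 u).card : ℝ) ≤ 8 * q ^ (tri m) := by
    rw [← Finset.range_eq_Ico, ← Finset.sum_range_reflect]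
    have h3 : ∀ y ∈ Finset.range m, ((S 𝒜 (m - 1 - y)).card : ℝ) ≤
        4 * q ^ (tri m) * (1 / 2) ^ y := by
      intro y hy
      rw [Finset.mem_range] at hy
      refine (boundC h𝒜 (m - 1 - y) (by omega)).trans ?_
      rw [← hqdef, mul_assoc]
      apply mul_le_mul_of_nonneg_left _ (by norm_num)
      have e1 : (((m - 1 - y + 1) * (n - (m - 1 - y)) : ℕ) : ℝ) / 2 = ((tri m - tri y : ℕ) : ℝ) := by
        have e2 : tri y ≤ tri m := tri_mono (by omega)
        have e3 : (m - 1 - y + 1) * (n - (m - 1 - y)) = 2 * (tri m - tri y) := by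
          have e8 : 2 * (tri m - tri y) = 2 * tri m - 2 * tri y := by omega
          rw [e8, two_mul_tri, two_mul_tri]
          obtain ⟨z, rfl⟩ : ∃ z, m = y + 1 + z := ⟨m - (y + 1), by omega⟩
          have e4 : y + 1 + z - 1 - y + 1 = z + 1 := by omega
          have e5 : n - (y + 1 + z - 1 - y) = 2 * y + 2 + z := by omega
          rw [e4, e5]
          symm
          rw [Nat.sub_eq_iff_eq_add (by nlinarith)]
          ring
        rw [e3]; push_cast; ring
      rw [e1, Real.rpow_natCast]
      have e6 := tri_sub y m hy.le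
      have e7 : y ≤ tri y := by
        have := tri_sub 0 y (Nat.zero_le _)
        simpa [tri] using this
      refine (pow_le_half q hq2 (tri m - tri y) y).trans ?_
      apply mul_le_mul_of_nonneg_right _ (by positivity)
      exact pow_le_pow_right₀ (by linarith) (by omega)
    refine (Finset.sum_le_sum h3).trans ?_
    rw [← Finset.mul_sum]
    have := geom_half m
    have h4 : 0 < 4 * q ^ (tri m) := by positivity
    nlinarith
  linarith

/-- the absolute bounding sequence -/
noncomputable def aseq : ℕ → ℝ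
  | 0 => 16
  | 1 => 256
  | 2 => 4096
  | 3 => 8192
  | y + 4 => (1 / 2) ^ (y + 2)

lemma aseq_pos (y : ℕ) : 0 < aseq y := by
  rcases y with _ | _ | _ | _ | y <;> simp only [aseq] <;> positivity

lemma sum_aseq (N : ℕ) : ∑ y ∈ Finset.range N, aseq y ≤ 12561 := by
  have h : ∑ y ∈ Finset.range N, aseq y ≤ ∑ y ∈ Finset.range (N + 4), aseq y :=
    Finset.sum_le_sum_of_subset_of_nonneg (Finset.range_subset_range.mpr (by omega))
      (fun y _ _ => (aseq_pos y).le)
  refine h.trans ?_
  rw [Finset.sum_range_succ', Finset.sum_range_succ', Finset.sum_range_succ',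
    Finset.sum_range_succ']
  have h2 : ∑ k ∈ Finset.range N, aseq (k + 1 + 1 + 1 + 1) ≤ 1 / 2 := by
    have : ∀ k ∈ Finset.range N, aseq (k + 1 + 1 + 1 + 1) = (1 / 4) * (1 / 2) ^ k := by
      intro k _
      show (1 / 2 : ℝ) ^ (k + 2) = _
      rw [pow_add]; ring
    rw [Finset.sum_congr rfl this, ← Finset.mul_sum]
    have := geom_half N
    linarith
  have a0 : aseq 0 = 16 := rfl
  have a1 : aseq (0 + 1) = 256 := rfl
  have a2 : aseq (0 + 1 + 1) = 4096 := rfl
  have a3 : aseq (0 + 1 + 1 + 1) = 8192 := rfl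
  rw [a0, a1, a2, a3]
  linarith

/-- the exponent computation in the odd case -/
lemma odd_small (h𝒜 : ∀ A ∈ 𝒜, IsAlternating A) (m y : ℕ) (hn : n = 2 * m + 1) (hm : 8 ≤ m)
    (hy : y ≤ m) (hy2 : y ^ 2 + 2 ≤ m) :
    ((S 𝒜 (m - y)).card : ℝ) ≤ aseq y * (Fintype.card F : ℝ) ^ (tri m + 1) := by
  have hq2 : (2 : ℝ) ≤ Fintype.card F := by exact_mod_cast Fintype.one_lt_card
  set q : ℝ := (Fintype.card F : ℝ) with hqdef
  have hq0 : 0 < q := by linarith
  have hA := boundA h𝒜 (m - y) (2 * y + 1) (by omega)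
  rw [← hqdef] at hA
  obtain ⟨z, rfl⟩ : ∃ z, m = y + z := ⟨m - y, by omega⟩
  have e0 : y + z - y = z := by omega
  rw [e0] at hA ⊢
  have t1 := two_mul_tri (y + z)
  have t2 := two_mul_tri z
  have t3 := two_mul_tri (2 * y + 1)
  -- generic step: if `tri z + tri (2y+1) + E ≤ tri (y+z) + 1` and `4^(2y+2) ≤ aseq y * 2^E`
  have main : ∀ E : ℕ, tri z + tri (2 * y + 1) + E ≤ tri (y + z) + 1 →
      (4 : ℝ) ^ (2 * y + 1 + 1) * (1 / 2) ^ E ≤ aseq y →
      ((S 𝒜 z).card : ℝ) ≤ aseq y * q ^ (tri (y + z) + 1) := by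
    intro E hE1 hE2
    refine hA.trans ?_
    calc (4 : ℝ) ^ (2 * y + 1 + 1) * q ^ (tri z + tri (2 * y + 1))
        ≤ (4 : ℝ) ^ (2 * y + 1 + 1) * (q ^ (tri z + tri (2 * y + 1) + E) * (1 / 2) ^ E) :=
          mul_le_mul_of_nonneg_left (pow_le_half q hq2 _ E) (by positivity)
      _ = ((4 : ℝ) ^ (2 * y + 1 + 1) * (1 / 2) ^ E) * q ^ (tri z + tri (2 * y + 1) + E) := by ring
      _ ≤ aseq y * q ^ (tri (y + z) + 1) := by
          apply mul_le_mul hE2 _ (by positivity) (aseq_pos y).le
          exact pow_le_pow_right₀ (by linarith) hE1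
  rcases y with _ | _ | _ | _ | y
  · apply main 0
    · simp only [Nat.mul_zero, Nat.zero_add] at *
      have : tri 1 = 1 := rfl
      omega
    · simp only [aseq]; norm_num
  · apply main 0
    · have : tri (2 * (0 + 1) + 1) = 6 := rfl
      rw [this]
      nlinarith
    · simp only [aseq]; norm_num
  · apply main 0
    · have : tri (2 * (0 + 1 + 1) + 1) = 15 := rfl
      rw [this]
      nlinarith
    · simp only [aseq]; norm_num
  · apply main 3
    · have : tri (2 * (0 + 1 + 1 + 1) + 1) = 28 := rfl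
      rw [this]
      nlinarith
    · simp only [aseq]; norm_num
  · -- y + 4
    set Y := y + 1 + 1 + 1 + 1 with hY
    have hYy : Y = y + 4 := by omega
    apply main (5 * Y + 2)
    · have h4 : 4 ≤ Y := by omega
      have hz : Y ^ 2 + 2 ≤ Y + z := hy2
      nlinarith [mul_le_mul_of_nonneg_left hz (Nat.zero_le Y), mul_self_nonneg (Y - 4 : ℤ),
        Nat.mul_le_mul h4 h4, Nat.mul_le_mul (Nat.mul_le_mul h4 h4) h4,
        Nat.mul_le_mul_left (Y * Y) h4]
    · have : aseq Y = (1 / 2) ^ (y + 2) := rfl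
      rw [this]
      have e : (4 : ℝ) ^ (2 * Y + 1 + 1) = 2 ^ (4 * Y + 4) := by
        rw [show (4 : ℝ) = 2 ^ 2 by norm_num, ← pow_mul]; congr 1; ring
      rw [e]
      have e2 : 5 * Y + 2 = (4 * Y + 4) + (y + 2) := by omega
      rw [e2, pow_add (1 / 2 : ℝ), ← mul_assoc, ← mul_pow]
      norm_num

lemma odd_big (h𝒜 : ∀ A ∈ 𝒜, IsAlternating A) (m y : ℕ) (hn : n = 2 * m + 1)
    (hy : y ≤ m) :
    ((S 𝒜 (m - y)).card : ℝ) ≤
      4 * (Fintype.card F : ℝ) ^ ((((m : ℝ) + 1) ^ 2 - (y : ℝ) ^ 2) / 2) := by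
  refine (boundC h𝒜 (m - y) (by omega)).trans ?_
  have e : (((m - y + 1) * (n - (m - y)) : ℕ) : ℝ) = ((m : ℝ) + 1) ^ 2 - (y : ℝ) ^ 2 := by
    have e1 : n - (m - y) = m + 1 + y := by omega
    rw [e1]
    push_cast [Nat.cast_sub hy]
    ring
  rw [e]

/-- odd case, precise -/
lemma odd_upper (h𝒜 : ∀ A ∈ 𝒜, IsAlternating A) (m : ℕ) (hn : n = 2 * m + 1) (hm : 8 ≤ m) :
    (numMaxIsotropic 𝒜 : ℝ) ≤ 2 ^ 14 * (Fintype.card F : ℝ) ^ (tri m + 1) := by
  have hq2 : (2 : ℝ) ≤ Fintype.card F := by exact_mod_cast Fintype.one_lt_card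
  set q : ℝ := (Fintype.card F : ℝ) with hqdef
  have hq0 : 0 < q := by linarith
  rw [num_eq, Nat.cast_sum]
  rw [Finset.range_eq_Ico, ← Finset.sum_Ico_consecutive _ (Nat.zero_le (m + 1))
    (by omega : m + 1 ≤ n + 1)]
  have h1 := sum_large h𝒜 m (m + 1) (by omega)
  rw [← hqdef] at h1
  have h1' : 8 * q ^ (tri m) ≤ 4 * q ^ (tri m + 1) := by
    rw [pow_succ]
    have : 0 < q ^ tri m := by positivity
    nlinarith
  -- threshold
  set y0 := Nat.sqrt (m - 2) + 1 with hy0
  have hth : ∀ y, y < y0 → y ^ 2 + 2 ≤ m := by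
    intro y hy
    have : y ≤ Nat.sqrt (m - 2) := by omega
    rw [Nat.le_sqrt'] at this
    omega
  have hth2 : m ≤ y0 ^ 2 + 1 := by
    have : Nat.sqrt (m - 2) < y0 := by omega
    rw [Nat.sqrt_lt'] at this
    omega
  have hy0m : y0 ≤ m + 1 := by
    have := Nat.sqrt_le_self (m - 2)
    omega
  have hy01 : 1 ≤ y0 := by omega
  have h2 : ∑ u ∈ Finset.Ico 0 (m + 1), ((S 𝒜 u).card : ℝ) ≤ 12569 * q ^ (tri m + 1) := by
    rw [← Finset.range_eq_Ico, ← Finset.sum_range_reflect]
    have e0 : ∀ y, m + 1 - 1 - y = m - y := by intro y; omega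
    simp only [e0]
    rw [Finset.range_eq_Ico, ← Finset.sum_Ico_consecutive _ (Nat.zero_le y0) hy0m]
    have h3 : ∑ y ∈ Finset.Ico 0 y0, ((S 𝒜 (m - y)).card : ℝ) ≤ 12561 * q ^ (tri m + 1) := by
      rw [← Finset.range_eq_Ico]
      have : ∀ y ∈ Finset.range y0, ((S 𝒜 (m - y)).card : ℝ) ≤ aseq y * q ^ (tri m + 1) := by
        intro y hy
        rw [Finset.mem_range] at hy
        exact odd_small h𝒜 m y hn hm (by omega) (hth y hy)
      refine (Finset.sum_le_sum this).trans ?_
      rw [← Finset.sum_mul]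
      exact mul_le_mul_of_nonneg_right (sum_aseq y0) (by positivity)
    have h4 : ∑ y ∈ Finset.Ico y0 (m + 1), ((S 𝒜 (m - y)).card : ℝ) ≤ 8 * q ^ (tri m + 1) := by
      rw [Finset.sum_Ico_eq_sum_range]
      have : ∀ j ∈ Finset.range (m + 1 - y0), ((S 𝒜 (m - (y0 + j))).card : ℝ) ≤
          4 * q ^ (tri m + 1) * (1 / 2) ^ j := by
        intro j hj
        rw [Finset.mem_range] at hj
        refine (odd_big h𝒜 m (y0 + j) hn (by omega)).trans ?_
        rw [← hqdef, mul_assoc]
        apply mul_le_mul_of_nonneg_left _ (by norm_num)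
        have e1 : q ^ ((((m : ℝ) + 1) ^ 2 - ((y0 + j : ℕ) : ℝ) ^ 2) / 2) ≤
            q ^ (((tri m + 1 : ℕ) : ℝ) - (j : ℝ)) := by
          apply Real.rpow_le_rpow_of_exponent_le (by linarith)
          have t1 : 2 * (tri m : ℝ) = m * (m + 1) := by exact_mod_cast two_mul_tri m
          have t2 : (m : ℝ) ≤ (y0 : ℝ) ^ 2 + 1 := by exact_mod_cast hth2
          have t3 : (1 : ℝ) ≤ y0 := by exact_mod_cast hy01
          have t4 : (0 : ℝ) ≤ j := by positivity
          push_cast
          nlinarith [mul_le_mul_of_nonneg_right t3 t4, mul_nonneg t4 t4]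
        refine e1.trans ?_
        rw [Real.rpow_sub hq0, Real.rpow_natCast, Real.rpow_natCast, div_eq_mul_inv]
        apply mul_le_mul_of_nonneg_left _ (by positivity)
        rw [one_div, inv_pow]
        apply inv_anti₀ (by positivity)
        exact pow_le_pow_left₀ (by norm_num) hq2 _
      refine (Finset.sum_le_sum this).trans ?_
      rw [← Finset.mul_sum]
      have hg := geom_half (m + 1 - y0)
      have h5 : 0 < 4 * q ^ (tri m + 1) := by positivity
      nlinarith
    linarith
  have h6 : 0 < q ^ (tri m + 1) := by positivity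
  nlinarith

/-- odd case, crude but for all odd `n` -/
lemma odd_upper' (h𝒜 : ∀ A ∈ 𝒜, IsAlternating A) (m : ℕ) (hn : n = 2 * m + 1) :
    (numMaxIsotropic 𝒜 : ℝ) ≤ 20 * (Fintype.card F : ℝ) ^ (((m : ℝ) + 1) ^ 2 / 2) := by
  have hq2 : (2 : ℝ) ≤ Fintype.card F := by exact_mod_cast Fintype.one_lt_card
  set q : ℝ := (Fintype.card F : ℝ) with hqdef
  have hq0 : 0 < q := by linarith
  rw [num_eq, Nat.cast_sum]
  rw [Finset.range_eq_Ico, ← Finset.sum_Ico_consecutive _ (Nat.zero_le (m + 1))
    (by omega : m + 1 ≤ n + 1)]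
  have h1 := sum_large h𝒜 m (m + 1) (by omega)
  rw [← hqdef] at h1
  have h1' : 8 * q ^ (tri m) ≤ 8 * q ^ (((m : ℝ) + 1) ^ 2 / 2) := by
    apply mul_le_mul_of_nonneg_left _ (by norm_num)
    rw [← Real.rpow_natCast]
    apply Real.rpow_le_rpow_of_exponent_le (by linarith)
    have t1 : 2 * (tri m : ℝ) = m * (m + 1) := by exact_mod_cast two_mul_tri m
    have : (0 : ℝ) ≤ m := by positivity
    nlinarith
  have h2 : ∑ u ∈ Finset.Ico 0 (m + 1), ((S 𝒜 u).card : ℝ) ≤ 12 * q ^ (((m : ℝ) + 1) ^ 2 / 2) := by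
    rw [← Finset.range_eq_Ico, ← Finset.sum_range_reflect]
    have e0 : ∀ y, m + 1 - 1 - y = m - y := by intro y; omega
    simp only [e0]
    have h3 : ∀ y ∈ Finset.range (m + 1), ((S 𝒜 (m - y)).card : ℝ) ≤
        (4 * q ^ (((m : ℝ) + 1) ^ 2 / 2)) * ((3 / 2) * (1 / 2) ^ y) := by
      intro y hy
      rw [Finset.mem_range] at hy
      refine (odd_big h𝒜 m y hn (by omega)).trans ?_
      rw [← hqdef, mul_assoc]
      apply mul_le_mul_of_nonneg_left _ (by norm_num)
      have e1 : (((m : ℝ) + 1) ^ 2 - (y : ℝ) ^ 2) / 2 = ((m : ℝ) + 1) ^ 2 / 2 + (-((y : ℝ) ^ 2) / 2) := by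
        ring
      rw [e1, Real.rpow_add hq0]
      apply mul_le_mul_of_nonneg_left _ (by positivity)
      have e2 : q ^ (-((y : ℝ) ^ 2) / 2) ≤ (2 : ℝ) ^ (-((y : ℝ) ^ 2) / 2) := by
        apply Real.rpow_le_rpow_of_nonpos (by norm_num) hq2
        have : (0 : ℝ) ≤ (y : ℝ) ^ 2 := by positivity
        linarith
      refine e2.trans ?_
      have e3 : (2 : ℝ) ^ (-((y : ℝ) ^ 2) / 2) ≤ (2 : ℝ) ^ ((1 / 2 : ℝ) - y) := by
        apply Real.rpow_le_rpow_of_exponent_le (by norm_num)
        nlinarith [sq_nonneg ((y : ℝ) - 1)]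
      refine e3.trans ?_
      have e4 : (2 : ℝ) ^ (1 / 2 : ℝ) ≤ 3 / 2 := by
        rw [← Real.sqrt_eq_rpow, Real.sqrt_le_left (by norm_num)]
        norm_num
      have e5 : ((1 : ℝ) / 2) ^ y = (2 ^ y)⁻¹ := by rw [one_div, inv_pow]
      rw [Real.rpow_sub (by norm_num), Real.rpow_natCast, div_eq_mul_inv, e5]
      exact mul_le_mul_of_nonneg_right e4 (by positivity)
    refine (Finset.sum_le_sum h3).trans ?_
    rw [← Finset.mul_sum, ← Finset.mul_sum]
    have hg := geom_half (m + 1)
    have h5 : 0 < q ^ (((m : ℝ) + 1) ^ 2 / 2) := by positivity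
    nlinarith
  linarith

lemma M_le (C : ℝ) (h : ∀ 𝒜 : Submodule F (Matrix (Fin n) (Fin n) F),
    (∀ A ∈ 𝒜, IsAlternating A) → (numMaxIsotropic 𝒜 : ℝ) ≤ C) : (M n F : ℝ) ≤ C := by
  have hne : {N : ℕ | ∃ 𝒜 : Submodule F (Matrix (Fin n) (Fin n) F),
      (∀ A ∈ 𝒜, IsAlternating A) ∧ numMaxIsotropic 𝒜 = N}.Nonempty := by
    refine ⟨numMaxIsotropic (⊥ : Submodule F (Matrix (Fin n) (Fin n) F)), ⊥, ?_, rfl⟩
    intro A hA v
    rw [mem_bot] at hA
    rw [hA, zero_mulVec, dotProduct_zero]
  have hbdd : BddAbove {N : ℕ | ∃ 𝒜 : Submodule F (Matrix (Fin n) (Fin n) F),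
      (∀ A ∈ 𝒜, IsAlternating A) ∧ numMaxIsotropic 𝒜 = N} := by
    refine ⟨Nat.card (Submodule F (Fin n → F)), ?_⟩
    rintro N ⟨ℬ, _, rfl⟩
    unfold numMaxIsotropic
    rw [← Nat.card_coe_set_eq]
    exact Nat.card_le_card_of_injective _ Subtype.val_injective
  obtain ⟨𝒜, h1, h2⟩ := Nat.sSup_mem hne hbdd
  unfold M
  rw [← h2]
  exact h 𝒜 h1

lemma tri_eq_choose (a : ℕ) : (a + 1).choose 2 = tri a := by
  have h := two_mul_tri a
  rw [Nat.choose_two_right]
  have : (a + 1) * (a + 1 - 1) = 2 * tri a := by rw [h]; simp; ring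
  rw [this]; omega

end upper

/-- Growth of the maximal number of maximal isotropic spaces. With `q` the number of elements of
`F`: for every `n ≥ 1`, `q ^ ((n² - 1) / 8) ≤ M n F ≤ 20 q ^ ((n + 1)² / 8)`; for even `n`,
`q ^ (n (n + 2) / 8) ≤ M n F ≤ 16 q ^ (n (n + 2) / 8)`; for odd `n ≥ 17`,
`q ^ ((n² + 7) / 8) ≤ M n F ≤ 2 ^ 14 q ^ ((n² + 7) / 8)`. -/
theorem main (F : Type*) [Field F] [Fintype F] (n : ℕ) (hn : 1 ≤ n) :
    ((Fintype.card F : ℝ) ^ (((n : ℝ) ^ 2 - 1) / 8) ≤ M n F ∧
      (M n F : ℝ) ≤ 20 * (Fintype.card F : ℝ) ^ (((n : ℝ) + 1) ^ 2 / 8)) ∧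
    (Even n → Fintype.card F ^ (n * (n + 2) / 8) ≤ M n F ∧
      M n F ≤ 16 * Fintype.card F ^ (n * (n + 2) / 8)) ∧
    (Odd n → 17 ≤ n → Fintype.card F ^ ((n ^ 2 + 7) / 8) ≤ M n F ∧
      M n F ≤ 2 ^ 14 * Fintype.card F ^ ((n ^ 2 + 7) / 8)) := by
  have hq2 : (2 : ℝ) ≤ Fintype.card F := by exact_mod_cast Fintype.one_lt_card
  have hq1 : (1 : ℝ) ≤ Fintype.card F := by linarith
  have hq0 : (0 : ℝ) < Fintype.card F := by linarith
  rcases Nat.even_or_odd' n with ⟨m, hm | hm⟩
  · -- even
    have ev : Even n := ⟨m, by omega⟩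
    have hexp : n * (n + 2) / 8 = tri m := by
      have h := two_mul_tri m
      have : n * (n + 2) = 8 * tri m := by rw [hm]; nlinarith
      rw [this]; omega
    have hlow : Fintype.card F ^ tri m ≤ M n F := by
      have := lower_aux (F := F) m 0 (Or.inl rfl) (by omega : n = 2 * m + 0)
      rwa [tri_eq_choose, Nat.add_zero] at this
    have hup : (M n F : ℝ) ≤ 16 * (Fintype.card F : ℝ) ^ (tri m) :=
      M_le _ fun 𝒜 h => even_upper h m hm
    have hr : (((n : ℝ) + 1) ^ 2 / 8) = (tri m : ℝ) + 1 / 8 := by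
      have t1 : 2 * (tri m : ℝ) = m * (m + 1) := by exact_mod_cast two_mul_tri m
      rw [hm]; push_cast; nlinarith
    refine ⟨⟨?_, ?_⟩, ?_, ?_⟩
    · refine le_trans ?_ (show ((Fintype.card F ^ tri m : ℕ) : ℝ) ≤ _ by exact_mod_cast hlow)
      push_cast
      rw [← Real.rpow_natCast (Fintype.card F : ℝ) (tri m)]
      apply Real.rpow_le_rpow_of_exponent_le hq1
      have : (0 : ℝ) ≤ n := by positivity
      nlinarith
    · refine hup.trans ?_
      rw [hr, ← Real.rpow_natCast]
      have h1 : (Fintype.card F : ℝ) ^ ((tri m : ℕ) : ℝ) ≤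
          (Fintype.card F : ℝ) ^ ((tri m : ℝ) + 1 / 8) :=
        Real.rpow_le_rpow_of_exponent_le hq1 (by linarith)
      have h2 : 0 < (Fintype.card F : ℝ) ^ ((tri m : ℝ) + 1 / 8) := by positivity
      linarith
    · intro _
      rw [hexp]
      exact ⟨hlow, by exact_mod_cast hup⟩
    · intro ho
      exact absurd ev (Nat.not_even_iff_odd.mpr ho)
  · -- odd
    have od : Odd n := ⟨m, hm⟩
    have hup : (M n F : ℝ) ≤ 20 * (Fintype.card F : ℝ) ^ (((m : ℝ) + 1) ^ 2 / 2) :=
      M_le _ fun 𝒜 h => odd_upper' h m hm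
    refine ⟨⟨?_, ?_⟩, ?_, ?_⟩
    · have hlow : Fintype.card F ^ tri m ≤ M n F := by
        rcases Nat.eq_zero_or_pos m with rfl | hmpos
        · -- n = 1
          have h1 : Fintype.card F ^ tri 0 = 1 := by simp [tri]
          rw [h1]
          have hfin : (0 : ℕ) < numMaxIsotropic (⊥ : Submodule F (Matrix (Fin n) (Fin n) F)) := by
            unfold numMaxIsotropic
            rw [Set.ncard_pos (Set.toFinite _)]
            refine ⟨⊤, ?_, ?_⟩
            · intro u _ v _ A hA
              rw [mem_bot] at hA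
              rw [hA, zero_mulVec, dotProduct_zero]
            · intro U _ _; exact le_top
          refine le_trans hfin (le_M _ ?_)
          intro A hA v
          rw [mem_bot] at hA
          rw [hA, zero_mulVec, dotProduct_zero]
        · have := lower_aux (F := F) m 1 (Or.inr hmpos) hm
          rw [tri_eq_choose] at this
          refine le_trans ?_ this
          exact Nat.pow_le_pow_right Fintype.card_pos (by omega)
      refine le_trans ?_ (show ((Fintype.card F ^ tri m : ℕ) : ℝ) ≤ _ by exact_mod_cast hlow)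
      push_cast
      rw [← Real.rpow_natCast (Fintype.card F : ℝ) (tri m)]
      apply Real.rpow_le_rpow_of_exponent_le hq1
      have t1 : 2 * (tri m : ℝ) = m * (m + 1) := by exact_mod_cast two_mul_tri m
      rw [hm]; push_cast; nlinarith
    · refine hup.trans (le_of_eq ?_)
      congr 2
      rw [hm]; push_cast; ring
    · intro he
      exact absurd he (Nat.not_even_iff_odd.mpr od)
    · intro _ h17
      have hexp : (n ^ 2 + 7) / 8 = tri m + 1 := by
        have h := two_mul_tri m
        have : n ^ 2 + 7 = 8 * (tri m + 1) := by rw [hm]; nlinarith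
        rw [this]; omega
      rw [hexp]
      constructor
      · have := lower_aux (F := F) m 1 (Or.inr (by omega)) hm
        rwa [tri_eq_choose] at this
      · have : (M n F : ℝ) ≤ 2 ^ 14 * (Fintype.card F : ℝ) ^ (tri m + 1) :=
          M_le _ fun 𝒜 h => odd_upper h m hm (by omega)
        exact_mod_cast this

end Pool.Agent.H55.IsoSpaces
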