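import Mathlib

/-!
# Alternating matrix spaces and their maximal isotropic spaces: definitions
-/

open Module Submodule Matrix

namespace Pool.Agent.H55.IsoSpaces

/-- `A` is alternating: `vᵗ A v = 0` for every vector `v`. -/
def IsAlternating {F : Type*} [Field F] {n : ℕ} (A : Matrix (Fin n) (Fin n) F) : Prop :=
  ∀ v : Fin n → F, v ⬝ᵥ (A *ᵥ v) = 0

/-- The subspace `U` of `Fⁿ` is isotropic for the matrix space `𝒜`: `uᵗ A u' = 0` for all
`u, u' ∈ U` and all `A ∈ 𝒜`. -/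
def IsIsotropic {F : Type*} [Field F] {n : ℕ} (𝒜 : Submodule F (Matrix (Fin n) (Fin n) F))
    (U : Submodule F (Fin n → F)) : Prop :=
  ∀ u ∈ U, ∀ u' ∈ U, ∀ A ∈ 𝒜, u ⬝ᵥ (A *ᵥ u') = 0

/-- The number of maximal isotropic spaces of the matrix space `𝒜`. -/
noncomputable def numMaxIsotropic {F : Type*} [Field F] {n : ℕ}
    (𝒜 : Submodule F (Matrix (Fin n) (Fin n) F)) : ℕ :=
  Set.ncard {U : Submodule F (Fin n → F) | Maximal (IsIsotropic 𝒜) U}

/-- `M n F` is the maximum, over all alternating matrix spaces `𝒜` of `n × n` matrices over `F`, of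
the number of maximal isotropic spaces of `𝒜`. -/
noncomputable def M (n : ℕ) (F : Type*) [Field F] : ℕ :=
  sSup {N : ℕ | ∃ 𝒜 : Submodule F (Matrix (Fin n) (Fin n) F),
    (∀ A ∈ 𝒜, IsAlternating A) ∧ numMaxIsotropic 𝒜 = N}

end Pool.Agent.H55.IsoSpaces
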